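import Pool.Agent.Lib.H66S.K2

/-!
# H66S, A1 (S/M, many small): the continuum `H`
-/

set_option autoImplicit false

namespace H66S

open Set Filter Topology Metric

variable {c : ℂ} {H : Set ℂ} {ζ : ℂ}

/-- PROOF. `0 = f c ζ`, `h.maps`. -/
theorem a1_zero (h : Hyp c H ζ) : (0 : ℂ) ∈ H := by
  have h1 := h.maps h.zH
  rw [h.fz] at h1
  exact h1

theorem a1_iter (h : Hyp c H ζ) {z : ℂ} (hz : z ∈ H) (n : ℕ) : (f c)^[n] z ∈ H := h.maps.iterate n hz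

/-- PROOF. `H` is bounded and forward invariant. -/
theorem a1_K (h : Hyp c H ζ) : H ⊆ K c := by
  intro z hz
  obtain ⟨M, hM⟩ := h.cpt.isBounded.exists_norm_le
  exact ⟨M, fun n => hM _ (a1_iter h hz n)⟩

theorem a1_c (h : Hyp c H ζ) (k : ℕ) : (f c)^[k] c ∈ H := by
  have h1 : f c 0 = c := by
    unfold f
    ring
  have h2 := a1_iter h (a1_zero h) (k + 1)
  rw [Function.iterate_succ_apply, h1] at h2
  exact h2

/-- PROOF. Otherwise `f c 0 = 0`, `c = 0` (`k2_ne`). -/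
theorem a1_zeta (h : Hyp c H ζ) : ζ ≠ 0 := by
  rintro rfl
  have h1 : f c 0 = c := by
    unfold f
    ring
  have h2 := h.fz
  rw [h1] at h2
  exact k2_ne h.J0 h2

/-- PROOF. `f c z = f c (-z)`, `h.inj` gives `z = -z`. -/
theorem a1_inter (h : Hyp c H ζ) {z : ℂ} (hz : z ∈ H) (hz' : -z ∈ H) : z = 0 := by
  have h1 : z = -z := h.inj hz hz' (f_neg c z).symm
  linear_combination h1 / 2

theorem a1_negzeta (h : Hyp c H ζ) : -ζ ∉ H := fun h1 => a1_zeta h (a1_inter h h.zH h1)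

theorem a1_cne (h : Hyp c H ζ) : c ≠ 0 := k2_ne h.J0

/-- PROOF. Otherwise `c ∈ H` and `-c ∈ H`, `c = 0`. -/
theorem a1_negc (h : Hyp c H ζ) : -c ∉ H := fun h1 =>
  a1_cne h (a1_inter h (a1_c h 0) h1)

/-- `c = f c 0 ∈ J c`. -/
theorem a1_cJ (h : Hyp c H ζ) : c ∈ J c := by
  have h1 : f c 0 = c := by
    unfold f
    ring
  have h2 := k2_f h.J0
  rw [h1] at h2
  exact h2

/-- PROOF. `f c (-ζ) = 0 ∈ J c`, `k2_pre`. -/
theorem a1_zJ (h : Hyp c H ζ) : -ζ ∈ J c := k2_pre (by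
  rw [f_neg, h.fz]
  exact h.J0)

end H66S
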