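import Pool.Agent.Lib.H66S.K2

/-!
# H66S, BO1 (M): boundary behaviour of a Riemann map

`Ext = {w | 1 < ‖w‖}`.
-/

set_option autoImplicit false

namespace H66S

open Set Filter Topology Metric

variable {c : ℂ} {φ : ℂ → ℂ}

theorem bo1_out (h : IsRiemannMap c φ) {w : ℂ} (hw : 1 < ‖w‖) : φ w ∉ K c := by
  have h1 : φ w ∈ (K c)ᶜ := by
    rw [← h.img]
    exact mem_image_of_mem φ hw
  exact h1

theorem bo1_surj (h : IsRiemannMap c φ) {z : ℂ} (hz : z ∉ K c) : ∃ w : ℂ, 1 < ‖w‖ ∧ φ w = z := by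
  have h1 : z ∈ (K c)ᶜ := hz
  rw [← h.img] at h1
  exact h1

theorem bo1_inj (h : IsRiemannMap c φ) {w w' : ℂ} (hw : 1 < ‖w‖) (hw' : 1 < ‖w'‖) (e : φ w = φ w') :
    w = w' := by
  obtain ⟨ψ, -, hψ⟩ := h.inv
  rw [← hψ w hw, e, hψ w' hw']

theorem bo1_openExt : IsOpen {w : ℂ | 1 < ‖w‖} := isOpen_lt continuous_const continuous_norm

theorem bo1_cont (h : IsRiemannMap c φ) {w : ℂ} (hw : 1 < ‖w‖) : ContinuousAt φ w :=
  (h.holo.differentiableAt (bo1_openExt.mem_nhds hw)).continuousAt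

theorem bo1_psi (h : IsRiemannMap c φ) : ∃ ψ : ℂ → ℂ, DifferentiableOn ℂ ψ (K c)ᶜ ∧
    (∀ w : ℂ, 1 < ‖w‖ → ψ (φ w) = w) ∧ ∀ z : ℂ, z ∉ K c → 1 < ‖ψ z‖ ∧ φ (ψ z) = z := by
  obtain ⟨ψ, hd, hψ⟩ := h.inv
  refine ⟨ψ, hd, hψ, fun z hz => ?_⟩
  obtain ⟨w, hw, rfl⟩ := bo1_surj h hz
  rw [hψ w hw]
  exact ⟨hw, rfl⟩

/-- `φ` is open: for `φ w` there is a neighbourhood on which the preimages are close to `w`.
PROOF. Continuity of `ψ` at `φ w` (`h.inv`). -/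
theorem bo1_inv (h : IsRiemannMap c φ) {w : ℂ} (hw : 1 < ‖w‖) {ε : ℝ} (hε : 0 < ε) :
    ∃ δ : ℝ, 0 < δ ∧ ∀ w' : ℂ, 1 < ‖w'‖ → ‖φ w' - φ w‖ < δ → ‖w' - w‖ < ε := by
  obtain ⟨ψ, hd, hψ⟩ := h.inv
  have h1 : ContinuousAt ψ (φ w) := (hd.differentiableAt
    ((k1_closed c).isOpen_compl.mem_nhds (bo1_out h hw))).continuousAt
  obtain ⟨δ, hδ, h2⟩ := Metric.continuousAt_iff.1 h1 ε hε
  refine ⟨δ, hδ, fun w' hw' hd' => ?_⟩
  rw [← dist_eq_norm] at hd' ⊢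
  have h3 := h2 hd'
  rwa [hψ w hw, hψ w' hw'] at h3

/-- (b) PROOF. `h.infty`. -/
theorem bo1_b (h : IsRiemannMap c φ) (R : ℝ) : ∃ ρ : ℝ, 1 < ρ ∧ ∀ w : ℂ, ρ < ‖w‖ → R < ‖φ w‖ := by
  have h1 := (tendsto_norm_cobounded_atTop.comp h.infty).eventually (eventually_gt_atTop R)
  rw [← comap_norm_atTop, eventually_comap, eventually_atTop] at h1
  obtain ⟨ρ, hρ⟩ := h1
  refine ⟨max ρ 2, lt_of_lt_of_le (by norm_num) (le_max_right _ _), fun w hw => ?_⟩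
  exact hρ ‖w‖ ((le_max_left _ _).trans hw.le) w rfl

theorem bo1_conn {R : ℝ} (hR : 0 < R) : IsPreconnected {z : ℂ | R < ‖z‖} := by
  have h1 : {z : ℂ | R < ‖z‖} = Complex.exp '' {ξ : ℂ | Real.log R < ξ.re} := by
    ext z
    constructor
    · intro hz
      have hz' : R < ‖z‖ := hz
      have hz0 : z ≠ 0 := by
        rintro rfl
        rw [norm_zero] at hz'
        linarith
      refine ⟨Complex.log z, ?_, Complex.exp_log hz0⟩
      change Real.log R < (Complex.log z).re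
      rw [Complex.log_re]
      exact Real.log_lt_log hR hz'
    · rintro ⟨ξ, hξ, rfl⟩
      change R < ‖Complex.exp ξ‖
      rw [Complex.norm_exp, ← Real.log_lt_iff_lt_exp hR]
      exact hξ
  rw [h1]
  exact (convex_halfSpace_re_gt _).isPreconnected.image _ Complex.continuous_exp.continuousOn

theorem bo1_a (h : IsRiemannMap c φ) {ρ : ℝ} (hρ : 1 < ρ) :
    ∃ R : ℝ, ∀ w : ℂ, 1 < ‖w‖ → R < ‖φ w‖ → ρ < ‖w‖ := by
  obtain ⟨ψ, hd, hψ, hφψ⟩ := bo1_psi h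
  have hcs : ContinuousOn φ (sphere (0 : ℂ) ρ) := h.holo.continuousOn.mono (fun w hw => by
    rw [mem_sphere_zero_iff_norm] at hw
    change 1 < ‖w‖
    rw [hw]
    exact hρ)
  obtain ⟨R₀, hR₀⟩ := (isCompact_sphere (0 : ℂ) ρ).exists_bound_of_continuousOn hcs
  have he := k1_esc_two c
  obtain ⟨R, hR⟩ : ∃ R, R = max R₀ (esc c) := ⟨_, rfl⟩
  have hR1 : R₀ ≤ R := by rw [hR]; exact le_max_left _ _
  have hR2 : esc c ≤ R := by rw [hR]; exact le_max_right _ _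
  have hT : ∀ z : ℂ, R < ‖z‖ → z ∉ K c := fun z hz hk => by
    have := k1_norm hk
    linarith
  refine ⟨R, fun w hw hwR => ?_⟩
  by_contra hc
  push Not at hc
  have hne : ∀ v : ℂ, 1 < ‖v‖ → R < ‖φ v‖ → ‖v‖ ≠ ρ := fun v _ hvR hvρ => by
    have := hR₀ v (by rw [mem_sphere_zero_iff_norm]; exact hvρ)
    linarith
  have hpre : IsPreconnected ((fun z => ‖ψ z‖) '' {z : ℂ | R < ‖z‖}) := by
    refine (bo1_conn (by linarith : 0 < R)).image _ (ContinuousOn.norm (hd.continuousOn.mono ?_))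
    exact fun z hz => hT z hz
  obtain ⟨ρ', hρ', h1⟩ := bo1_b h R
  obtain ⟨w₁, hw₁⟩ : ∃ w₁ : ℂ, ‖w₁‖ = max ρ' ρ + 1 := by
    refine ⟨((max ρ' ρ + 1 : ℝ) : ℂ), ?_⟩
    rw [Complex.norm_real, Real.norm_eq_abs, abs_of_pos]
    have := le_max_right ρ' ρ
    linarith
  have h2 := le_max_left ρ' ρ
  have h3 := le_max_right ρ' ρ
  have hw₁' : 1 < ‖w₁‖ := by linarith
  have h4 : R < ‖φ w₁‖ := h1 w₁ (by linarith)
  have h5 : ρ ∈ (fun z => ‖ψ z‖) '' {z : ℂ | R < ‖z‖} := by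
    refine hpre.ordConnected.out (x := ‖w‖) (y := ‖w₁‖) ⟨φ w, hwR, ?_⟩ ⟨φ w₁, h4, ?_⟩
      ⟨hc, by linarith⟩
    · simp only
      rw [hψ w hw]
    · simp only
      rw [hψ w₁ hw₁']
  obtain ⟨z, hz, hzρ⟩ := h5
  have h6 := hφψ z (hT z hz)
  refine hne (ψ z) h6.1 ?_ hzρ
  rw [h6.2]
  exact hz

theorem bo1_c (h : IsRiemannMap c φ) {O : Set ℂ} (hO : IsOpen O) (hKO : K c ⊆ O) :
    ∃ δ : ℝ, 0 < δ ∧ ∀ w : ℂ, 1 < ‖w‖ → ‖w‖ < 1 + δ → φ w ∈ O := by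
  obtain ⟨ψ, hd, hψ, hφψ⟩ := bo1_psi h
  obtain ⟨R, hR⟩ := bo1_a h (ρ := 2) (by norm_num)
  have hT : IsCompact (closedBall (0 : ℂ) R \ O) := (isCompact_closedBall _ _).diff hO
  have hTK : closedBall (0 : ℂ) R \ O ⊆ (K c)ᶜ := fun z hz hk => hz.2 (hKO hk)
  have hcomp := hT.image_of_continuousOn (f := fun z => ‖ψ z‖) (hd.continuousOn.mono hTK).norm
  have hex : ∃ δ : ℝ, 0 < δ ∧ δ ≤ 1 ∧ ∀ z ∈ closedBall (0 : ℂ) R \ O, 1 + δ ≤ ‖ψ z‖ := by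
    rcases (closedBall (0 : ℂ) R \ O).eq_empty_or_nonempty with he | hne
    · refine ⟨1, one_pos, le_rfl, fun z hz => ?_⟩
      rw [he] at hz
      exact absurd hz (notMem_empty z)
    · obtain ⟨m, hm, hmin⟩ := hcomp.exists_isLeast (hne.image _)
      obtain ⟨z₀, hz₀, hzm⟩ := hm
      have h1 : 1 < m := by
        rw [← hzm]
        exact (hφψ z₀ (hTK hz₀)).1
      refine ⟨min 1 (m - 1), by
        refine lt_min one_pos ?_
        linarith, min_le_left _ _, fun z hz => ?_⟩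
      have h2 := hmin (mem_image_of_mem (fun z => ‖ψ z‖) hz)
      have h3 := min_le_right 1 (m - 1)
      linarith
  obtain ⟨δ, hδ, hδ1, h1⟩ := hex
  refine ⟨δ, hδ, fun w hw hwδ => ?_⟩
  by_contra hc
  have h2 : ‖φ w‖ ≤ R := by
    by_contra h3
    push Not at h3
    have := hR w hw h3
    linarith
  have h3 := h1 (φ w) ⟨by rwa [mem_closedBall_zero_iff], hc⟩
  rw [hψ w hw] at h3
  linarith

theorem bo1_closed (h : IsRiemannMap c φ) {ρ : ℝ} (hρ : 1 < ρ) {T : Set ℂ} (hT : IsClosed T)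
    (hTρ : ∀ w ∈ T, ρ ≤ ‖w‖) : IsClosed (φ '' T) := by
  refine isClosed_of_closure_subset (fun z hz => ?_)
  obtain ⟨x, hx, hxz⟩ := mem_closure_iff_seq_limit.1 hz
  choose w hwT hwx using hx
  obtain ⟨B, hB⟩ := hxz.norm.bddAbove_range
  obtain ⟨ρ', hρ', h1⟩ := bo1_b h B
  have hb : ∀ i, w i ∈ closedBall (0 : ℂ) ρ' := by
    intro i
    rw [mem_closedBall_zero_iff]
    by_contra hc
    push Not at hc
    have h2 := h1 (w i) hc
    rw [hwx i] at h2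
    have h3 : ‖x i‖ ≤ B := hB ⟨i, rfl⟩
    linarith
  obtain ⟨a, -, s, hs, hsa⟩ := (isCompact_closedBall (0 : ℂ) ρ').tendsto_subseq hb
  have haT : a ∈ T := hT.mem_of_tendsto hsa (Eventually.of_forall fun i => hwT _)
  have h2 : 1 < ‖a‖ := lt_of_lt_of_le hρ (hTρ a haT)
  have h3 : Tendsto (fun i => φ (w (s i))) atTop (𝓝 (φ a)) := (bo1_cont h h2).tendsto.comp hsa
  have h4 : Tendsto (fun i => φ (w (s i))) atTop (𝓝 z) := by
    have h5 : (fun i => φ (w (s i))) = x ∘ s := by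
      funext i
      exact hwx (s i)
    rw [h5]
    exact hxz.comp hs.tendsto_atTop
  exact ⟨a, haT, tendsto_nhds_unique h3 h4⟩

theorem bo1_d (h : IsRiemannMap c φ) {ρ : ℝ} (hρ : 1 < ρ) :
    ∃ O : Set ℂ, IsOpen O ∧ K c ⊆ O ∧ ∀ w : ℂ, 1 < ‖w‖ → φ w ∈ O → ‖w‖ < ρ := by
  refine ⟨(φ '' {w | ρ ≤ ‖w‖})ᶜ, (bo1_closed h hρ (isClosed_le continuous_const continuous_norm)
    fun w hw => hw).isOpen_compl, ?_, ?_⟩
  · rintro z hz ⟨w, hw, rfl⟩
    exact bo1_out h (lt_of_lt_of_le hρ hw) hz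
  · intro w _ hO
    by_contra hc
    push Not at hc
    exact hO ⟨w, hc, rfl⟩

theorem bo1_lim (h : IsRiemannMap c φ) {w : ℕ → ℂ} (hw : ∀ i, 1 < ‖w i‖) {z : ℂ} (hz : z ∈ K c)
    (hl : Tendsto (fun i => φ (w i)) atTop (𝓝 z)) : Tendsto (fun i => ‖w i‖) atTop (𝓝 1) := by
  refine tendsto_order.2 ⟨fun a ha => Eventually.of_forall fun i => ha.trans (hw i), fun a ha => ?_⟩
  obtain ⟨O, hO, hKO, h1⟩ := bo1_d h ha
  filter_upwards [hl (hO.mem_nhds (hKO hz))] with i hi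
  exact h1 (w i) (hw i) hi

theorem bo1_ray (h : IsRiemannMap c φ) {u : ℂ} (hu : u ∉ K c) :
    ∃ O : Set ℂ, IsClosed O ∧ IsPreconnected O ∧ u ∈ O ∧ (∀ z ∈ O, z ∉ K c) ∧
      ∀ R : ℝ, ∃ z ∈ O, R < ‖z‖ := by
  obtain ⟨w, hw, rfl⟩ := bo1_surj h hu
  have hw0 : w ≠ 0 := by
    rintro rfl
    rw [norm_zero] at hw
    linarith
  obtain ⟨T, hT⟩ : ∃ T : Set ℂ, T = (fun s : ℝ => (s : ℂ) * w) '' Ici 1 := ⟨_, rfl⟩
  have hT' : T = {v : ℂ | (v / w).im = 0 ∧ 1 ≤ (v / w).re} := by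
    rw [hT]
    ext v
    constructor
    · rintro ⟨s, hs, rfl⟩
      have h1 : (s : ℂ) * w / w = s := by field_simp
      change ((s : ℂ) * w / w).im = 0 ∧ 1 ≤ ((s : ℂ) * w / w).re
      rw [h1]
      exact ⟨Complex.ofReal_im s, hs⟩
    · rintro ⟨h1, h2⟩
      refine ⟨(v / w).re, h2, ?_⟩
      have h3 : (((v / w).re : ℝ) : ℂ) = v / w := Complex.ext rfl (by
        rw [Complex.ofReal_im]
        exact h1.symm)
      simp only
      rw [h3]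
      field_simp
  have hTc : IsClosed T := by
    rw [hT']
    have h1 : Continuous fun v : ℂ => v / w := continuous_id.div_const w
    exact (isClosed_eq (Complex.continuous_im.comp h1) continuous_const).inter
      (isClosed_le continuous_const (Complex.continuous_re.comp h1))
  have hTn : ∀ v ∈ T, ‖w‖ ≤ ‖v‖ := by
    rw [hT]
    rintro _ ⟨s, hs, rfl⟩
    have hs' : (1 : ℝ) ≤ s := hs
    simp only
    rw [norm_mul, Complex.norm_real, Real.norm_eq_abs, abs_of_pos (by linarith)]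
    nlinarith [norm_nonneg w]
  have hTp : IsPreconnected T := by
    rw [hT]
    refine isPreconnected_Ici.image _ (Continuous.continuousOn ?_)
    exact (Complex.continuous_ofReal).mul continuous_const
  refine ⟨φ '' T, bo1_closed h hw hTc hTn, hTp.image φ (h.holo.continuousOn.mono fun v hv =>
    lt_of_lt_of_le hw (hTn v hv)), ⟨w, ?_, rfl⟩, ?_, fun R => ?_⟩
  · rw [hT]
    exact ⟨1, mem_Ici.2 le_rfl, by simp⟩
  · rintro _ ⟨v, hv, rfl⟩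
    exact bo1_out h (lt_of_lt_of_le hw (hTn v hv))
  · obtain ⟨ρ, hρ, h1⟩ := bo1_b h R
    refine ⟨φ ((ρ : ℂ) * w), ⟨_, ?_, rfl⟩, h1 _ ?_⟩
    · rw [hT]
      exact ⟨ρ, hρ.le, rfl⟩
    · rw [norm_mul, Complex.norm_real, Real.norm_eq_abs, abs_of_pos (by linarith)]
      nlinarith

end H66S
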