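import Pool.Agent.Lib.H66S.LG1

/-!
# H66S, LG2 (M): lifting under `f c` on a compact set disjoint from a closed connected unbounded set
-/

set_option autoImplicit false

namespace H66S

open Set Filter Topology Metric

theorem lg2_log {c : ℂ} {Q Y : Set ℂ} (hQ : IsCompact Q) (hYc : IsClosed Y) (hY : IsPreconnected Y)
    (hYu : ∀ R : ℝ, ∃ z ∈ Y, R < ‖z‖) (hd : Disjoint Q Y) {k : ℕ} {G : ℂ → ℂ} (hG : ContinuousOn G Q)
    (hk : ∀ z ∈ Q, (f c)^[k] (G z) = z) {a' : ℂ} (ha : (f c)^[k] a' ∈ Y) :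
    HasLog Q (fun z => G z - a') := by
  have h1 : Disjoint (G '' Q) ((f c)^[k] ⁻¹' Y) := by
    rw [Set.disjoint_left]
    rintro _ ⟨z, hz, rfl⟩ h2
    rw [mem_preimage, hk z hz] at h2
    exact Set.disjoint_left.1 hd hz h2
  obtain ⟨ε, hε, h2⟩ := h1.exists_thickenings (hQ.image_of_continuousOn hG)
    (hYc.preimage ((f_cont c).iterate k))
  have h3 : ∀ z ∈ Q, ∀ y, (f c)^[k] y ∈ Y → ε ≤ ‖G z - y‖ := by
    intro z hz y hy
    by_contra hc
    push Not at hc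
    have hy2 : y ∈ thickening ε ((f c)^[k] ⁻¹' Y) := self_subset_thickening hε _ hy
    refine Set.disjoint_left.1 h2 ?_ hy2
    rw [mem_thickening_iff]
    refine ⟨G z, mem_image_of_mem G hz, ?_⟩
    rw [dist_comm, dist_eq_norm]
    exact hc
  obtain ⟨δ, hδ, h4⟩ := lg1_root c k hε
  obtain ⟨R, hR⟩ := (hQ.image_of_continuousOn hG).isBounded.exists_norm_le
  obtain ⟨R', hR'⟩ := lg1_big c k R
  obtain ⟨a₀, ha₀, hn⟩ := hYu R'
  have h5 := lg1_chain hY hδ (p := fun a => ∀ x, (f c)^[k] x = a → HasLog Q (fun z => G z - x))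
    (fun a haY b hbY hab hpa x hx => by
      obtain ⟨y, hy, hyx⟩ := h4 b a x (by rwa [norm_sub_rev]) hx
      refine lg1_near (hpa y hy) (hG.sub continuousOn_const) (fun z hz => ?_)
      have h6 : G z - x - (G z - y) = y - x := by ring
      rw [h6]
      exact hyx.trans_le (h3 z hz y (by rw [hy]; exact haY)))
    ha₀ (fun x hx => lg1_far hG (fun z hz => by
      refine (hR _ (mem_image_of_mem G hz)).trans_lt (hR' x ?_)
      rw [hx]
      exact hn))
  exact h5 _ ha a' rfl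

theorem lg2_iter {c : ℂ} {Q : Set ℂ} {G : ℕ → ℂ → ℂ} (h0 : ∀ z, G 0 z = z)
    (h2 : ∀ k, ∀ z ∈ Q, f c (G (k + 1) z) = G k z) (k : ℕ) {z : ℂ} (hz : z ∈ Q) :
    (f c)^[k] (G k z) = z := by
  induction k with
  | zero => exact h0 z
  | succ k ih => rw [Function.iterate_succ_apply, h2 k z hz, ih]

theorem lg2_seq {c : ℂ} {Q Y : Set ℂ} (hQ : IsCompact Q) (hYc : IsClosed Y) (hY : IsPreconnected Y)
    (hYu : ∀ R : ℝ, ∃ z ∈ Y, R < ‖z‖) (hd : Disjoint Q Y) (hc : ∀ k : ℕ, (f c)^[k] c ∈ Y) {a b : ℂ}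
    (ha : a ∈ Q) (hb : b ∈ Q) (hab : f c b = a) :
    ∃ G : ℕ → ℂ → ℂ, (∀ z, G 0 z = z) ∧ (∀ k, ContinuousOn (G k) Q) ∧
      (∀ k, ∀ z ∈ Q, f c (G (k + 1) z) = G k z) ∧ ∀ k, G (k + 1) a = G k b := by
  let P : ℕ → (ℂ → ℂ) → Prop := fun k G => ContinuousOn G Q ∧ (∀ z ∈ Q, (f c)^[k] (G z) = z) ∧
    f c (G b) = G a
  have hstep : ∀ k (G : {G // P k G}), ∃ G' : {G // P (k + 1) G},
      (∀ z ∈ Q, f c (G'.1 z) = G.1 z) ∧ G'.1 a = G.1 b := by
    rintro k ⟨G, hG1, hG2, hG3⟩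
    have h1 := lg2_log hQ hYc hY hYu hd hG1 hG2 (hc k)
    obtain ⟨G', h2, h3, h4⟩ := lg1_sqrt h1 ha hG3
    refine ⟨⟨G', h2, fun z hz => ?_, ?_⟩, h3, h4⟩
    · rw [Function.iterate_succ_apply, h3 z hz]
      exact hG2 z hz
    · rw [h3 b hb, h4]
  choose F hF using hstep
  let s : ∀ k, {G // P k G} := fun k =>
    Nat.rec ⟨fun z => z, continuousOn_id, fun z _ => rfl, hab⟩ (fun k G => F k G) k
  exact ⟨fun k => (s k).1, fun z => rfl, fun k => (s k).2.1, fun k => (hF k (s k)).1,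
    fun k => (hF k (s k)).2⟩

theorem lg2_holo {c : ℂ} {S Q Y : Set ℂ} (hS : IsOpen S) (hSQ : S ⊆ Q) (hd : Disjoint Q Y)
    (hc : ∀ k : ℕ, (f c)^[k] c ∈ Y) {G : ℕ → ℂ → ℂ} (h0 : ∀ z, G 0 z = z)
    (h1 : ∀ k, ContinuousOn (G k) Q) (h2 : ∀ k, ∀ z ∈ Q, f c (G (k + 1) z) = G k z) (k : ℕ) :
    DifferentiableOn ℂ (G k) S := by
  induction k with
  | zero =>
    have h3 : G 0 = fun z => z := funext h0
    rw [h3]
    exact differentiableOn_id
  | succ k ih =>
    intro z hz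
    have hne : G (k + 1) z ≠ 0 := by
      intro h3
      have h4 := h2 k z (hSQ hz)
      rw [h3] at h4
      have h5 : G k z = c := by
        rw [← h4]
        unfold f
        ring
      have h6 := lg2_iter h0 h2 k (hSQ hz)
      rw [h5] at h6
      refine Set.disjoint_left.1 hd (hSQ hz) ?_
      rw [← h6]
      exact hc k
    have hf : HasStrictDerivAt (f c) (2 * G (k + 1) z) (G (k + 1) z) := by
      have h3 := (hasStrictDerivAt_pow 2 (G (k + 1) z)).add_const c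
      have h4 : ((2 : ℕ) : ℂ) * G (k + 1) z ^ (2 - 1) = 2 * G (k + 1) z := by
        norm_num
      rw [h4] at h3
      exact h3
    have hf' : 2 * G (k + 1) z ≠ 0 := mul_ne_zero two_ne_zero hne
    have hcont : ContinuousAt (G (k + 1)) z :=
      (h1 (k + 1)).continuousAt (Filter.mem_of_superset (hS.mem_nhds hz) hSQ)
    have h3 : ∀ᶠ x in 𝓝 z, hf.localInverse (f c) _ _ hf' (G k x) = G (k + 1) x := by
      have h4 := hcont.eventually (hf.hasStrictFDerivAt_equiv hf').eventually_left_inverse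
      filter_upwards [h4, hS.mem_nhds hz] with x hx hxS
      rw [← h2 k x (hSQ hxS)]
      exact hx
    have h4 : HasDerivAt (hf.localInverse (f c) _ _ hf') (2 * G (k + 1) z)⁻¹ (G k z) := by
      have h5 := (hf.to_localInverse hf').hasDerivAt
      rwa [h2 k z (hSQ hz)] at h5
    have h5 := h4.differentiableAt.comp z ((ih z hz).differentiableAt (hS.mem_nhds hz))
    exact (h5.congr_of_eventuallyEq (h3.mono fun x hx => hx.symm)).differentiableWithinAt

end H66S
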