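import Pool.Agent.Lib.H66S.A1
import Pool.Agent.Lib.H66S.BO1
import Pool.Agent.Lib.H66S.LG2

/-!
# H66S, A2 (M): the first lift of `-H`
-/

set_option autoImplicit false

namespace H66S

open Set Filter Topology Metric

variable {c : ℂ} {H : Set ℂ} {ζ : ℂ} {φ : ℂ → ℂ}

theorem a2_image (A : Set ℂ) : {z : ℂ | -z ∈ A} = (fun z => -z) '' A := by
  ext z
  constructor
  · intro hz
    exact ⟨-z, hz, neg_neg z⟩
  · rintro ⟨w, hw, rfl⟩
    show - -w ∈ A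
    rw [neg_neg]
    exact hw

theorem a2_negc {A : Set ℂ} (hA : IsCompact A) : IsCompact {z : ℂ | -z ∈ A} := by
  rw [a2_image]
  exact hA.image continuous_neg

theorem a2_negp {A : Set ℂ} (hA : IsPreconnected A) : IsPreconnected {z : ℂ | -z ∈ A} := by
  rw [a2_image]
  exact hA.image _ continuous_neg.continuousOn

/-- Let `Q` be compact, `Q ⊆ K c`, and `T` closed preconnected, disjoint from `Q`, `p ∈ T`, `p ∈ J c`. There is a closed connected unbounded set `Y ⊇ T` disjoint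
from `Q`. PROOF. There is `r > 0` with `ball p r` disjoint from `Q`. Let `u ∉ K c`, `‖u - p‖ < r` (`k2_mem`), `O` of `bo1_ray`, `Y = T ∪ segment ℝ p u ∪ O`
(`IsPreconnected.union`; the segment is compact, convex and in the ball). -/
theorem a2_far (h : IsRiemannMap c φ) {Q T : Set ℂ} (hQ : IsCompact Q) (hQK : Q ⊆ K c) (hT : IsClosed T)
    (hTc : IsPreconnected T) (hd : Disjoint Q T) {p : ℂ} (hp : p ∈ T) (hpJ : p ∈ J c) :
    ∃ Y : Set ℂ, IsClosed Y ∧ IsPreconnected Y ∧ T ⊆ Y ∧ Disjoint Q Y ∧ ∀ R : ℝ, ∃ z ∈ Y, R < ‖z‖ := by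
  have hpQ : p ∉ Q := fun h1 => disjoint_left.1 hd h1 hp
  obtain ⟨r, hr, hrQ⟩ := Metric.isOpen_iff.1 hQ.isClosed.isOpen_compl p hpQ
  obtain ⟨u, hu, hup⟩ := (k2_mem.1 hpJ).2 r hr
  obtain ⟨O, hO, hOc, huO, hOK, hOu⟩ := bo1_ray h hu
  have hseg : segment ℝ p u ⊆ ball p r :=
    (convex_ball p r).segment_subset (mem_ball_self hr) (by rw [mem_ball, dist_eq_norm]; exact hup)
  have hsc : IsCompact (segment ℝ p u) := by
    rw [segment_eq_image_lineMap]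
    exact isCompact_Icc.image AffineMap.lineMap_continuous
  refine ⟨T ∪ segment ℝ p u ∪ O, (hT.union hsc.isClosed).union hO, ?_, ?_, ?_, ?_⟩
  · exact ((hTc.union p hp (left_mem_segment ℝ p u) (convex_segment p u).isPreconnected)).union u
      (Or.inr (right_mem_segment ℝ p u)) huO hOc
  · exact fun z hz => Or.inl (Or.inl hz)
  · rw [disjoint_left]
    rintro z hz ((h1 | h1) | h1)
    · exact disjoint_left.1 hd hz h1
    · exact hrQ (hseg h1) hz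
    · exact hOK z h1 (hQK hz)
  · intro R
    obtain ⟨z, hz, hz'⟩ := hOu R
    exact ⟨z, Or.inr hz, hz'⟩

/-- The first lift. PROOF. Let `Q = {z | -z ∈ H}` (compact, `Q ⊆ K c` by `k1_neg`), `T = {c}`, `p = c` in `a2_far` (`a1_negc`, `a1_cJ`): `Y`. `lg2_log` with `k = 0`, `G = id`,
`a' = c` and `lg1_sqrt` with `x = 0 ∈ Q`, `y = -ζ` (`f c (-ζ) = 0`): `s` continuous on `Q`, `f c (s z) = z` on `Q`, `s 0 = -ζ`. -/
theorem a2_s (h : IsRiemannMap c φ) (hH : Hyp c H ζ) :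
    ∃ s : ℂ → ℂ, ContinuousOn s {z | -z ∈ H} ∧ (∀ z : ℂ, -z ∈ H → f c (s z) = z) ∧ s 0 = -ζ := by
  have hQ := a2_negc hH.cpt
  have h0 : (0 : ℂ) ∈ {z | -z ∈ H} := by
    show -(0 : ℂ) ∈ H
    rw [neg_zero]
    exact a1_zero hH
  obtain ⟨Y, hY, hYc, hTY, hd, hYu⟩ := a2_far h (Q := {z | -z ∈ H}) (T := {c}) (p := c) hQ
    (fun z hz => k1_neg.1 (a1_K hH hz)) isClosed_singleton isPreconnected_singleton
    (by
      rw [disjoint_singleton_right]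
      exact a1_negc hH) (mem_singleton c) (a1_cJ hH)
  have h1 : HasLog {z | -z ∈ H} (fun z => (fun x : ℂ => x) z - c) :=
    lg2_log (c := c) (k := 0) (G := fun x => x) hQ hY hYc hYu hd continuousOn_id (fun z _ => rfl)
      (hTY (mem_singleton c))
  exact lg1_sqrt h1 h0 (by rw [f_neg, hH.fz])

/-- PROOF. `C = s '' {z | -z ∈ H}`, `b₁ = s (-ζ)`. `C ∩ H = ∅`: if `s z ∈ H`, `-z ∈ H`, then `z = f c (s z) ∈ H`, so `z = 0` (`a1_inter`), `s 0 = -ζ ∉ H` (`a1_negzeta`). `C ⊆ K c`: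
`k1_f`, `k1_neg`, `a1_K`. Injectivity: `z = f c (s z)`. -/
theorem a2_C (h : IsRiemannMap c φ) (hH : Hyp c H ζ) :
    ∃ (C : Set ℂ) (b₁ : ℂ), IsCompact C ∧ IsPreconnected C ∧ Disjoint C H ∧ C ⊆ K c ∧ -ζ ∈ C ∧ b₁ ∈ C ∧
      f c b₁ = -ζ ∧ (∀ x ∈ C, -f c x ∈ H) ∧ InjOn (f c) C := by
  obtain ⟨s, hs, hfs, hs0⟩ := a2_s h hH
  have hQ := a2_negc hH.cpt
  have hQc := a2_negp hH.conn
  have h0 : (0 : ℂ) ∈ {z | -z ∈ H} := by
    show -(0 : ℂ) ∈ H
    rw [neg_zero]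
    exact a1_zero hH
  have hz : -ζ ∈ {z | -z ∈ H} := by
    show -(-ζ) ∈ H
    rw [neg_neg]
    exact hH.zH
  refine ⟨s '' {z | -z ∈ H}, s (-ζ), hQ.image_of_continuousOn hs, hQc.image s hs, ?_, ?_,
    ⟨0, h0, hs0⟩, ⟨-ζ, hz, rfl⟩, hfs _ hz, ?_, ?_⟩
  · rw [disjoint_left]
    rintro _ ⟨z, hz, rfl⟩ h1
    have h2 : z ∈ H := by
      have h3 := hH.maps h1
      rw [hfs z hz] at h3
      exact h3
    have h3 := a1_inter hH h2 hz
    rw [h3, hs0] at h1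
    exact a1_negzeta hH h1
  · rintro _ ⟨z, hz, rfl⟩
    rw [← k1_f, hfs z hz, ← k1_neg]
    exact a1_K hH hz
  · rintro _ ⟨z, hz, rfl⟩
    rw [hfs z hz]
    exact hz
  · rintro _ ⟨z, hz, rfl⟩ _ ⟨z', hz', rfl⟩ h1
    rw [hfs z hz, hfs z' hz'] at h1
    rw [h1]

end H66S
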