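import Pool.Agent.Lib.H66S.C2

/-!
# H66S, C3 (M): landing
-/

set_option autoImplicit false

namespace H66S

open Set Filter Topology Metric

/-- PROOF. Let `x k = G k a`, `β = 1 - z₁`. By `h2` and `Lift.step` (`f c (G (k+1) a) = G k a`): `f c (x (k+1)) = x k`, and
`‖x (k+1) - x k‖ = ‖G k b - G k a‖ → 0` (`c2_osc` for `Q = {a, b}`). `f c x - x = (x - z₁) (x - β)` (`z₁ ^ 2 + c = z₁`), so
`(x k - z₁) (x k - β) → 0`. There is `δ > 0` with `ball z₁ δ ⊆ K c`. `e` of `h.out`: `G k e ∉ K c` (`c1_K`), so `δ ≤ ‖G k e - z₁‖`, and `G k e - x k → 0` (`c2_osc`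
for `{a, e}`), so `δ / 2 ≤ ‖x k - z₁‖` for large `k`, so `‖x k - β‖ ≤ (2 / δ) ‖(x k - z₁) (x k - β)‖ → 0`. Finally `c2_osc` for `insert a Q`. -/
theorem c3_land {c : ℂ} {S : Set ℂ} {G : ℕ → ℂ → ℂ} (h : Lift c S G) {z₁ : ℂ} (h1 : f c z₁ = z₁)
    (hz : z₁ ∈ interior (K c)) {a b : ℂ} (ha : a ∈ S) (hb : b ∈ S) (h2 : ∀ k, G (k + 1) a = G k b)
    {Q : Set ℂ} (hQ : IsCompact Q) (hQS : Q ⊆ S) {ε : ℝ} (hε : 0 < ε) :
    ∀ᶠ k in atTop, ∀ z ∈ Q, ‖G k z - (1 - z₁)‖ < ε := by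
  obtain ⟨e, heS, heK⟩ := h.out
  obtain ⟨δ, hδ, hδK⟩ := Metric.mem_nhds_iff.1 (mem_interior_iff_mem_nhds.1 hz)
  set Q' : Set ℂ := insert a (insert b (insert e Q)) with hQ'
  have hQc : IsCompact Q' := ((hQ.insert e).insert b).insert a
  have hQS' : Q' ⊆ S := by
    rintro x (rfl | rfl | rfl | hx)
    · exact ha
    · exact hb
    · exact heS
    · exact hQS hx
  have haQ : a ∈ Q' := mem_insert _ _
  have hbQ : b ∈ Q' := mem_insert_of_mem _ (mem_insert _ _)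
  have heQ : e ∈ Q' := mem_insert_of_mem _ (mem_insert_of_mem _ (mem_insert _ _))
  have hQQ : ∀ z ∈ Q, z ∈ Q' := fun z hz' => mem_insert_of_mem _ (mem_insert_of_mem _ (mem_insert_of_mem _ hz'))
  set η : ℝ := min (δ / 2) (min (ε / 4) (ε * δ / 8)) with hη
  have hη0 : 0 < η := lt_min (by positivity) (lt_min (by positivity) (by positivity))
  have hη1 : η ≤ δ / 2 := min_le_left _ _
  have hη2 : η ≤ ε / 4 := (min_le_right _ _).trans (min_le_left _ _)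
  have hη3 : η ≤ ε * δ / 8 := (min_le_right _ _).trans (min_le_right _ _)
  obtain ⟨N, hN⟩ := eventually_atTop.1 (c2_osc h hQc hQS' hη0)
  rw [eventually_atTop]
  refine ⟨N + 1, fun k hk z hzQ => ?_⟩
  obtain ⟨j, rfl⟩ : ∃ j, k = j + 1 := ⟨k - 1, by omega⟩
  have hk1 := hN (j + 1) (by omega)
  have hj1 := hN j (by omega) a haQ b hbQ
  set x : ℂ := G (j + 1) a with hx
  have h3 : ‖G (j + 1) e - x‖ < η := hk1 e heQ a haQ
  have h4 : δ ≤ ‖G (j + 1) e - z₁‖ := by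
    by_contra hcon
    rw [not_le] at hcon
    have h5 : G (j + 1) e ∈ K c := hδK (by rw [mem_ball, dist_eq_norm]; exact hcon)
    exact heK ((c1_K h _ heS).1 h5)
  have h5 : δ / 2 ≤ ‖x - z₁‖ := by
    have h6 : ‖G (j + 1) e - z₁‖ ≤ ‖G (j + 1) e - x‖ + ‖x - z₁‖ := norm_sub_le_norm_sub_add_norm_sub _ _ _
    linarith
  have h6 : (x - z₁) * (x - (1 - z₁)) = G j a - G j b := by
    have e1 : f c x = G j a := h.step j a ha
    have e2 : x = G j b := h2 j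
    have e3 : z₁ ^ 2 + c = z₁ := h1
    have e4 : x ^ 2 + c = G j a := e1
    rw [← e2, ← e4]
    linear_combination -e3
  have h7 : ‖x - z₁‖ * ‖x - (1 - z₁)‖ < η := by
    rw [← norm_mul, h6]
    exact hj1
  have h8 : ‖x - (1 - z₁)‖ ≤ ε / 4 := by
    by_contra hcon
    rw [not_le] at hcon
    have h9 : δ / 2 * (ε / 4) ≤ ‖x - z₁‖ * ‖x - (1 - z₁)‖ :=
      mul_le_mul h5 hcon.le (by positivity) (norm_nonneg _)
    have h10 : δ / 2 * (ε / 4) = ε * δ / 8 := by ring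
    linarith
  have h9 : ‖G (j + 1) z - x‖ < η := hk1 z (hQQ z hzQ) a haQ
  have h10 : ‖G (j + 1) z - (1 - z₁)‖ ≤ ‖G (j + 1) z - x‖ + ‖x - (1 - z₁)‖ :=
    norm_sub_le_norm_sub_add_norm_sub _ _ _
  linarith

end H66S
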