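import Pool.Agent.Lib.H66S.A2
import Pool.Agent.Lib.H66S.C3

/-!
# H66S, A3 (M): the chain of the lifts of `-H`
-/

set_option autoImplicit false

namespace H66S

open Set Filter Topology Metric

variable {c : ℂ} {H : Set ℂ} {ζ : ℂ} {φ : ℂ → ℂ}

/-- PROOF. The thickening is a union of balls centered at points of `C`: `IsPreconnected` (`isPreconnected_of_forall_pair` or `IsPreconnected.biUnion_of_...`;
any two points are joined through `C ∪ ball x r ∪ ball x' r`). -/
theorem a3_thick {C : Set ℂ} (hC : IsPreconnected C) {r : ℝ} (hr : 0 < r) :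
    IsPreconnected (thickening r C) := by
  rw [thickening_eq_biUnion_ball]
  refine isPreconnected_of_forall_pair fun x hx y hy => ?_
  obtain ⟨a, ha, hxa⟩ := mem_iUnion₂.1 hx
  obtain ⟨b, hb, hyb⟩ := mem_iUnion₂.1 hy
  refine ⟨ball a r ∪ C ∪ ball b r, ?_, Or.inl (Or.inl hxa), Or.inr hyb, ?_⟩
  · rintro z ((h1 | h1) | h1)
    · exact mem_iUnion₂.2 ⟨a, ha, h1⟩
    · exact mem_iUnion₂.2 ⟨z, h1, mem_ball_self hr⟩
    · exact mem_iUnion₂.2 ⟨b, hb, h1⟩
  · exact (((convex_ball a r).isPreconnected).union a (mem_ball_self hr) ha hC).union b (Or.inr hb)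
      (mem_ball_self hr) (convex_ball b r).isPreconnected

/-- PROOF. Let `Y` be the set of `a2_far` for `Q = C`, `T = H`, `p = 0`. There is `r > 0` with `cthickening r C` disjoint from `Y` (`Disjoint.exists_cthickenings` or
`IsCompact.exists_cthickening_subset_open`). Let `S = thickening r C`, `Q = cthickening r C` (compact). `lg2_seq` with `a = -ζ`, `b = b₁`: `G`. `Lift c S G`: open, connected (`a3_thick`),
holomorphic (`lg2_holo`), bounded (`G 0 = id`, `Q` is compact), `out`: `-ζ ∈ J c` (`a1_zJ`) is in the open set `S`, so there is `e ∈ S`, `e ∉ K c` (`k2_mem`), `G 0 e = e`. -/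
theorem a3_lift (h : IsRiemannMap c φ) (hH : Hyp c H ζ) {C : Set ℂ} {b₁ : ℂ} (hC : IsCompact C)
    (hCc : IsPreconnected C) (hCH : Disjoint C H) (hCK : C ⊆ K c) (hz : -ζ ∈ C) (hb : b₁ ∈ C)
    (hfb : f c b₁ = -ζ) :
    ∃ (S : Set ℂ) (G : ℕ → ℂ → ℂ), Lift c S G ∧ C ⊆ S ∧ (∀ z, G 0 z = z) ∧ ∀ k, G (k + 1) (-ζ) = G k b₁ := by
  obtain ⟨Y, hY, hYc, hHY, hd, hYu⟩ := a2_far h (Q := C) (T := H) (p := 0) hC hCK hH.cpt.isClosed
    hH.conn hCH (a1_zero hH) hH.J0
  obtain ⟨r, hr, hrY⟩ := hC.exists_cthickening_subset_open hY.isOpen_compl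
    (fun z hz h1 => disjoint_left.1 hd hz h1)
  have hQ : IsCompact (cthickening r C) := hC.cthickening
  have hd' : Disjoint (cthickening r C) Y := disjoint_left.2 fun z hz h1 => hrY hz h1
  have hcY : ∀ k : ℕ, (f c)^[k] c ∈ Y := fun k => hHY (a1_c hH k)
  have hCQ : C ⊆ cthickening r C := self_subset_cthickening C
  have hSQ : thickening r C ⊆ cthickening r C := thickening_subset_cthickening r C
  obtain ⟨G, hG0, hGc, hGf, hGb⟩ := lg2_seq hQ hY hYc hYu hd' hcY (hCQ hz) (hCQ hb) hfb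
  refine ⟨thickening r C, G, ⟨isOpen_thickening, a3_thick hCc hr, ?_, ?_, ?_, ?_⟩,
    self_subset_thickening hr C, hG0, hGb⟩
  · exact fun k => lg2_holo isOpen_thickening hSQ hd' hcY hG0 hGc hGf k
  · exact fun k z hz => hGf k z (hSQ hz)
  · obtain ⟨B, hB⟩ := hQ.isBounded.exists_norm_le
    exact ⟨B, fun z hz => by
      rw [hG0]
      exact hB z (hSQ hz)⟩
  · obtain ⟨δ, hδ, hδS⟩ := Metric.isOpen_iff.1 (isOpen_thickening (δ := r) (E := C)) (-ζ)
      (self_subset_thickening hr C hz)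
    obtain ⟨e, he, hed⟩ := (k2_mem.1 (a1_zJ hH)).2 δ hδ
    refine ⟨e, hδS (by rw [mem_ball, dist_eq_norm]; exact hed), ?_⟩
    rw [hG0]
    exact he

end H66S
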