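import Pool.Agent.Lib.H66S.A3

/-!
# H66S, A4 (M): the cut `L`
-/

set_option autoImplicit false

namespace H66S

open Set Filter Topology Metric

variable {c : ℂ} {H : Set ℂ} {ζ : ℂ} {φ : ℂ → ℂ}

/-- A chain of compact connected sets converging to a point. PROOF. `M = insert β (⋃ k, C k)`. Compact: a sequence (or: open cover; or: `M` is bounded and closed: let `x_i ∈ M`
converge to `x ≠ β`; then `‖x_i - β‖ ≥ ‖x - β‖ / 2` for large `i`, so `x_i ∈ ⋃ k < N, C k`, which is closed). Connected: `⋃ k, C k` is preconnected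
(`IsPreconnected.iUnion_of_chain`), contained in `M`, and `M` is contained in its closure (`IsPreconnected.subset_closure`). -/
theorem a4_chain {β : ℂ} {C : ℕ → Set ℂ} (h1 : ∀ k, IsCompact (C k)) (h2 : ∀ k, IsPreconnected (C k))
    (h3 : ∀ k, (C k ∩ C (k + 1)).Nonempty)
    (h4 : ∀ ε : ℝ, 0 < ε → ∀ᶠ k in atTop, ∀ z ∈ C k, ‖z - β‖ < ε) :
    IsCompact (insert β (⋃ k, C k)) ∧ IsPreconnected (insert β (⋃ k, C k)) := by
  have hfin : ∀ ε : ℝ, 0 < ε → ∃ N : ℕ, insert β (⋃ k, C k) ⊆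
      closedBall β ε ∪ ⋃ k ∈ {k : ℕ | k < N}, C k := by
    intro ε hε
    obtain ⟨N, hN⟩ := eventually_atTop.1 (h4 ε hε)
    refine ⟨N, ?_⟩
    rintro z (rfl | hz)
    · exact Or.inl (mem_closedBall_self hε.le)
    · obtain ⟨k, hk⟩ := mem_iUnion.1 hz
      rcases lt_or_ge k N with h5 | h5
      · exact Or.inr (mem_iUnion₂.2 ⟨k, h5, hk⟩)
      · refine Or.inl ?_
        rw [mem_closedBall, dist_eq_norm]
        exact (hN k h5 z hk).le
  have hcomp : ∀ (ε : ℝ) (N : ℕ), IsCompact (closedBall β ε ∪ ⋃ k ∈ {k : ℕ | k < N}, C k) :=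
    fun ε N => (isCompact_closedBall β ε).union ((Set.finite_lt_nat N).isCompact_biUnion
      fun k _ => h1 k)
  have hclosed : IsClosed (insert β (⋃ k, C k)) := by
    refine isClosed_of_closure_subset fun x hx => ?_
    by_contra hcon
    have hxβ : x ≠ β := fun h5 => hcon (Or.inl h5)
    have hpos : 0 < ‖x - β‖ := norm_pos_iff.2 (sub_ne_zero.2 hxβ)
    obtain ⟨N, hN⟩ := hfin (‖x - β‖ / 2) (by positivity)
    rcases closure_minimal hN (hcomp _ N).isClosed hx with h5 | h5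
    · rw [mem_closedBall, dist_eq_norm] at h5
      linarith
    · obtain ⟨k, -, hk⟩ := mem_iUnion₂.1 h5
      exact hcon (Or.inr (mem_iUnion.2 ⟨k, hk⟩))
  obtain ⟨N, hN⟩ := hfin 1 one_pos
  refine ⟨(hcomp 1 N).of_isClosed_subset hclosed hN, ?_⟩
  refine (IsPreconnected.iUnion_of_chain h2 (fun k => h3 k)).subset_closure
    (subset_insert _ _) ?_
  rintro z (rfl | hz)
  · rw [Metric.mem_closure_iff]
    intro ε hε
    obtain ⟨k, hk⟩ := (h4 ε hε).exists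
    obtain ⟨w, hw, -⟩ := h3 k
    refine ⟨w, mem_iUnion.2 ⟨k, hw⟩, ?_⟩
    rw [dist_comm, dist_eq_norm]
    exact hk w hw
  · exact subset_closure hz

/-- The cut. `M = insert (1 - z₁) (⋃ k, G k '' C)`, `L = H ∪ -H ∪ M ∪ -M` (`-A = {z | -z ∈ A}`).
PROOF. `C`, `b₁` of `a2_C`, `S`, `G` of `a3_lift`. `c3_land` with `a = -ζ`, `b = b₁`, `Q = C`: `a4_chain` applies to `C k = G k '' C` (`G k b₁ = G (k+1) (-ζ)` is in both); `M` is compact and connected.
`M ⊆ K c`: `c1_K`, `G 0 = id`, `C ⊆ K c`; `1 - z₁` is a fixed point of `f c`. `L` is compact, connected (`0 ∈ H ∩ -H`, `-ζ ∈ -H ∩ M` (`-ζ = G 0 (-ζ)`), `ζ ∈ H ∩ -M`), in `K c`, contains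
`1 - z₁` and `-(1 - z₁)`.
The point `e`: `e ^ 2 = -b₁ - c`, so `f c e = -b₁`. `e ∈ J c`: `f c (-b₁) = f c b₁ = -ζ ∈ J c` (`a1_zJ`), `k2_pre` twice. `e ∉ L`. Put `β = 1 - z₁`.
`e ∈ ± H`: `f c e = -b₁ ∈ H`, `f c (-b₁) = -ζ ∈ H`, contradiction (`a1_negzeta`).
`e = ± β`: `-b₁ = f c β = β`, so `-ζ = f c (-b₁) = β`, `0 = f c (-ζ) = β`, `c = f c 0 - 0 = f c β = β = 0`: contradiction (`a1_cne`).
`e ∈ ± G 0 '' C = ± C`: `-f c e = b₁ ∈ H`, `-ζ = f c b₁ ∈ H`, contradiction.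
`e ∈ ± G (k+1) '' C`: `-b₁ = f c e = G k x`, `x ∈ C`. `k = 0`: `-b₁ = x ∈ C`, `b₁ ∈ C`, `f c` is injective on `C`: `b₁ = -b₁`, `b₁ = 0`, `-ζ = f c 0 = c ∈ H`: contradiction. `k = 1`: `x = G 0 x = f c (G 1 x) = f c (-b₁) = -ζ`, so
`-b₁ = G 1 (-ζ) = G 0 b₁ = b₁`, contradiction as before. `k = j + 2`: `0 = f c (f c (-b₁)) = G j x`, `(f c)^[j] (G j x) = x` (`c1_iter`), so `x = (f c)^[j] 0 ∈ H` (`a1_iter`, `a1_zero`), contradiction with `C ∩ H = ∅`. -/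
theorem a4_cut (h : IsRiemannMap c φ) (hH : Hyp c H ζ) {z₁ : ℂ} (h1 : f c z₁ = z₁)
    (hz : z₁ ∈ interior (K c)) :
    ∃ (L : Set ℂ) (e : ℂ), IsCompact L ∧ IsPreconnected L ∧ L ⊆ K c ∧ 1 - z₁ ∈ L ∧ -(1 - z₁) ∈ L ∧
      e ∈ J c ∧ e ∉ L := by
  obtain ⟨C, b₁, hC, hCc, hCH, hCK, hzC, hb, hfb, hCf, hCi⟩ := a2_C h hH
  obtain ⟨S, G, hL, hCS, hG0, hGb⟩ := a3_lift h hH hC hCc hCH hCK hzC hb hfb
  have hcont : ∀ k, ContinuousOn (G k) C := fun k => (hL.diff k).continuousOn.mono hCS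
  obtain ⟨hM, hMc⟩ := a4_chain (β := 1 - z₁) (C := fun k => G k '' C)
    (fun k => hC.image_of_continuousOn (hcont k)) (fun k => hCc.image _ (hcont k))
    (fun k => ⟨G k b₁, ⟨b₁, hb, rfl⟩, ⟨-ζ, hzC, hGb k⟩⟩)
    (fun ε hε => by
      filter_upwards [c3_land hL h1 hz (hCS hzC) (hCS hb) hGb hC hCS hε] with k hk
      rintro _ ⟨x, hx, rfl⟩
      exact hk x hx)
  set β : ℂ := 1 - z₁ with hβ
  set M : Set ℂ := insert β (⋃ k, G k '' C) with hMd
  have hfβ : f c β = β := by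
    unfold f at h1 ⊢
    rw [hβ]
    linear_combination h1
  have hMK : M ⊆ K c := by
    rintro x (rfl | hx)
    · refine ⟨‖β‖, fun n => ?_⟩
      rw [Function.iterate_fixed hfβ]
    · obtain ⟨k, z, hzc, rfl⟩ := mem_iUnion.1 hx
      rw [c1_K hL k (hCS hzc), hG0]
      exact hCK hzc
  have hζM : -ζ ∈ M := Or.inr (mem_iUnion.2 ⟨0, -ζ, hzC, hG0 _⟩)
  have h0N : (0 : ℂ) ∈ {z : ℂ | -z ∈ H} := by
    show -(0 : ℂ) ∈ H
    rw [neg_zero]
    exact a1_zero hH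
  have hζN : -ζ ∈ {z : ℂ | -z ∈ H} := by
    show -(-ζ) ∈ H
    rw [neg_neg]
    exact hH.zH
  obtain ⟨e, he⟩ := IsAlgClosed.exists_pow_nat_eq (-b₁ - c) (by norm_num : 0 < 2)
  have hfe : f c e = -b₁ := by
    unfold f
    rw [he]
    ring
  have hc0 : f c 0 = c := by
    unfold f
    ring
  have hbJ : b₁ ∈ J c := k2_pre (by
    rw [hfb]
    exact a1_zJ hH)
  have hbH : b₁ ∉ H := fun h5 => by
    have h6 := hH.maps h5
    rw [hfb] at h6
    exact a1_negzeta hH h6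
  have hbH' : -b₁ ∉ H := fun h5 => by
    have h6 := hH.maps h5
    rw [f_neg, hfb] at h6
    exact a1_negzeta hH h6
  have hb0 : b₁ ≠ 0 := fun h5 => by
    rw [h5, hc0] at hfb
    exact a1_negzeta hH (hfb ▸ a1_c hH 0)
  have hbb : -b₁ ≠ b₁ := fun h5 => hb0 (by linear_combination -h5 / 2)
  have hnot : ∀ x : ℂ, f c x = -b₁ → x ∉ M := by
    rintro x hx (rfl | hxM)
    · have h5 : β = -b₁ := by rw [← hx, hfβ]
      have h6 : β = -ζ := by
        rw [← hfb, ← f_neg, ← h5, hfβ]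
      have h7 : β = 0 := by
        rw [← hfβ, h6, f_neg, hH.fz]
      rw [h7, hc0] at hfβ
      exact a1_cne hH hfβ
    · obtain ⟨k, y, hy, rfl⟩ := mem_iUnion.1 hxM
      rcases k with _ | k
      · rw [hG0] at hx
        have h5 := hCf y hy
        rw [hx, neg_neg] at h5
        exact hbH h5
      rw [hL.step k y (hCS hy)] at hx
      rcases k with _ | k
      · rw [hG0] at hx
        rw [hx] at hy
        exact hbb (hCi hy hb (f_neg c b₁))
      have h5 := hL.step k y (hCS hy)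
      rw [hx, f_neg, hfb] at h5
      rcases k with _ | k
      · rw [hG0] at h5
        rw [← h5, hGb 0, hG0] at hx
        exact hbb hx.symm
      have h6 := hL.step k y (hCS hy)
      rw [← h5, f_neg, hH.fz] at h6
      have h7 := c1_iter hL k (hCS hy)
      rw [← h6, hG0] at h7
      exact disjoint_left.1 hCH hy (h7 ▸ a1_iter hH (a1_zero hH) k)
  refine ⟨H ∪ {z : ℂ | -z ∈ H} ∪ M ∪ {z : ℂ | -z ∈ M}, e, ?_, ?_, ?_, ?_, ?_, ?_, ?_⟩
  · exact ((hH.cpt.union (a2_negc hH.cpt)).union hM).union (a2_negc hM)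
  · refine (((hH.conn.union 0 (a1_zero hH) h0N (a2_negp hH.conn)).union (-ζ) (Or.inr hζN) hζM
      hMc).union ζ (Or.inl (Or.inl hH.zH)) hζM (a2_negp hMc))
  · rintro x (((h5 | h5) | h5) | h5)
    · exact a1_K hH h5
    · exact k1_neg.1 (a1_K hH h5)
    · exact hMK h5
    · exact k1_neg.1 (hMK h5)
  · exact Or.inl (Or.inr (Or.inl rfl))
  · refine Or.inr ?_
    show - -β ∈ M
    rw [neg_neg]
    exact Or.inl rfl
  · refine k2_pre ?_
    rw [hfe]
    exact k2_neg hbJ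
  · rintro (((h5 | h5) | h5) | h5)
    · have h6 := hH.maps h5
      rw [hfe] at h6
      exact hbH' h6
    · have h6 := hH.maps h5
      rw [f_neg, hfe] at h6
      exact hbH' h6
    · exact hnot e hfe h5
    · exact hnot (-e) (by rw [f_neg, hfe]) h5

end H66S
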