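import Pool.Agent.Lib.H66S.BO1

/-!
# H66S, BO2 (M): the leading coefficient of a Riemann map

Removable singularity at infinity, in the coordinate `ζ = 1 / w`.
-/

set_option autoImplicit false

namespace H66S

open Set Filter Topology Metric

variable {c : ℂ} {φ : ℂ → ℂ}

/-- A removable singularity lemma. If `g` is differentiable on a punctured disc, `g → 0` at `0`, then `g` extended by `0` is
differentiable on the disc. PROOF. `Complex.differentiableOn_compl_singleton_and_continuousAt_iff` (RemovableSingularity.lean). -/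
theorem bo2_rem {g : ℂ → ℂ} {r : ℝ} (hr : 0 < r) (hg : ∀ z : ℂ, z ≠ 0 → ‖z‖ < r → DifferentiableAt ℂ g z)
    {a : ℂ} (h0 : Tendsto g (𝓝[≠] 0) (𝓝 a)) : DifferentiableOn ℂ (Function.update g 0 a) (ball 0 r) := by
  refine (Complex.differentiableOn_compl_singleton_and_continuousAt_iff
    (ball_mem_nhds (0 : ℂ) hr)).1 ⟨fun z hz => ?_, ?_⟩
  · have hz0 : z ≠ 0 := hz.2
    have hzr : ‖z‖ < r := by simpa using hz.1
    have h1 := hg z hz0 hzr
    have h2 : Function.update g 0 a =ᶠ[𝓝 z] g := by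
      filter_upwards [isOpen_ne.mem_nhds hz0] with x hx
      exact Function.update_of_ne hx _ _
    exact (h1.congr_of_eventuallyEq h2).differentiableWithinAt
  · rw [continuousAt_update_same]
    exact h0

/-- Let `Φ`, `Ψ` be differentiable at `0`, `Φ 0 = Ψ 0 = 0`, `Ψ (Φ z) = z` near `0`. Then `Φ z / z` tends to a nonzero limit.
PROOF. Chain rule: `Ψ'(0) Φ'(0) = 1`; `hasDerivAt_iff_tendsto_slope`. -/
theorem bo2_deriv {Φ Ψ : ℂ → ℂ} (h1 : DifferentiableAt ℂ Φ 0) (h2 : DifferentiableAt ℂ Ψ 0) (e1 : Φ 0 = 0)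
    (e2 : Ψ 0 = 0) (h : ∀ᶠ z in 𝓝[≠] (0 : ℂ), Ψ (Φ z) = z) :
    ∃ a : ℂ, a ≠ 0 ∧ Tendsto (fun z => Φ z / z) (𝓝[≠] 0) (𝓝 a) := by
  have h3 : HasDerivAt Ψ (deriv Ψ 0) (Φ 0) := by
    rw [e1]
    exact h2.hasDerivAt
  have h4 := h3.comp 0 h1.hasDerivAt
  have h5 : HasDerivAt (Ψ ∘ Φ) 1 0 := by
    refine (hasDerivAt_id (0 : ℂ)).congr_of_eventuallyEq ?_
    rw [eventually_nhdsWithin_iff] at h
    filter_upwards [h] with z hz
    by_cases hz0 : z = 0
    · rw [hz0]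
      simp [e1, e2]
    · exact hz hz0
  have h6 := h4.unique h5
  refine ⟨deriv Φ 0, fun h7 => ?_, ?_⟩
  · rw [h7, mul_zero] at h6
    exact zero_ne_one h6
  · have h8 := hasDerivAt_iff_tendsto_slope.1 h1.hasDerivAt
    refine h8.congr' (Eventually.of_forall fun z => ?_)
    rw [slope_def_field, e1, sub_zero, sub_zero]

theorem bo2 (h : IsRiemannMap c φ) (h0 : (0 : ℂ) ∈ K c) :
    ∃ b : ℂ, b ≠ 0 ∧ Tendsto (fun w => φ w / w) (Bornology.cobounded ℂ) (𝓝 b) := by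
  obtain ⟨ψ, hd, hψ, hφψ⟩ := bo1_psi h
  have hinv : ∀ z : ℂ, z ≠ 0 → ‖z‖ < 1 → 1 < ‖z⁻¹‖ := fun z hz hz1 => by
    rw [norm_inv]
    exact (one_lt_inv₀ (norm_pos_iff.2 hz)).2 hz1
  have hne : ∀ w : ℂ, 1 < ‖w‖ → φ w ≠ 0 := fun w hw he => bo1_out h hw (by rw [he]; exact h0)
  have hesc := k1_esc_two c
  -- the map `Φ`
  have hΦ0 : Tendsto (fun z : ℂ => (φ z⁻¹)⁻¹) (𝓝[≠] 0) (𝓝 0) :=
    tendsto_inv₀_cobounded.comp (h.infty.comp tendsto_inv₀_nhdsNE_zero)
  have hΦ : DifferentiableOn ℂ (Function.update (fun z : ℂ => (φ z⁻¹)⁻¹) 0 0) (ball 0 1) := by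
    refine bo2_rem one_pos (fun z hz hz1 => ?_) hΦ0
    have h1 := hinv z hz hz1
    have h2 : DifferentiableAt ℂ φ z⁻¹ := h.holo.differentiableAt (bo1_openExt.mem_nhds h1)
    exact (h2.comp z (differentiableAt_inv hz)).inv (hne _ h1)
  -- the map `Ψ`
  have hout : ∀ u : ℂ, u ≠ 0 → ‖u‖ < (esc c)⁻¹ → u⁻¹ ∉ K c := fun u hu hu1 hk => by
    have h1 := k1_norm hk
    rw [norm_inv] at h1
    have h2 := norm_pos_iff.2 hu
    rw [lt_inv_comm₀ h2 (by linarith)] at hu1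
    linarith
  have hΨt : Tendsto ψ (Bornology.cobounded ℂ) (Bornology.cobounded ℂ) := by
    rw [← tendsto_norm_atTop_iff_cobounded]
    rw [Filter.tendsto_atTop]
    intro b
    obtain ⟨R, hR⟩ := bo1_a h (ρ := max b 2) (lt_of_lt_of_le (by norm_num) (le_max_right _ _))
    have h1 : ∀ᶠ z : ℂ in Bornology.cobounded ℂ, max R (esc c) < ‖z‖ :=
      tendsto_norm_cobounded_atTop.eventually (eventually_gt_atTop _)
    filter_upwards [h1] with z hz
    have hz1 := (le_max_left _ _).trans_lt hz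
    have hz2 := (le_max_right _ _).trans_lt hz
    have hzK : z ∉ K c := fun hk => by
      have := k1_norm hk
      linarith
    obtain ⟨h2, h3⟩ := hφψ z hzK
    have h4 := hR (ψ z) h2 (by rw [h3]; exact hz1)
    exact (le_max_left b 2).trans h4.le
  have hΨ0 : Tendsto (fun z : ℂ => (ψ z⁻¹)⁻¹) (𝓝[≠] 0) (𝓝 0) :=
    tendsto_inv₀_cobounded.comp (hΨt.comp tendsto_inv₀_nhdsNE_zero)
  have hΨ : DifferentiableOn ℂ (Function.update (fun z : ℂ => (ψ z⁻¹)⁻¹) 0 0)
      (ball 0 (esc c)⁻¹) := by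
    refine bo2_rem (by positivity) (fun z hz hz1 => ?_) hΨ0
    have h1 := hout z hz hz1
    have h2 : DifferentiableAt ℂ ψ z⁻¹ :=
      hd.differentiableAt ((k1_closed c).isOpen_compl.mem_nhds h1)
    refine (h2.comp z (differentiableAt_inv hz)).inv (fun he => ?_)
    have h3 := (hφψ _ h1).1
    have he' : ψ z⁻¹ = 0 := he
    rw [he', norm_zero] at h3
    linarith
  obtain ⟨a, ha, hta⟩ := bo2_deriv
    (hΦ.differentiableAt (ball_mem_nhds _ one_pos))
    (hΨ.differentiableAt (ball_mem_nhds _ (by positivity)))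
    (Function.update_self _ _ _) (Function.update_self _ _ _) (by
      have h1 : ∀ᶠ z : ℂ in 𝓝[≠] 0, z ∈ ball (0 : ℂ) 1 ∧ z ≠ 0 :=
        Filter.inter_mem (mem_nhdsWithin_of_mem_nhds (ball_mem_nhds _ one_pos)) self_mem_nhdsWithin
      filter_upwards [h1] with z hz
      have hz1 : ‖z‖ < 1 := by simpa using hz.1
      have h2 := hinv z hz.2 hz1
      have h3 := hne _ h2
      rw [Function.update_of_ne hz.2, Function.update_of_ne (inv_ne_zero h3), inv_inv,
        hψ _ h2, inv_inv])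
  refine ⟨a⁻¹, inv_ne_zero ha, ?_⟩
  have h1 : Tendsto (fun w : ℂ => Function.update (fun z : ℂ => (φ z⁻¹)⁻¹) 0 0 w⁻¹ / w⁻¹)
      (Bornology.cobounded ℂ) (𝓝 a) := hta.comp tendsto_inv₀_cobounded'
  have h2 := h1.inv₀ ha
  refine h2.congr' ?_
  have h3 : ∀ᶠ w : ℂ in Bornology.cobounded ℂ, 1 < ‖w‖ :=
    tendsto_norm_cobounded_atTop.eventually (eventually_gt_atTop _)
  filter_upwards [h3] with w hw
  have hw0 : w ≠ 0 := by
    rintro rfl
    rw [norm_zero] at hw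
    linarith
  rw [Function.update_of_ne (inv_ne_zero hw0), inv_inv]
  have := hne w hw
  field_simp

end H66S
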