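import Pool.Agent.Lib.H66S.BO2

/-!
# H66S, BO3 (M): a Riemann map conjugates `f c` to `w ↦ b w ^ 2`
-/

set_option autoImplicit false

namespace H66S

open Set Filter Topology Metric

variable {c : ℂ} {φ : ℂ → ℂ}

theorem bo3_B (h : IsRiemannMap c φ) : ∃ B : ℂ → ℂ, DifferentiableOn ℂ B {w | 1 < ‖w‖} ∧
    ∀ w : ℂ, 1 < ‖w‖ → 1 < ‖B w‖ ∧ φ (B w) = f c (φ w) := by
  obtain ⟨ψ, hd, hψ, hφψ⟩ := bo1_psi h
  have h1 : ∀ w : ℂ, 1 < ‖w‖ → f c (φ w) ∉ K c := fun w hw hk => bo1_out h hw (k1_f.1 hk)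
  refine ⟨fun w => ψ (f c (φ w)), ?_, fun w hw => hφψ _ (h1 w hw)⟩
  refine hd.comp ((f_diff c).comp_differentiableOn h.holo) (fun w hw => h1 w hw)

theorem bo3_max {g : ℂ → ℂ} (hg : DifferentiableOn ℂ g (ball 0 1))
    (h : ∀ ε : ℝ, 0 < ε → ∃ r : ℝ, r < 1 ∧ ∀ z : ℂ, r < ‖z‖ → ‖z‖ < 1 → ‖g z‖ ≤ 1 + ε) :
    ∀ z : ℂ, ‖z‖ < 1 → ‖g z‖ ≤ 1 := by
  intro z hz
  refine le_of_forall_pos_le_add (fun ε hε => ?_)
  obtain ⟨r, hr, h1⟩ := h ε hε
  obtain ⟨s, hs1, hs2⟩ := exists_between (max_lt hr hz)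
  have hs3 := (le_max_left _ _).trans_lt hs1
  have hs4 := (le_max_right _ _).trans_lt hs1
  have hs0 : 0 < s := (norm_nonneg z).trans_lt hs4
  have hsub : closedBall (0 : ℂ) s ⊆ ball 0 1 := closedBall_subset_ball hs2
  have hd : DiffContOnCl ℂ g (ball 0 s) := by
    refine DifferentiableOn.diffContOnCl ?_
    rw [closure_ball _ hs0.ne']
    exact hg.mono hsub
  refine Complex.norm_le_of_forall_mem_frontier_norm_le isBounded_ball hd (fun w hw => ?_)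
    (subset_closure (by rwa [mem_ball_zero_iff]))
  rw [frontier_ball _ hs0.ne', mem_sphere_zero_iff_norm] at hw
  exact h1 w (by rw [hw]; exact hs3) (by rw [hw]; exact hs2)

theorem bo3_const {g : ℂ → ℂ} (hg : DifferentiableOn ℂ g (ball 0 1)) (h0 : ∀ z : ℂ, ‖z‖ < 1 → g z ≠ 0)
    (h : ∀ ε : ℝ, 0 < ε → ∃ r : ℝ, r < 1 ∧ ∀ z : ℂ, r < ‖z‖ → ‖z‖ < 1 → ‖g z‖ ≤ 1 + ε ∧ 1 - ε ≤ ‖g z‖) :
    ‖g 0‖ = 1 ∧ ∀ z : ℂ, ‖z‖ < 1 → g z = g 0 := by
  have h1 : ∀ z : ℂ, ‖z‖ < 1 → ‖g z‖ ≤ 1 := bo3_max hg fun ε hε => by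
    obtain ⟨r, hr, h2⟩ := h ε hε
    exact ⟨r, hr, fun z hz hz' => (h2 z hz hz').1⟩
  have hgi : DifferentiableOn ℂ (fun z => (g z)⁻¹) (ball 0 1) :=
    hg.fun_inv fun z hz => h0 z (by simpa using hz)
  have h2 : ∀ z : ℂ, ‖z‖ < 1 → ‖(g z)⁻¹‖ ≤ 1 := bo3_max hgi fun ε hε => by
    obtain ⟨r, hr, h2⟩ := h (ε / (1 + ε)) (by positivity)
    refine ⟨r, hr, fun z hz hz' => ?_⟩
    have h3 := (h2 z hz hz').2
    have h4 : 1 - ε / (1 + ε) = (1 + ε)⁻¹ := by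
      field_simp
      ring
    rw [h4] at h3
    rw [norm_inv]
    exact inv_le_of_inv_le₀ (by positivity) h3
  have h3 : ∀ z : ℂ, ‖z‖ < 1 → ‖g z‖ = 1 := by
    intro z hz
    refine le_antisymm (h1 z hz) ?_
    have h4 := h2 z hz
    rw [norm_inv] at h4
    exact (inv_le_one₀ (norm_pos_iff.2 (h0 z hz))).1 h4
  refine ⟨h3 0 (by simp), fun z hz => ?_⟩
  have h4 := Complex.eqOn_of_isPreconnected_of_isMaxOn_norm (convex_ball (0 : ℂ) 1).isPreconnected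
    isOpen_ball hg (mem_ball_self one_pos) (fun x hx => by
      have hx' : ‖x‖ < 1 := by simpa using hx
      change ‖g x‖ ≤ ‖g 0‖
      rw [h3 x hx', h3 0 (by simp)])
  exact h4 (by simpa using hz)

theorem bo3 (h : IsRiemannMap c φ) (h0 : (0 : ℂ) ∈ K c) {b : ℂ} (hb : b ≠ 0)
    (hl : Tendsto (fun w => φ w / w) (Bornology.cobounded ℂ) (𝓝 b)) :
    ‖b‖ = 1 ∧ ∀ w : ℂ, 1 < ‖w‖ → φ (b * w ^ 2) = f c (φ w) := by
  obtain ⟨B, hBd, hB⟩ := bo3_B h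
  have hne : ∀ w : ℂ, 1 < ‖w‖ → φ w ≠ 0 := fun w hw he => bo1_out h hw (by rw [he]; exact h0)
  have hne0 : ∀ w : ℂ, 1 < ‖w‖ → w ≠ 0 := fun w hw he => by
    rw [he, norm_zero] at hw
    linarith
  have hlarge : ∀ r : ℝ, ∀ᶠ w : ℂ in Bornology.cobounded ℂ, r < ‖w‖ := fun r =>
    tendsto_norm_cobounded_atTop.eventually (eventually_gt_atTop _)
  have hBt : Tendsto B (Bornology.cobounded ℂ) (Bornology.cobounded ℂ) := by
    rw [← tendsto_norm_atTop_iff_cobounded, Filter.tendsto_atTop]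
    intro r
    obtain ⟨R, hR⟩ := bo1_a h (ρ := max r 2) (lt_of_lt_of_le (by norm_num) (le_max_right _ _))
    have h1 : ∀ᶠ w : ℂ in Bornology.cobounded ℂ, max R (esc c) < ‖φ w‖ :=
      h.infty.eventually (hlarge _)
    filter_upwards [h1, hlarge 1] with w hw hw1
    have hw2 := (le_max_left _ _).trans_lt hw
    have hw3 := (le_max_right _ _).trans_lt hw
    obtain ⟨h2, h3⟩ := hB w hw1
    have h4 := k1_grow hw3.le
    have h5 := hR (B w) h2 (by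
      rw [h3]
      linarith [norm_nonneg (φ w)])
    exact (le_max_left r 2).trans h5.le
  have h1 : Tendsto (fun w => φ (B w) / B w) (Bornology.cobounded ℂ) (𝓝 b) := hl.comp hBt
  have h2 : Tendsto (fun w : ℂ => c * (w⁻¹) ^ 2) (Bornology.cobounded ℂ) (𝓝 0) := by
    have h3 := (tendsto_inv₀_cobounded (α := ℂ)).pow 2 |>.const_mul c
    simpa using h3
  have h3 : Tendsto (fun w : ℂ => B w / w ^ 2) (Bornology.cobounded ℂ) (𝓝 b) := by
    have h4 := ((hl.pow 2).add h2).div h1 hb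
    have h5 : (b ^ 2 + 0) / b = b := by
      field_simp
      ring
    rw [h5] at h4
    refine h4.congr' ?_
    filter_upwards [hlarge 1] with w hw
    obtain ⟨h6, h7⟩ := hB w hw
    have h8 := hne0 w hw
    have h9 := hne0 _ h6
    have h10 := hne _ h6
    have h11 : (φ w / w) ^ 2 + c * (w⁻¹) ^ 2 = φ (B w) / w ^ 2 := by
      rw [h7, f]
      field_simp
    change ((φ w / w) ^ 2 + c * (w⁻¹) ^ 2) / (φ (B w) / B w) = B w / w ^ 2
    rw [h11]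
    field_simp
  obtain ⟨g, hg⟩ : ∃ g : ℂ → ℂ, g = Function.update (fun z : ℂ => B z⁻¹ * z ^ 2) 0 b := ⟨_, rfl⟩
  have hinv : ∀ z : ℂ, z ≠ 0 → ‖z‖ < 1 → 1 < ‖z⁻¹‖ := fun z hz hz1 => by
    rw [norm_inv]
    exact (one_lt_inv₀ (norm_pos_iff.2 hz)).2 hz1
  have hg1 : ∀ z : ℂ, z ≠ 0 → g z = B z⁻¹ * z ^ 2 := fun z hz => by
    rw [hg, Function.update_of_ne hz]
  have hgd : DifferentiableOn ℂ g (ball 0 1) := by
    rw [hg]
    refine bo2_rem one_pos (fun z hz hz1 => ?_) ?_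
    · have h4 := hinv z hz hz1
      have h5 : DifferentiableAt ℂ B z⁻¹ := hBd.differentiableAt (bo1_openExt.mem_nhds h4)
      exact (h5.comp z (differentiableAt_inv hz)).mul (differentiableAt_pow 2)
    · have h4 := h3.comp (tendsto_inv₀_nhdsNE_zero (α := ℂ))
      refine h4.congr' ?_
      filter_upwards [self_mem_nhdsWithin] with z hz
      have hz0 : z ≠ 0 := hz
      change B z⁻¹ / (z⁻¹) ^ 2 = B z⁻¹ * z ^ 2
      field_simp
  have hg0 : g 0 = b := by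
    rw [hg, Function.update_self]
  have hgn : ∀ z : ℂ, ‖z‖ < 1 → g z ≠ 0 := by
    intro z hz
    by_cases hz0 : z = 0
    · rw [hz0, hg0]
      exact hb
    · rw [hg1 z hz0]
      exact mul_ne_zero (hne0 _ (hB _ (hinv z hz0 hz)).1) (pow_ne_zero 2 hz0)
  obtain ⟨h4, h5⟩ := bo3_const hgd hgn (fun ε hε => by
    obtain ⟨O, hO, hKO, h6⟩ := bo1_d h (ρ := 1 + ε) (by linarith)
    obtain ⟨δ, hδ, h7⟩ := bo1_c h (hO.preimage (f_cont c)) (fun z hz => hKO (k1_f.2 hz))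
    refine ⟨max (1 + δ)⁻¹ (max (1 - ε / 2) 0), ?_, fun z hz hz1 => ?_⟩
    · refine max_lt (inv_lt_one_of_one_lt₀ (by linarith)) (max_lt (by linarith) one_pos)
    · have hz2 := (le_max_left _ _).trans_lt hz
      have hz3 := (le_max_right _ _).trans_lt hz
      have hz4 := (le_max_left _ _).trans_lt hz3
      have hz5 := (le_max_right _ _).trans_lt hz3
      have hz0 : z ≠ 0 := norm_pos_iff.1 hz5
      have h8 := hinv z hz0 hz1
      obtain ⟨h9, h10⟩ := hB _ h8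
      have h11 : ‖B z⁻¹‖ < 1 + ε := by
        refine h6 _ h9 ?_
        rw [h10]
        refine h7 _ h8 ?_
        rw [norm_inv]
        exact inv_lt_of_inv_lt₀ (by linarith) hz2
      rw [hg1 z hz0, norm_mul, norm_pow]
      constructor
      · have h12 : ‖z‖ ^ 2 ≤ 1 := pow_le_one₀ (norm_nonneg z) hz1.le
        nlinarith [norm_nonneg (B z⁻¹)]
      · have h12 : 1 - ε ≤ ‖z‖ ^ 2 := by nlinarith
        have h13 : 0 ≤ ‖z‖ ^ 2 := by positivity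
        nlinarith)
  rw [hg0] at h4 h5
  refine ⟨h4, fun w hw => ?_⟩
  have hw0 := hne0 w hw
  have h6 := h5 w⁻¹ (by
    rw [norm_inv]
    exact inv_lt_one_of_one_lt₀ hw)
  rw [hg1 _ (inv_ne_zero hw0), inv_inv] at h6
  have h7 : b * w ^ 2 = B w := by
    rw [← h6]
    field_simp
  rw [h7]
  exact (hB w hw).2

end H66S
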