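import Pool.Agent.Lib.H66S.BO3

/-!
# H66S, BO4 (S/M): normalisation, and elementary properties of the normalised Riemann map
-/

set_option autoImplicit false

namespace H66S

open Set Filter Topology Metric

variable {c : ℂ} {φ : ℂ → ℂ}

theorem bo4_exists (h : IsRiemannMap c φ) (h0 : (0 : ℂ) ∈ K c) :
    ∃ (b : ℂ) (φ' : ℂ → ℂ), ‖b‖ = 1 ∧ Bot c φ' ∧ ∀ t : ℂ, P φ t = P φ' (b * t) := by
  obtain ⟨b, hb, hl⟩ := bo2 h h0
  obtain ⟨hb1, hsq⟩ := bo3 h h0 hb hl
  obtain ⟨ψ, hd, hψ⟩ := h.inv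
  have hn : ∀ w : ℂ, ‖w / b‖ = ‖w‖ := fun w => by rw [norm_div, hb1, div_one]
  have hdb : Differentiable ℂ fun w : ℂ => w / b := differentiable_id.div_const b
  have hcob : Tendsto (fun w : ℂ => w / b) (Bornology.cobounded ℂ) (Bornology.cobounded ℂ) := by
    rw [← tendsto_norm_atTop_iff_cobounded]
    simp only [hn]
    exact tendsto_norm_cobounded_atTop
  refine ⟨b, fun w => φ (w / b), hb1, ⟨⟨?_, ⟨fun z => b * ψ z, ?_, ?_⟩, ?_, ?_⟩, ?_, ?_⟩, ?_⟩
  · refine h.holo.comp hdb.differentiableOn (fun w hw => ?_)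
    change 1 < ‖w / b‖
    rw [hn]
    exact hw
  · exact hd.const_mul b
  · intro w hw
    change b * ψ (φ (w / b)) = w
    rw [hψ _ (by rw [hn]; exact hw)]
    field_simp
  · rw [← h.img]
    ext z
    constructor
    · rintro ⟨w, hw, rfl⟩
      exact ⟨w / b, by
        change 1 < ‖w / b‖
        rw [hn]
        exact hw, rfl⟩
    · rintro ⟨w, hw, rfl⟩
      refine ⟨b * w, ?_, ?_⟩
      · change 1 < ‖b * w‖
        rw [norm_mul, hb1, one_mul]
        exact hw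
      · simp only
        congr 1
        field_simp
  · exact h.infty.comp hcob
  · intro w hw
    rw [← hsq _ (by rw [hn]; exact hw)]
    congr 1
    field_simp
  · have h1 := (hl.comp hcob).const_mul b⁻¹
    rw [inv_mul_cancel₀ hb] at h1
    refine h1.congr' (Eventually.of_forall fun w => ?_)
    change b⁻¹ * (φ (w / b) / (w / b)) = φ (w / b) / w
    by_cases hw : w = 0
    · rw [hw]
      simp
    · field_simp
  · intro t
    unfold P
    have h1 : (fun r : ℝ => φ ((r : ℂ) * (b * t) / b)) = fun r : ℝ => φ (r * t) := by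
      funext r
      congr 1
      field_simp
    rw [h1]

/-- PROOF. `f c (φ (-w)) = φ (w ^ 2) = f c (φ w)`, so `φ (-w) = φ w` (impossible: injective, `w ≠ 0`) or `φ (-w) = - φ w`. -/
theorem bo4_neg (h : Bot c φ) {w : ℂ} (hw : 1 < ‖w‖) : φ (-w) = -φ w := by
  have hw' : 1 < ‖-w‖ := by rwa [norm_neg]
  have h1 : f c (φ (-w)) = f c (φ w) := by
    rw [← h.sq w hw, ← h.sq (-w) hw', neg_sq]
  rcases f_eq_iff.1 h1 with h2 | h2
  · have h3 := bo1_inj h.toIsRiemannMap hw' hw h2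
    have h4 : w = 0 := by
      have h5 : 2 * w = 0 := by linear_combination -h3
      simpa using h5
    rw [h4, norm_zero] at hw
    linarith
  · exact h2

/-- PROOF. `bo4_neg`; `y ↦ -y` is a homeomorphism that exchanges `Up φ` and `Lo φ`. -/
theorem bo4_up (h : Bot c φ) {y : ℂ} (hy : y ∈ closure (Up φ)) : -y ∈ closure (Lo φ) := by
  refine map_mem_closure continuous_neg hy ?_
  rintro _ ⟨w, ⟨hw, hi⟩, rfl⟩
  exact ⟨-w, ⟨by rwa [norm_neg], by simpa using hi⟩, bo4_neg h hw⟩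

theorem bo4_lo (h : Bot c φ) {y : ℂ} (hy : y ∈ closure (Lo φ)) : -y ∈ closure (Up φ) := by
  refine map_mem_closure continuous_neg hy ?_
  rintro _ ⟨w, ⟨hw, hi⟩, rfl⟩
  exact ⟨-w, ⟨by rwa [norm_neg], by simpa using hi⟩, bo4_neg h hw⟩

theorem bo4_Rl (h : Bot c φ) : Rl φ ⊆ closure (Up φ) := by
  rintro _ ⟨w, ⟨hw, hi⟩, rfl⟩
  have h1 : Tendsto (fun s : ℝ => φ (w + (s : ℂ) * Complex.I)) (𝓝[>] 0) (𝓝 (φ w)) := by
    have h2 : Tendsto (fun s : ℝ => w + (s : ℂ) * Complex.I) (𝓝[>] 0) (𝓝 w) := by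
      have h3 : Continuous fun s : ℝ => w + (s : ℂ) * Complex.I := by fun_prop
      have h4 := h3.tendsto 0
      simp only [Complex.ofReal_zero, zero_mul, add_zero] at h4
      exact h4.mono_left nhdsWithin_le_nhds
    exact (bo1_cont h.toIsRiemannMap hw).tendsto.comp h2
  refine mem_closure_of_tendsto h1 ?_
  filter_upwards [self_mem_nhdsWithin] with s hs
  have hs' : (0 : ℝ) < s := hs
  refine ⟨_, ⟨?_, ?_⟩, rfl⟩
  · refine hw.trans_le ?_
    rw [Complex.norm_def, Complex.norm_def]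
    refine Real.sqrt_le_sqrt ?_
    rw [Complex.normSq_apply, Complex.normSq_apply]
    simp [hi]
    positivity
  · simp [hi, hs']

/-- PROOF. `z ∈ J c` is a limit of points `φ w`; each `φ w` is in `Up φ ∪ Lo φ ∪ Rl φ` and `Rl φ ⊆ closure (Up φ)`
(`φ w = lim φ (w + i s)`, `s → 0+`, `bo1_cont`). -/
theorem bo4_cover (h : Bot c φ) {z : ℂ} (hz : z ∈ J c) : z ∈ closure (Up φ) ∨ z ∈ closure (Lo φ) := by
  have h1 : (K c)ᶜ ⊆ closure (Up φ) ∪ closure (Lo φ) := by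
    rw [← h.img]
    rintro _ ⟨w, hw, rfl⟩
    rcases lt_trichotomy w.im 0 with hi | hi | hi
    · exact Or.inr (subset_closure ⟨w, ⟨hw, hi⟩, rfl⟩)
    · exact Or.inl (bo4_Rl h ⟨w, ⟨hw, hi⟩, rfl⟩)
    · exact Or.inl (subset_closure ⟨w, ⟨hw, hi⟩, rfl⟩)
  unfold J at hz
  rw [frontier_eq_closure_inter_closure] at hz
  have h2 : IsClosed (closure (Up φ) ∪ closure (Lo φ)) := isClosed_closure.union isClosed_closure
  exact closure_minimal h1 h2 hz.2

theorem bo4_P_mem {t z : ℂ} (hz : z ∈ P φ t) {S : Set ℂ} (hS : ∀ r : ℝ, 1 < r → φ (r * t) ∈ S) :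
    z ∈ closure S := by
  have hz' : MapClusterPt z (𝓝[>] (1 : ℝ)) fun r : ℝ => φ (r * t) := hz
  rw [mapClusterPt_iff_frequently] at hz'
  rw [mem_closure_iff_nhds]
  intro U hU
  obtain ⟨r, hr1, hr2⟩ := ((hz' U hU).and_eventually
    (self_mem_nhdsWithin : ∀ᶠ r : ℝ in 𝓝[>] 1, r ∈ Ioi (1 : ℝ))).exists
  exact ⟨φ (r * t), hr1, hS r hr2⟩

theorem bo4_norm {t : ℂ} (ht : ‖t‖ = 1) {r : ℝ} (hr : 1 < r) : 1 < ‖(r : ℂ) * t‖ := by
  rw [norm_mul, Complex.norm_real, Real.norm_eq_abs, abs_of_pos (by linarith), ht, mul_one]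
  exact hr

/-- PROOF. For `0 < t.im` and `r > 1` the point `φ (r t)` is in `Up φ`; a cluster point is in the closure. -/
theorem bo4_P_up {t : ℂ} (ht : ‖t‖ = 1) (hi : 0 < t.im) : P φ t ⊆ closure (Up φ) := by
  intro z hz
  refine bo4_P_mem hz (fun r hr => ⟨_, ⟨bo4_norm ht hr, ?_⟩, rfl⟩)
  rw [Complex.im_ofReal_mul]
  have : 0 < r := by linarith
  positivity

theorem bo4_P_lo {t : ℂ} (ht : ‖t‖ = 1) (hi : t.im < 0) : P φ t ⊆ closure (Lo φ) := by
  intro z hz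
  refine bo4_P_mem hz (fun r hr => ⟨_, ⟨bo4_norm ht hr, ?_⟩, rfl⟩)
  rw [Complex.im_ofReal_mul]
  have : 0 < r := by linarith
  nlinarith

/-- PROOF. A cluster point of a convergent map is its limit. -/
theorem bo4_P_lim {t β : ℂ} (h : Tendsto (fun r : ℝ => φ (r * t)) (𝓝[>] 1) (𝓝 β)) : P φ t = {β} := by
  ext z
  rw [mem_singleton_iff]
  constructor
  · intro hz
    have hz' : MapClusterPt z (𝓝[>] (1 : ℝ)) fun r : ℝ => φ (r * t) := hz
    have h1 : ClusterPt z (𝓝 β) := ClusterPt.mono hz' h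
    exact eq_of_nhds_neBot h1
  · rintro rfl
    exact h.mapClusterPt

end H66S
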