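import Pool.Agent.Lib.H66S.BO1

/-!
# H66S, BO5 (S): the principal continuum is in the Julia set
-/

set_option autoImplicit false

namespace H66S

open Set Filter Topology Metric

/-- PROOF. Let `z` be a cluster point of `φ (r t)`, `r → 1+`. It is in `closure (K c)ᶜ`. If `z ∉ K c`, `z = φ w` (`bo1_surj`); `bo1_inv` at `w` with `ε = (‖w‖ - 1) / 2`: for `r` arbitrarily close
to `1`, `‖r t - w‖ < ε`, so `‖w‖ < r + ε`: contradiction if `r < 1 + ε`. So `z ∈ K c`, `k2_lim`. -/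
theorem bo5 {c : ℂ} {φ : ℂ → ℂ} (h : IsRiemannMap c φ) {t : ℂ} (ht : ‖t‖ = 1) : P φ t ⊆ J c := by
  intro z hz
  have hz' : MapClusterPt z (𝓝[>] (1 : ℝ)) fun r : ℝ => φ (r * t) := hz
  have hn : ∀ r : ℝ, 1 < r → ‖(r : ℂ) * t‖ = r := fun r hr => by
    rw [norm_mul, Complex.norm_real, Real.norm_eq_abs, abs_of_pos (by linarith), ht, mul_one]
  rw [mapClusterPt_iff_frequently] at hz'
  refine k2_lim ?_ ?_
  · by_contra hk
    obtain ⟨w, hw, rfl⟩ := bo1_surj h hk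
    obtain ⟨δ, hδ, h1⟩ := bo1_inv h hw (ε := (‖w‖ - 1) / 2) (by linarith)
    have h2 := (hz' (ball (φ w) δ) (ball_mem_nhds _ hδ)).and_eventually
      (Filter.inter_mem self_mem_nhdsWithin (mem_nhdsWithin_of_mem_nhds
        (Iio_mem_nhds (show (1 : ℝ) < 1 + (‖w‖ - 1) / 2 by linarith))) :
        ∀ᶠ r : ℝ in 𝓝[>] 1, r ∈ Ioi (1 : ℝ) ∧ r ∈ Iio (1 + (‖w‖ - 1) / 2))
    obtain ⟨r, hr1, hr2, hr3⟩ := h2.exists
    have hr2' : 1 < r := hr2
    have hr3' : r < 1 + (‖w‖ - 1) / 2 := hr3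
    rw [mem_ball, dist_eq_norm] at hr1
    have h3 := h1 _ (by rw [hn r hr2']; exact hr2') hr1
    have h4 := norm_sub_norm_le w ((r : ℂ) * t)
    rw [norm_sub_rev, hn r hr2'] at h4
    linarith
  · rw [mem_closure_iff_nhds]
    intro U hU
    obtain ⟨r, hr1, hr2⟩ := ((hz' U hU).and_eventually
      (self_mem_nhdsWithin : ∀ᶠ r : ℝ in 𝓝[>] 1, r ∈ Ioi (1 : ℝ))).exists
    have hr2' : 1 < r := hr2
    exact ⟨φ (r * t), hr1, bo1_out h (by rw [hn r hr2']; exact hr2')⟩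

end H66S
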