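import Pool.Agent.Lib.H66S.K2

/-!
# H66S, C1 (M): lifts under the iterates: boundedness, derivative

A lift family on the open set `S`: holomorphic `G k : S → ℂ` with `f c (G (k+1) z) = G k z`.
-/

set_option autoImplicit false

namespace H66S

open Set Filter Topology Metric

/-- a lift family -/
structure Lift (c : ℂ) (S : Set ℂ) (G : ℕ → ℂ → ℂ) : Prop where
  op : IsOpen S
  conn : IsPreconnected S
  diff : ∀ k, DifferentiableOn ℂ (G k) S
  step : ∀ k, ∀ z ∈ S, f c (G (k + 1) z) = G k z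
  bdd : ∃ B : ℝ, ∀ z ∈ S, ‖G 0 z‖ ≤ B
  out : ∃ e ∈ S, G 0 e ∉ K c

variable {c : ℂ} {S : Set ℂ} {G : ℕ → ℂ → ℂ}

/-- PROOF. Induction on `k` (`Function.iterate_succ_apply`). -/
theorem c1_iter (h : Lift c S G) (k : ℕ) {z : ℂ} (hz : z ∈ S) : (f c)^[k] (G k z) = G 0 z := by
  induction k with
  | zero => rfl
  | succ k ih =>
    rw [Function.iterate_succ_apply, h.step k z hz]
    exact ih

/-- PROOF. `k1_bound`. -/
theorem c1_bdd (h : Lift c S G) : ∃ M : ℝ, 0 < M ∧ ∀ k, ∀ z ∈ S, ‖G k z‖ ≤ M := by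
  obtain ⟨B, hB⟩ := h.bdd
  refine ⟨max (esc c) B, lt_of_lt_of_le ?_ (le_max_left _ _), fun k z hz => ?_⟩
  · unfold esc
    have := norm_nonneg c
    linarith
  · refine k1_bound (n := k) ?_
    rw [c1_iter h k hz]
    exact hB z hz

/-- PROOF. `k1_fn`. -/
theorem c1_K (h : Lift c S G) (k : ℕ) {z : ℂ} (hz : z ∈ S) : G k z ∈ K c ↔ G 0 z ∈ K c := by
  rw [← k1_fn (c := c) (z := G k z) k, c1_iter h k hz]

/-- A quantitative open mapping theorem. PROOF. Let `‖g‖ ≤ M` on `ball e r`, `δ ≤ ‖g' e‖`. For `‖z - e‖ ≤ r / 2`: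
`‖g z - g e - g'(e) (z - e)‖ ≤ C ‖z - e‖ ^ 2` with `C` depending on `M`, `r` only (for example: the function `dslope g e` is bounded by `4 M / r` on
`ball e (r / 2)` (maximum principle: it is `≤ 2 M / (r / 2)` on the circle of radius `r / 2` and `C` comes from the same estimate once more for
`dslope (dslope g e) e`; or use the Schwarz lemma `Complex.dist_le_div_mul_dist_of_mapsTo_ball` for `dslope g e`; or
the Taylor estimates in `Mathlib/Analysis/Complex/TaylorSeries`, `Complex.norm_deriv_le_of_forall_mem_sphere_norm_le` for `g'' `). Take `s = min (r / 4) (δ / (2 C))`: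
on the circle `‖z - e‖ = s`, `‖g z - g e‖ ≥ δ s - C s ^ 2 ≥ δ s / 2`. `DiffContOnCl.ball_subset_image_closedBall`: `ball (g e) (δ s / 4) ⊆ g '' closedBall e s`. -/
theorem c1_open {r M δ : ℝ} (hr : 0 < r) (hM : 0 < M) (hδ : 0 < δ) : ∃ ρ : ℝ, 0 < ρ ∧
    ∀ (g : ℂ → ℂ) (e : ℂ), DifferentiableOn ℂ g (ball e r) → (∀ z ∈ ball e r, ‖g z‖ ≤ M) →
      δ ≤ ‖deriv g e‖ → ball (g e) ρ ⊆ g '' ball e r := by
  have hC : 0 < 5 * M / r ^ 2 := by positivity
  set C : ℝ := 5 * M / r ^ 2 with hCd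
  set s : ℝ := min (r / 2) (δ / (2 * C)) with hs
  have hs0 : 0 < s := lt_min (by positivity) (by positivity)
  have hsr : s < r := lt_of_le_of_lt (min_le_left _ _) (by linarith)
  have hsδ : C * s ≤ δ / 2 := by
    have h1 : s ≤ δ / (2 * C) := min_le_right _ _
    calc C * s ≤ C * (δ / (2 * C)) := mul_le_mul_of_nonneg_left h1 hC.le
      _ = δ / 2 := by field_simp
  refine ⟨δ * s / 2 / 2, by positivity, fun g e hg hgM hgδ => ?_⟩
  have heb : e ∈ ball e r := mem_ball_self hr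
  have hge : HasDerivAt g (deriv g e) e := (hg.differentiableAt (isOpen_ball.mem_nhds heb)).hasDerivAt
  have hder : ‖deriv g e‖ ≤ M / (r / 2) := by
    refine Complex.norm_deriv_le_of_forall_mem_sphere_norm_le (by positivity) ?_ ?_
    · exact (hg.mono (closedBall_subset_ball (by linarith))).diffContOnCl_ball subset_rfl
    · intro z hz
      refine hgM z (closedBall_subset_ball (by linarith) (sphere_subset_closedBall hz))
  have hder2 : ‖deriv g e‖ * r ≤ 2 * M := by
    calc ‖deriv g e‖ * r ≤ M / (r / 2) * r := mul_le_mul_of_nonneg_right hder hr.le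
      _ = 2 * M := by field_simp
  set F : ℂ → ℂ := fun z => g z - deriv g e * (z - e) with hF
  have hFe : F e = g e := by
    rw [hF]
    simp
  have hFd : DifferentiableOn ℂ F (ball e r) :=
    hg.sub ((differentiable_id.sub_const e).const_mul _).differentiableOn
  have hFm : MapsTo F (ball e r) (closedBall (F e) (5 * M)) := by
    intro z hz
    rw [mem_closedBall, dist_eq_norm, hFe]
    have h1 : F z - g e = g z - g e - deriv g e * (z - e) := by
      rw [hF]
      ring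
    rw [h1]
    have h2 : ‖z - e‖ ≤ r := by
      rw [← dist_eq_norm]
      exact (mem_ball.1 hz).le
    have h3 : ‖deriv g e * (z - e)‖ ≤ 2 * M := by
      rw [norm_mul]
      exact (mul_le_mul_of_nonneg_left h2 (norm_nonneg _)).trans hder2
    have h4 : ‖g z - g e‖ ≤ M + M := (norm_sub_le _ _).trans (add_le_add (hgM z hz) (hgM e heb))
    have h5 := norm_sub_le (g z - g e) (deriv g e * (z - e))
    linarith
  have hFo : (fun w => F w - F e) =o[𝓝 e] fun w => ‖w - e‖ ^ 1 := by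
    have h1 : HasDerivAt F 0 e := by
      have h2 := hge.sub (((hasDerivAt_id e).sub_const e).const_mul (deriv g e))
      rw [mul_one, sub_self] at h2
      exact h2
    have h3 := hasDerivAt_iff_isLittleO.1 h1
    simp only [smul_zero, sub_zero] at h3
    simp only [pow_one]
    exact h3.norm_right
  have key : ∀ z ∈ sphere e s, δ * s / 2 ≤ ‖g z - g e‖ := by
    intro z hz
    have hzn : ‖z - e‖ = s := by rw [← dist_eq_norm]; exact hz
    have hzb : z ∈ ball e r := by
      rw [mem_ball, dist_eq_norm, hzn]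
      exact hsr
    have h1 := Complex.dist_le_mul_div_pow_of_mapsTo_ball_of_isLittleO hFd hFm hFo hzb
    rw [dist_eq_norm, dist_eq_norm, hzn] at h1
    have h2 : 5 * M * (s / r) ^ (1 + 1) = C * s * s :=
      calc 5 * M * (s / r) ^ (1 + 1) = (5 * M / r ^ 2) * s * s := by ring
        _ = C * s * s := by rw [← hCd]
    rw [h2] at h1
    have h3 : F z - F e = g z - g e - deriv g e * (z - e) := by
      rw [hFe, hF]
      ring
    rw [h3] at h1
    have h4 : δ * s ≤ ‖deriv g e * (z - e)‖ := by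
      rw [norm_mul, hzn]
      exact mul_le_mul_of_nonneg_right hgδ hs0.le
    have h5 : C * s * s ≤ δ / 2 * s := mul_le_mul_of_nonneg_right hsδ hs0.le
    have h6 : ‖deriv g e * (z - e)‖ ≤ ‖g z - g e‖ + ‖g z - g e - deriv g e * (z - e)‖ := by
      have h7 : deriv g e * (z - e) = (g z - g e) - (g z - g e - deriv g e * (z - e)) := by ring
      calc ‖deriv g e * (z - e)‖ = ‖(g z - g e) - (g z - g e - deriv g e * (z - e))‖ := by rw [← h7]
        _ ≤ _ := norm_sub_le _ _
    linarith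
  have hd0 : deriv g e ≠ 0 := by
    intro h0
    rw [h0, norm_zero] at hgδ
    linarith
  have hfreq : ∃ᶠ z in 𝓝 e, g z ≠ g e :=
    ((hge.eventually_ne (c := g e) hd0).frequently).filter_mono nhdsWithin_le_nhds
  have h1 := DiffContOnCl.ball_subset_image_closedBall
    ((hg.mono (closedBall_subset_ball hsr)).diffContOnCl_ball subset_rfl) hs0 key hfreq
  exact h1.trans (image_mono (closedBall_subset_ball hsr))

/-- PROOF. If not, there is `δ > 0` with `δ ≤ ‖deriv (G k) e‖` for infinitely many `k`. Let `ball e r ⊆ S`, `M` of `c1_bdd`, `ρ` of `c1_open`. Along a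
subsequence `k_j` of these `k` (`tendsto_subseq_of_bounded`) `G k e → y`. `G k e ∉ K c` (`c1_K`). `y ∈ K c`: otherwise (`k1_loc` with `B = ‖G 0 e‖`)
`‖G 0 e‖ < ‖f^k (G k e)‖ = ‖G 0 e‖` for large `k` of the subsequence. So `y ∈ J c` (`k2_lim`), there is `u ∉ K c`, `‖u - y‖ < ρ / 2` (`k2_mem`). For large `k = k_j`:
`u ∈ ball (G k e) ρ`, so `u = G k z` with `z ∈ ball e r`, `f^k u = G 0 z` is bounded by `B`. But `‖f^k u‖ → ∞` (`k1_escape`). -/
theorem c1_deriv (h : Lift c S G) {e : ℂ} (he : e ∈ S) (hK : G 0 e ∉ K c) :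
    Tendsto (fun k => deriv (G k) e) atTop (𝓝 0) := by
  by_contra hcon
  rw [Metric.tendsto_atTop] at hcon
  push Not at hcon
  obtain ⟨δ, hδ, hcon⟩ := hcon
  have hfr : ∃ᶠ k in atTop, δ ≤ ‖deriv (G k) e‖ := by
    rw [frequently_atTop]
    intro N
    obtain ⟨n, hn, h1⟩ := hcon N
    rw [dist_zero_right] at h1
    exact ⟨n, hn, h1⟩
  obtain ⟨κ, hκ, hκδ⟩ := extraction_of_frequently_atTop hfr
  obtain ⟨M, hM, hbd⟩ := c1_bdd h
  obtain ⟨r, hr, hrS⟩ := Metric.isOpen_iff.1 h.op e he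
  obtain ⟨ρ, hρ, hop⟩ := c1_open hr hM hδ
  obtain ⟨y, -, σ, hσ, hy⟩ := tendsto_subseq_of_bounded (isBounded_closedBall (x := (0 : ℂ)) (r := M))
    (x := fun n => G (κ n) e) (fun n => by
      rw [mem_closedBall, dist_zero_right]
      exact hbd _ _ he)
  have hτ : Tendsto (fun n => κ (σ n)) atTop atTop := (hκ.comp hσ).tendsto_atTop
  have hy' : Tendsto (fun n => G (κ (σ n)) e) atTop (𝓝 y) := hy
  have hyK : y ∈ K c := by
    by_contra hyK
    obtain ⟨V, hV, hVe⟩ := k1_loc hyK ‖G 0 e‖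
    obtain ⟨n, h1, h2⟩ := ((hy'.eventually_mem hV).and (hτ.eventually hVe)).exists
    have h3 := h2 _ h1
    rw [c1_iter h _ he] at h3
    exact lt_irrefl _ h3
  have hyc : y ∈ closure (K c)ᶜ := by
    refine mem_closure_of_tendsto hy' (Eventually.of_forall fun n => ?_)
    exact fun h1 => hK ((c1_K h _ he).1 h1)
  have hyJ := k2_lim hyK hyc
  obtain ⟨u, huK, hu⟩ := (k2_mem.1 hyJ).2 (ρ / 2) (by positivity)
  obtain ⟨B, hB⟩ := h.bdd
  have h1 : ∀ᶠ n in atTop, B < ‖(f c)^[κ (σ n)] u‖ := hτ.eventually ((k1_escape huK).eventually_gt_atTop B)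
  have h2 : ∀ᶠ n in atTop, G (κ (σ n)) e ∈ ball y (ρ / 2) := hy'.eventually_mem (ball_mem_nhds _ (by positivity))
  obtain ⟨n, h3, h4⟩ := (h1.and h2).exists
  have h5 : u ∈ ball (G (κ (σ n)) e) ρ := by
    rw [mem_ball, dist_eq_norm]
    rw [mem_ball, dist_comm, dist_eq_norm] at h4
    have h6 := norm_sub_le_norm_sub_add_norm_sub u y (G (κ (σ n)) e)
    linarith
  obtain ⟨z, hz, hzu⟩ := hop (G (κ (σ n))) e ((h.diff _).mono hrS) (fun z hz => hbd _ z (hrS hz)) (hκδ _) h5
  rw [← hzu, c1_iter h _ (hrS hz)] at h3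
  exact absurd (hB z (hrS hz)) (not_le.2 h3)

end H66S
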