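import Pool.Agent.Lib.H66S.C1

/-!
# H66S, C2 (M): contraction of lift families

The limits of a lift family along ultrafilters are constant.
-/

set_option autoImplicit false

namespace H66S

open Set Filter Topology Metric

/-- Pointwise convergence of a uniformly bounded family of holomorphic functions is locally uniform.
PROOF. Let `ball z (2 r) ⊆ S`. All `G k` are `M / r`-Lipschitz on `ball z r` (`Complex.norm_deriv_le_of_forall_mem_sphere_norm_le`,
`Convex.norm_image_sub_le_of_norm_deriv_le`), hence so is `g`. Given `ε`, on `ball z s` with `s = min r (ε r / (4 M))`: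
`‖G k x - g x‖ ≤ ‖G k x - G k z‖ + ‖G k z - g z‖ + ‖g z - g x‖ < ε` for `l`-almost all `k`.
(`Metric.tendstoLocallyUniformlyOn_iff`.) -/
theorem c2_locunif {S : Set ℂ} (hS : IsOpen S) {G : ℕ → ℂ → ℂ} {g : ℂ → ℂ} {l : Filter ℕ} [l.NeBot] {M : ℝ}
    (hM : 0 < M) (hd : ∀ k, DifferentiableOn ℂ (G k) S) (hb : ∀ k, ∀ z ∈ S, ‖G k z‖ ≤ M)
    (hg : ∀ z ∈ S, Tendsto (fun k => G k z) l (𝓝 (g z))) : TendstoLocallyUniformlyOn G g l S := by
  rw [Metric.tendstoLocallyUniformlyOn_iff]
  intro ε hε z hz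
  obtain ⟨ρ, hρ, hρS⟩ := Metric.isOpen_iff.1 hS z hz
  have hA : 0 < M / (ρ / 4) := by positivity
  set A : ℝ := M / (ρ / 4) with hAd
  have hlip : ∀ k, ∀ x ∈ ball z (ρ / 2), ‖G k x - G k z‖ ≤ A * ‖x - z‖ := by
    intro k x hx
    refine (convex_ball z (ρ / 2)).norm_image_sub_le_of_norm_deriv_le (𝕜 := ℂ) (f := G k) (C := A)
      (fun y hy => ?_) (fun y hy => ?_) (mem_ball_self (by positivity)) hx
    · exact (hd k).differentiableAt (hS.mem_nhds (hρS (ball_subset_ball (by linarith) hy)))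
    · have hsub : closedBall y (ρ / 4) ⊆ S := by
        intro w hw
        apply hρS
        rw [mem_ball] at hy ⊢
        rw [mem_closedBall] at hw
        have := dist_triangle w y z
        linarith
      refine Complex.norm_deriv_le_of_forall_mem_sphere_norm_le (by positivity) ?_ ?_
      · exact ((hd k).mono hsub).diffContOnCl_ball subset_rfl
      · intro w hw
        exact hb k w (hsub (sphere_subset_closedBall hw))
  have hlipg : ∀ x ∈ ball z (ρ / 2), ‖g x - g z‖ ≤ A * ‖x - z‖ := by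
    intro x hx
    have hxS : x ∈ S := hρS (ball_subset_ball (by linarith) hx)
    have h1 : Tendsto (fun k => ‖G k x - G k z‖) l (𝓝 ‖g x - g z‖) := ((hg x hxS).sub (hg z hz)).norm
    exact le_of_tendsto h1 (Eventually.of_forall fun k => hlip k x hx)
  set s : ℝ := min (ρ / 2) (ε / (4 * A)) with hs
  have hs0 : 0 < s := lt_min (by positivity) (by positivity)
  have hsA : A * s ≤ ε / 4 := by
    calc A * s ≤ A * (ε / (4 * A)) := mul_le_mul_of_nonneg_left (min_le_right _ _) hA.le
      _ = ε / 4 := by field_simp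
  refine ⟨ball z s, mem_nhdsWithin_of_mem_nhds (ball_mem_nhds z hs0), ?_⟩
  have h1 : ∀ᶠ k in l, dist (G k z) (g z) < ε / 4 := (Metric.tendsto_nhds.1 (hg z hz)) _ (by positivity)
  filter_upwards [h1] with k hk x hx
  have hx2 : x ∈ ball z (ρ / 2) := ball_subset_ball (min_le_left _ _) hx
  have hxz : A * ‖x - z‖ ≤ ε / 4 := by
    refine (mul_le_mul_of_nonneg_left ?_ hA.le).trans hsA
    rw [← dist_eq_norm]
    exact (mem_ball.1 hx).le
  have h2 := (hlip k x hx2).trans hxz
  have h3 := (hlipg x hx2).trans hxz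
  have h4 := dist_triangle4 (g x) (g z) (G k z) (G k x)
  have e1 : dist (g x) (g z) = ‖g x - g z‖ := dist_eq_norm _ _
  have e2 : dist (g z) (G k z) = dist (G k z) (g z) := dist_comm _ _
  have e3 : dist (G k z) (G k x) = ‖G k x - G k z‖ := by rw [dist_comm, dist_eq_norm]
  linarith

/-- PROOF. `g z = lim G k z` along `U` exists on `S` (`isCompact_closedBall`, `Ultrafilter` : `IsCompact.ultrafilter_le_nhds'`), the convergence is locally
uniform (`c2_locunif`), `g` is holomorphic on `S` (`TendstoLocallyUniformlyOn.differentiableOn`), and `deriv g z = lim deriv (G k) z`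
(`TendstoLocallyUniformlyOn.deriv`, `.tendsto_at`). The set `{z ∈ S | G 0 z ∉ K c}` is open (`k1_closed`, continuity of `G 0`)
and not empty (`h.out`); `deriv g = 0` on it (`c1_deriv`, limits are unique), so `deriv g = 0` on `S`
(`AnalyticOnNhd.eqOn_zero_of_preconnected_of_eventuallyEq_zero`), so `g` is constant on `S` (`IsOpen.is_const_of_deriv_eq_zero`). -/
theorem c2_const {c : ℂ} {S : Set ℂ} {G : ℕ → ℂ → ℂ} (h : Lift c S G) (U : Ultrafilter ℕ)
    (hU : (U : Filter ℕ) ≤ atTop) : ∃ a : ℂ, TendstoLocallyUniformlyOn G (fun _ => a) U S := by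
  obtain ⟨M, hM, hb⟩ := c1_bdd h
  have hex : ∀ z : ℂ, ∃ a : ℂ, z ∈ S → Tendsto (fun k => G k z) U (𝓝 a) := by
    intro z
    by_cases hz : z ∈ S
    · have h1 : closedBall (0 : ℂ) M ∈ U.map (fun k => G k z) := by
        rw [Ultrafilter.mem_map]
        refine Filter.mem_of_superset univ_mem fun k _ => ?_
        show G k z ∈ closedBall (0 : ℂ) M
        rw [mem_closedBall, dist_zero_right]
        exact hb k z hz
      obtain ⟨a, -, ha⟩ := (isCompact_closedBall (0 : ℂ) M).ultrafilter_le_nhds' _ h1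
      exact ⟨a, fun _ => ha⟩
    · exact ⟨0, fun h1 => absurd h1 hz⟩
  choose g hg using hex
  have hlu : TendstoLocallyUniformlyOn G g U S := c2_locunif h.op hM h.diff hb fun z hz => hg z hz
  have hgd : DifferentiableOn ℂ g S := hlu.differentiableOn (Eventually.of_forall h.diff) h.op
  have hder : TendstoLocallyUniformlyOn (deriv ∘ G) (deriv g) U S :=
    hlu.deriv (Eventually.of_forall h.diff) h.op
  obtain ⟨e, heS, heK⟩ := h.out
  have hG0 : ContinuousOn (G 0) S := (h.diff 0).continuousOn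
  have hopen : ∀ᶠ z in 𝓝 e, z ∈ S ∧ G 0 z ∉ K c := by
    have h1 : ∀ᶠ z in 𝓝 e, z ∈ S := h.op.mem_nhds heS
    have h2 : ∀ᶠ z in 𝓝 e, G 0 z ∈ (K c)ᶜ :=
      (hG0.continuousAt (h.op.mem_nhds heS)).eventually_mem ((k1_closed c).isOpen_compl.mem_nhds heK)
    exact h1.and h2
  have hz0 : deriv g =ᶠ[𝓝 e] 0 := by
    filter_upwards [hopen] with z hz
    have h1 : Tendsto (fun k => deriv (G k) z) U (𝓝 (deriv g z)) := hder.tendsto_at hz.1
    have h2 : Tendsto (fun k => deriv (G k) z) U (𝓝 0) := (c1_deriv h hz.1 hz.2).mono_left hU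
    exact tendsto_nhds_unique h1 h2
  have hzero : EqOn (deriv g) 0 S :=
    (hgd.deriv h.op).analyticOnNhd h.op |>.eqOn_zero_of_preconnected_of_eventuallyEq_zero h.conn heS hz0
  obtain ⟨a, ha⟩ : ∃ a, ∀ z ∈ S, g z = a := by
    refine ⟨g e, fun z hz => ?_⟩
    exact h.op.is_const_of_deriv_eq_zero h.conn hgd hzero hz heS
  exact ⟨a, hlu.congr_right fun z hz => ha z hz⟩

/-- PROOF. `Filter.mem_iff_ultrafilter`: let `U ≤ atTop` be an ultrafilter, `a` of `c2_const`; on the compact set `Q` the convergence is uniform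
(`tendstoLocallyUniformlyOn_iff_forall_isCompact`), so `‖G k z - a‖ < η / 2` on `Q` for `U`-almost all `k`. -/
theorem c2_osc {c : ℂ} {S : Set ℂ} {G : ℕ → ℂ → ℂ} (h : Lift c S G) {Q : Set ℂ} (hQ : IsCompact Q)
    (hQS : Q ⊆ S) {η : ℝ} (hη : 0 < η) :
    ∀ᶠ k in atTop, ∀ z ∈ Q, ∀ z' ∈ Q, ‖G k z - G k z'‖ < η := by
  have hmem : {k | ∀ z ∈ Q, ∀ z' ∈ Q, ‖G k z - G k z'‖ < η} ∈ (atTop : Filter ℕ) := by
    rw [Filter.mem_iff_ultrafilter]
    intro U hU
    obtain ⟨a, ha⟩ := c2_const h U hU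
    have h1 := (tendstoLocallyUniformlyOn_iff_forall_isCompact h.op).1 ha Q hQS hQ
    have h2 := Metric.tendstoUniformlyOn_iff.1 h1 (η / 2) (by positivity)
    have h3 : ∀ᶠ k in (U : Filter ℕ), ∀ z ∈ Q, ∀ z' ∈ Q, ‖G k z - G k z'‖ < η := by
      filter_upwards [h2] with k hk z hz z' hz'
      have h4 := hk z hz
      have h5 := hk z' hz'
      rw [dist_comm] at h4
      have h6 := dist_triangle (G k z) a (G k z')
      rw [← dist_eq_norm]
      linarith
    exact h3
  exact hmem

end H66S
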