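import Mathlib

/-!
# H66S: definitions

`f c z = z ^ 2 + c`, `K c` the filled Julia set, `J c` the Julia set, Riemann maps of the outside of `K c`, principal
continua.  See PROOF.md.
-/

set_option autoImplicit false

namespace H66S

open Set Filter Topology Metric

/-- the quadratic polynomial -/
def f (c z : ℂ) : ℂ := z ^ 2 + c

/-- the filled Julia set: the points with bounded orbit -/
def K (c : ℂ) : Set ℂ := {z | ∃ M : ℝ, ∀ n : ℕ, ‖(f c)^[n] z‖ ≤ M}

/-- the Julia set -/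
def J (c : ℂ) : Set ℂ := frontier (K c)

/-- `φ` is a conformal isomorphism of the outside `{‖w‖ > 1}` of the closed unit disc onto the complement
of `K c`, and `φ(∞) = ∞` -/
structure IsRiemannMap (c : ℂ) (φ : ℂ → ℂ) : Prop where
  holo : DifferentiableOn ℂ φ {w | 1 < ‖w‖}
  inv : ∃ ψ : ℂ → ℂ, DifferentiableOn ℂ ψ (K c)ᶜ ∧ ∀ w : ℂ, 1 < ‖w‖ → ψ (φ w) = w
  img : φ '' {w | 1 < ‖w‖} = (K c)ᶜ
  infty : Tendsto φ (Bornology.cobounded ℂ) (Bornology.cobounded ℂ)

/-- the principal continuum of the prime end `t` (`‖t‖ = 1`): the limit points of `φ` along the radius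
ending at `t` -/
def P (φ : ℂ → ℂ) (t : ℂ) : Set ℂ := {z | MapClusterPt z (𝓝[>] (1 : ℝ)) fun r : ℝ => φ (r * t)}

/-- the upper half of the outside -/
def Up (φ : ℂ → ℂ) : Set ℂ := φ '' {w | 1 < ‖w‖ ∧ 0 < w.im}

/-- the lower half of the outside -/
def Lo (φ : ℂ → ℂ) : Set ℂ := φ '' {w | 1 < ‖w‖ ∧ w.im < 0}

/-- the two real rays -/
def Rl (φ : ℂ → ℂ) : Set ℂ := φ '' {w | 1 < ‖w‖ ∧ w.im = 0}

/-- a normalised Riemann map (the Boettcher map) -/
structure Bot (c : ℂ) (φ : ℂ → ℂ) : Prop extends IsRiemannMap c φ where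
  sq : ∀ w : ℂ, 1 < ‖w‖ → φ (w ^ 2) = f c (φ w)
  lead : Tendsto (fun w => φ w / w) (Bornology.cobounded ℂ) (𝓝 1)

/-- the escape radius -/
noncomputable def esc (c : ℂ) : ℝ := ‖c‖ + 2

theorem f_neg (c z : ℂ) : f c (-z) = f c z := by
  unfold f
  ring

theorem f_eq_iff {c z w : ℂ} : f c z = f c w ↔ z = w ∨ z = -w := by
  unfold f
  rw [add_left_inj, sq_eq_sq_iff_eq_or_eq_neg]

theorem f_cont (c : ℂ) : Continuous (f c) := by
  unfold f
  fun_prop

theorem f_diff (c : ℂ) : Differentiable ℂ (f c) := by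
  unfold f
  fun_prop

/-- the hypotheses on the continuum `H` (see the main theorem), `ζ` a preimage of `0` in it -/
structure Hyp (c : ℂ) (H : Set ℂ) (ζ : ℂ) : Prop where
  J0 : (0 : ℂ) ∈ J c
  cpt : IsCompact H
  conn : IsPreconnected H
  maps : MapsTo (f c) H H
  inj : InjOn (f c) H
  zH : ζ ∈ H
  fz : f c ζ = 0

end H66S
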