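import Pool.Agent.Lib.H66S.BO4

/-!
# H66S, DC1 (M): the part of the Julia set in the closure of the upper half is a continuum
-/

set_option autoImplicit false

namespace H66S

open Set Filter Topology Metric

/-- PROOF. The image of the convex set `{ξ | 0 < ξ.re < log ρ, 0 < ξ.im < π}` under `Complex.exp` (`Complex.log`, `Complex.arg`). -/
theorem dc1_half {ρ : ℝ} (hρ : 1 < ρ) : IsPreconnected {w : ℂ | 1 < ‖w‖ ∧ ‖w‖ < ρ ∧ 0 < w.im} := by
  have hconv : Convex ℝ ({ξ : ℂ | 0 < ξ.re} ∩ {ξ : ℂ | ξ.re < Real.log ρ} ∩ {ξ : ℂ | 0 < ξ.im} ∩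
      {ξ : ℂ | ξ.im < Real.pi}) :=
    (((convex_halfSpace_re_gt 0).inter (convex_halfSpace_re_lt _)).inter (convex_halfSpace_im_gt 0)).inter
      (convex_halfSpace_im_lt _)
  have himg : {w : ℂ | 1 < ‖w‖ ∧ ‖w‖ < ρ ∧ 0 < w.im} = Complex.exp ''
      ({ξ : ℂ | 0 < ξ.re} ∩ {ξ : ℂ | ξ.re < Real.log ρ} ∩ {ξ : ℂ | 0 < ξ.im} ∩
      {ξ : ℂ | ξ.im < Real.pi}) := by
    ext w
    constructor
    · rintro ⟨h1, h2, h3⟩
      have hw0 : w ≠ 0 := by
        rintro rfl
        rw [norm_zero] at h1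
        linarith
      refine ⟨Complex.log w, ⟨⟨⟨?_, ?_⟩, ?_⟩, ?_⟩, Complex.exp_log hw0⟩
      · show 0 < (Complex.log w).re
        rw [Complex.log_re]
        exact Real.log_pos h1
      · show (Complex.log w).re < Real.log ρ
        rw [Complex.log_re]
        exact Real.log_lt_log (by linarith) h2
      · show 0 < (Complex.log w).im
        rw [Complex.log_im]
        refine lt_of_le_of_ne (Complex.arg_nonneg_iff.2 h3.le) fun h => ?_
        have h4 := (Complex.arg_eq_zero_iff.1 h.symm).2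
        linarith
      · show (Complex.log w).im < Real.pi
        rw [Complex.log_im]
        exact Complex.arg_lt_pi_iff.2 (Or.inr h3.ne')
    · rintro ⟨ξ, ⟨⟨⟨h1, h2⟩, h3⟩, h4⟩, rfl⟩
      have h1' : 0 < ξ.re := h1
      have h2' : ξ.re < Real.log ρ := h2
      have h3' : 0 < ξ.im := h3
      have h4' : ξ.im < Real.pi := h4
      refine ⟨?_, ?_, ?_⟩
      · rw [Complex.norm_exp]
        exact Real.one_lt_exp_iff.2 h1'
      · rw [Complex.norm_exp]
        have h5 := Real.exp_lt_exp.2 h2'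
        rwa [Real.exp_log (by linarith)] at h5
      · rw [Complex.exp_im]
        exact mul_pos (Real.exp_pos _) (Real.sin_pos_of_pos_of_lt_pi h3' h4')
  rw [himg]
  exact hconv.isPreconnected.image _ Complex.continuous_exp.continuousOn

/-- A decreasing intersection of compact connected sets is connected. PROOF. If it is covered by two open sets `U`, `V` with no common point in it, whose traces are not empty, ...: let `C = ⋂ C n` be the disjoint union of two
nonempty closed sets `A`, `B`; they are compact, so they have disjoint open neighbourhoods `U ⊇ A`, `V ⊇ B`; `C n ⊆ U ∪ V` for some `n`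
(`IsCompact.nonempty_iInter_of_directed_nonempty_isCompact_isClosed` for the compact sets `C n \ (U ∪ V)`), and `C n` meets both: contradiction. -/
theorem dc1_inter {C : ℕ → Set ℂ} (h1 : ∀ n, IsCompact (C n)) (h2 : ∀ n, IsPreconnected (C n))
    (h3 : ∀ n, C (n + 1) ⊆ C n) : IsPreconnected (⋂ n, C n) := by
  have hcl : IsClosed (⋂ n, C n) := isClosed_iInter fun n => (h1 n).isClosed
  have hanti : Antitone C := antitone_nat_of_succ_le h3
  rw [isPreconnected_iff_subset_of_fully_disjoint_closed hcl]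
  intro u v hu hv huv hd
  by_cases hsv : (⋂ n, C n) ⊆ v
  · exact Or.inr hsv
  left
  obtain ⟨x, hx, hxv⟩ := not_subset.1 hsv
  have hxu : x ∈ u := (huv hx).resolve_right hxv
  obtain ⟨U, V, hU, hV, huU, hvV, hUV⟩ := normal_separation hu hv hd
  obtain ⟨n, hn⟩ := exists_subset_nhds_of_isCompact (V := C) (hanti.directed_ge) h1
    (U := U ∪ V) (fun y hy => (hU.union hV).mem_nhds ((huv hy).imp (fun h => huU h) (fun h => hvV h)))
  have hxn : x ∈ C n := mem_iInter.1 hx n
  have hsub : C n ⊆ U := IsPreconnected.subset_left_of_subset_union hU hV hUV hn ⟨x, hxn, huU hxu⟩ (h2 n)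
  intro y hy
  rcases huv hy with h | h
  · exact h
  · exfalso
    exact Set.disjoint_left.1 hUV (hsub (mem_iInter.1 hy n)) (hvV h)

/-- PROOF. `J c ∩ closure (Up φ) = ⋂ n, closure (φ '' {w | 1 < ‖w‖ ∧ ‖w‖ < 1 + 1 / (n + 1) ∧ 0 < w.im})`: if `z` is in the left side, `z = lim φ (w_i)` with `w_i.im > 0`, and
`‖w_i‖ → 1` (`bo1_lim`), so `z` is in the right side. If `z` is in the right side, it is in `closure (Up φ)`; if `z ∉ K c`, `z = φ w` (`bo1_surj`), and `bo1_inv` at `w` with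
`ε = (‖w‖ - 1) / 2` gives a contradiction for large `n`; so `z ∈ K c`, `z ∈ J c` (`k2_lim`). The sets `φ '' ..` are connected (`dc1_half`, continuity) and bounded (`bo1_a`: `‖w‖ ≤ 2` implies `‖φ w‖ ≤ R`), so their closures are
compact and connected; `dc1_inter`. -/
theorem dc1_up {c : ℂ} {φ : ℂ → ℂ} (h : Bot c φ) : IsPreconnected (J c ∩ closure (Up φ)) := by
  obtain ⟨W, hW⟩ : ∃ W : ℕ → Set ℂ, ∀ n, W n = {w : ℂ | 1 < ‖w‖ ∧ ‖w‖ < 1 + 1 / ((n : ℝ) + 1) ∧ 0 < w.im} :=
    ⟨_, fun _ => rfl⟩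
  have hpos : ∀ n : ℕ, (0 : ℝ) < 1 / ((n : ℝ) + 1) := fun n => Nat.one_div_pos_of_nat
  have hmem : ∀ n w, w ∈ W n → 1 < ‖w‖ ∧ ‖w‖ < 1 + 1 / ((n : ℝ) + 1) ∧ 0 < w.im := by
    intro n w hw
    rw [hW] at hw
    exact hw
  have heq : J c ∩ closure (Up φ) = ⋂ n, closure (φ '' W n) := by
    apply Subset.antisymm
    · rintro z ⟨hzJ, hz⟩
      rw [mem_iInter]
      intro n
      obtain ⟨x, hx, hl⟩ := mem_closure_iff_seq_limit.1 hz
      choose w hw hwx using hx
      have hl' : Tendsto (fun i => φ (w i)) atTop (𝓝 z) := by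
        have e : (fun i => φ (w i)) = x := funext hwx
        rw [e]
        exact hl
      have h1 := bo1_lim h.toIsRiemannMap (fun i => (hw i).1) (k2_sub c hzJ) hl'
      have h2 : ∀ᶠ i in atTop, ‖w i‖ < 1 + 1 / ((n : ℝ) + 1) :=
        h1.eventually (gt_mem_nhds (by linarith [hpos n]))
      refine mem_closure_of_tendsto hl' ?_
      filter_upwards [h2] with i hi
      refine ⟨w i, ?_, rfl⟩
      rw [hW]
      exact ⟨(hw i).1, hi, (hw i).2⟩
    · intro z hz
      rw [mem_iInter] at hz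
      have hup : z ∈ closure (Up φ) := by
        refine closure_mono ?_ (hz 0)
        rintro _ ⟨w, hw, rfl⟩
        obtain ⟨a, -, b⟩ := hmem 0 w hw
        exact ⟨w, ⟨a, b⟩, rfl⟩
      refine ⟨?_, hup⟩
      have hout : z ∈ closure (K c)ᶜ := by
        refine closure_mono ?_ hup
        rintro _ ⟨w, hw, rfl⟩
        exact bo1_out h.toIsRiemannMap hw.1
      refine k2_lim ?_ hout
      by_contra hK
      obtain ⟨w, hw, hwz⟩ := bo1_surj h.toIsRiemannMap hK
      obtain ⟨ε, hε⟩ : ∃ ε : ℝ, ε = (‖w‖ - 1) / 2 := ⟨_, rfl⟩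
      have hε0 : 0 < ε := by rw [hε]; linarith
      obtain ⟨δ, hδ, h1⟩ := bo1_inv h.toIsRiemannMap hw hε0
      obtain ⟨n, hn⟩ := exists_nat_one_div_lt hε0
      obtain ⟨_, ⟨w', hw', rfl⟩, hd⟩ := Metric.mem_closure_iff.1 (hz n) δ hδ
      obtain ⟨a, b, -⟩ := hmem n w' hw'
      rw [dist_comm, dist_eq_norm, ← hwz] at hd
      have h2 := h1 w' a hd
      have h3 : ‖w‖ ≤ ‖w'‖ + ‖w' - w‖ := by
        have h4 := norm_sub_norm_le w w'
        rw [norm_sub_rev] at h4
        linarith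
      linarith
  rw [heq]
  refine dc1_inter (fun n => ?_) (fun n => ?_) (fun n => ?_)
  · obtain ⟨R, hR⟩ := bo1_a h.toIsRiemannMap (ρ := 2) one_lt_two
    refine (isCompact_closedBall (0 : ℂ) R).closure_of_subset ?_
    rintro _ ⟨w, hw, rfl⟩
    obtain ⟨a, b, -⟩ := hmem n w hw
    rw [mem_closedBall_zero_iff]
    by_contra hcon
    have h1 := hR w a (not_le.1 hcon)
    have h2 : 1 / ((n : ℝ) + 1) ≤ 1 := by
      rw [div_le_one (by positivity)]
      linarith [(Nat.cast_nonneg n : (0 : ℝ) ≤ n)]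
    linarith
  · refine IsPreconnected.closure ?_
    rw [hW]
    refine (dc1_half (by linarith [hpos n])).image _ ?_
    intro w hw
    exact (bo1_cont h.toIsRiemannMap hw.1).continuousWithinAt
  · refine closure_mono (image_mono ?_)
    intro w hw
    obtain ⟨a, b, d⟩ := hmem _ w hw
    rw [hW]
    refine ⟨a, b.trans_le ?_, d⟩
    have h1 : (1 : ℝ) / (((n + 1 : ℕ) : ℝ) + 1) ≤ 1 / ((n : ℝ) + 1) :=
      one_div_le_one_div_of_le (by positivity) (by push_cast; linarith)
    linarith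

/-- PROOF. The image of `J c ∩ closure (Up φ)` under `z ↦ -z` (`bo4_up`, `bo4_lo`, `k2_neg`). -/
theorem dc1_lo {c : ℂ} {φ : ℂ → ℂ} (h : Bot c φ) : IsPreconnected (J c ∩ closure (Lo φ)) := by
  have heq : J c ∩ closure (Lo φ) = (fun z : ℂ => -z) '' (J c ∩ closure (Up φ)) := by
    apply Subset.antisymm
    · rintro z ⟨hzJ, hz⟩
      exact ⟨-z, ⟨k2_neg hzJ, bo4_lo h hz⟩, neg_neg z⟩
    · rintro _ ⟨z, ⟨hzJ, hz⟩, rfl⟩
      exact ⟨k2_neg hzJ, bo4_up h hz⟩
  rw [heq]
  exact (dc1_up h).image _ continuous_neg.continuousOn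

end H66S
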