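import Pool.Agent.Lib.H66S.C3
import Pool.Agent.Lib.H66S.BO4

/-!
# H66S, R1 (M): the rays `φ (0, ∞)` and `φ (-∞, 0)` land
-/

set_option autoImplicit false

namespace H66S

open Set Filter Topology Metric

theorem r1_re (ξ : ℂ) (k : ℕ) : (ξ / 2 ^ k).re = ξ.re / 2 ^ k := by
  have h : (2 : ℂ) ^ k = (((2 : ℝ) ^ k : ℝ) : ℂ) := by push_cast; rfl
  rw [h, Complex.div_ofReal_re]

theorem r1_norm {ξ : ℂ} (h : 0 < ξ.re) (k : ℕ) : 1 < ‖Complex.exp (ξ / 2 ^ k)‖ := by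
  rw [Complex.norm_exp, r1_re]
  exact Real.one_lt_exp_iff.2 (by positivity)

/-- PROOF. `S = {ξ | 1 / 2 < ξ.re ∧ ξ.re < 3 ∧ -1 < ξ.im ∧ ξ.im < 1}` (open, convex), `G k ξ = φ (exp (ξ / 2 ^ k))`: `‖exp (ξ / 2 ^ k)‖ = exp (ξ.re / 2 ^ k) > 1`;
`G` is holomorphic; `f c (G (k+1) ξ) = φ (exp (ξ / 2 ^ (k+1)) ^ 2) = G k ξ` (`h.sq`); `G 0` is bounded on `S`: `exp` maps the closed rectangle (compact) to a compact
subset of `Ext`, on which `φ` is continuous. `G 0 1 ∉ K c` (`bo1_out`). -/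
theorem r1_lift {c : ℂ} {φ : ℂ → ℂ} (h : Bot c φ) :
    Lift c {ξ | 1 / 2 < ξ.re ∧ ξ.re < 3 ∧ -1 < ξ.im ∧ ξ.im < 1} (fun k ξ => φ (Complex.exp (ξ / 2 ^ k))) := by
  refine ⟨?_, ?_, fun k => ?_, fun k z hz => ?_, ?_, ?_⟩
  · exact (isOpen_lt continuous_const Complex.continuous_re).inter
      ((isOpen_lt Complex.continuous_re continuous_const).inter
        ((isOpen_lt continuous_const Complex.continuous_im).inter
          (isOpen_lt Complex.continuous_im continuous_const)))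
  · exact ((convex_halfSpace_re_gt _).inter ((convex_halfSpace_re_lt _).inter
      ((convex_halfSpace_im_gt _).inter (convex_halfSpace_im_lt _)))).isPreconnected
  · refine h.holo.comp ?_ ?_
    · exact ((Complex.differentiable_exp).comp (differentiable_id.div_const _)).differentiableOn
    · intro ξ hξ
      exact r1_norm (by linarith [hξ.1]) k
  · have h1 : 1 < ‖Complex.exp (z / 2 ^ (k + 1))‖ := r1_norm (by linarith [hz.1]) (k + 1)
    show f c (φ (Complex.exp (z / 2 ^ (k + 1)))) = φ (Complex.exp (z / 2 ^ k))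
    rw [← h.sq _ h1, ← Complex.exp_nat_mul]
    congr 2
    rw [pow_succ]
    push_cast
    field_simp
  · have hc : IsCompact (Icc (1 / 2 : ℝ) 3 ×ℂ Icc (-1 : ℝ) 1) := isCompact_Icc.reProdIm isCompact_Icc
    have hcont : ContinuousOn (fun ξ : ℂ => φ (Complex.exp (ξ / 2 ^ 0))) (Icc (1 / 2 : ℝ) 3 ×ℂ Icc (-1 : ℝ) 1) := by
      refine h.holo.continuousOn.comp ?_ ?_
      · exact ((Complex.continuous_exp).comp (continuous_id.div_const _)).continuousOn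
      · intro ξ hξ
        exact r1_norm (by linarith [hξ.1.1]) 0
    obtain ⟨B, hB⟩ := hc.exists_bound_of_continuousOn hcont
    refine ⟨B, fun z hz => hB z ⟨⟨hz.1.le, hz.2.1.le⟩, ⟨hz.2.2.1.le, hz.2.2.2.le⟩⟩⟩
  · refine ⟨1, ⟨by norm_num, by norm_num, by norm_num, by norm_num⟩, ?_⟩
    exact bo1_out h.toIsRiemannMap (r1_norm (by norm_num) 0)

/-- PROOF. `c3_land` for `r1_lift`, `a = 2`, `b = 1` (`G (k+1) 2 = φ (exp (1 / 2 ^ k)) = G k 1`), `Q = ofReal '' Icc 1 2`. Given `ε`, let `k ≥ k₀` be the range where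
`‖G k ξ - (1 - z₁)‖ < ε` on `Q`. Let `1 < r < exp (1 / 2 ^ k₀)`, `x = log r ∈ (0, 1 / 2 ^ k₀)`. There is `k` with `1 ≤ 2 ^ k x ≤ 2` (`exists_nat_pow_near`-type lemma,
or `Nat.find`), `k ≥ k₀`, and `φ r = G k (2 ^ k x)`. -/
theorem r1_land {c : ℂ} {φ : ℂ → ℂ} (h : Bot c φ) {z₁ : ℂ} (h1 : f c z₁ = z₁) (hz : z₁ ∈ interior (K c)) :
    Tendsto (fun r : ℝ => φ (r : ℂ)) (𝓝[>] 1) (𝓝 (1 - z₁)) := by
  have hL := r1_lift h
  have hQ : IsCompact ((fun x : ℝ => (x : ℂ)) '' Icc (1 : ℝ) 2) :=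
    isCompact_Icc.image Complex.continuous_ofReal
  have hQS : (fun x : ℝ => (x : ℂ)) '' Icc (1 : ℝ) 2 ⊆
      {ξ | 1 / 2 < ξ.re ∧ ξ.re < 3 ∧ -1 < ξ.im ∧ ξ.im < 1} := by
    rintro _ ⟨x, hx, rfl⟩
    refine ⟨?_, ?_, ?_, ?_⟩
    · simp only [Complex.ofReal_re]
      linarith [hx.1]
    · simp only [Complex.ofReal_re]
      linarith [hx.2]
    · simp
    · simp
  have h2 : ∀ k, (fun k ξ => φ (Complex.exp (ξ / 2 ^ k))) (k + 1) (2 : ℂ) =
      (fun k ξ => φ (Complex.exp (ξ / 2 ^ k))) k (1 : ℂ) := by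
    intro k
    show φ (Complex.exp (2 / 2 ^ (k + 1))) = φ (Complex.exp (1 / 2 ^ k))
    congr 2
    rw [pow_succ]
    field_simp
  rw [Metric.tendsto_nhds]
  intro ε hε
  obtain ⟨N, hN⟩ := eventually_atTop.1 (c3_land hL h1 hz (a := 2) (b := 1)
    ⟨by norm_num, by norm_num, by norm_num, by norm_num⟩
    ⟨by norm_num, by norm_num, by norm_num, by norm_num⟩ h2 hQ hQS hε)
  have hpos : (0 : ℝ) < 1 / 2 ^ N := by positivity
  have hmem : Ioo (1 : ℝ) (Real.exp (1 / 2 ^ N)) ∈ 𝓝[>] (1 : ℝ) :=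
    Ioo_mem_nhdsGT (Real.one_lt_exp_iff.2 hpos)
  filter_upwards [hmem] with r hr
  have hr0 : 0 < r := by linarith [hr.1]
  set x : ℝ := Real.log r with hx
  have hx0 : 0 < x := Real.log_pos hr.1
  have hx1 : x < 1 / 2 ^ N := by
    rw [hx, Real.log_lt_iff_lt_exp hr0]
    exact hr.2
  have hN1 : (1 : ℝ) ≤ 2 ^ N := one_le_pow₀ one_le_two
  have hxinv : (2 : ℝ) ^ N < 1 / x := by
    rw [lt_div_iff₀ hx0]
    calc 2 ^ N * x < 2 ^ N * (1 / 2 ^ N) := mul_lt_mul_of_pos_left hx1 (by positivity)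
      _ = 1 := by field_simp
  obtain ⟨n, hn1, hn2⟩ := exists_nat_pow_near (hN1.trans hxinv.le) (one_lt_two)
  have hnN : N ≤ n + 1 := by
    have h3 : (2 : ℝ) ^ N < 2 ^ (n + 1) := hxinv.trans hn2
    exact ((pow_lt_pow_iff_right₀ one_lt_two).1 h3).le
  have h4 : (2 : ℝ) ^ n * x ≤ 1 := by
    rw [le_div_iff₀ hx0] at hn1
    exact hn1
  have h5 : 1 < (2 : ℝ) ^ (n + 1) * x := by
    rw [div_lt_iff₀ hx0] at hn2
    exact hn2
  have h6 : ((2 : ℝ) ^ (n + 1) * x) ∈ Icc (1 : ℝ) 2 := by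
    refine ⟨h5.le, ?_⟩
    rw [pow_succ]
    linarith
  have h7 := hN (n + 1) hnN _ (mem_image_of_mem (fun x : ℝ => (x : ℂ)) h6)
  have h8 : Complex.exp ((((2 : ℝ) ^ (n + 1) * x : ℝ) : ℂ) / 2 ^ (n + 1)) = (r : ℂ) := by
    have h9 : (((2 : ℝ) ^ (n + 1) * x : ℝ) : ℂ) / 2 ^ (n + 1) = (x : ℂ) := by
      push_cast
      field_simp
    rw [h9, ← Complex.ofReal_exp, hx, Real.exp_log hr0]
  rw [dist_eq_norm]
  simp only [h8] at h7
  exact h7

end H66S
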