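import Pool.Agent.Lib.H66S.S1

/-!
# H66S, S2 (M): the separation lemma
-/

set_option autoImplicit false

namespace H66S

open Set Filter Topology Metric

/-- the two loops -/
noncomputable def s2_p (φ : ℂ → ℂ) (x ρ : ℝ) (γ : ℝ → ℂ) (a : ℝ → ℂ) : Fin 4 → ℝ → ℂ :=
  ![fun t => φ ((ρ + t * (x - ρ) : ℝ) : ℂ), γ, fun t => φ ((-(x + t * (ρ - x)) : ℝ) : ℂ), a]

theorem s2_loop {c : ℂ} {φ : ℂ → ℂ} (h : Bot c φ) {x ρ : ℝ} (hx : 1 < x) (hρ : x < ρ) {γ a : ℝ → ℂ}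
    (hγ : ContinuousOn γ (Icc 0 1)) (ha : ContinuousOn a (Icc 0 1)) (h0 : γ 0 = φ x) (h1 : γ 1 = -φ x)
    (a0 : a 0 = φ (-ρ)) (a1 : a 1 = φ ρ) : Loop (s2_p φ x ρ γ a) := by
  have hxn : 1 < ‖(x : ℂ)‖ := by
    rw [Complex.norm_real, Real.norm_eq_abs, abs_of_pos (by linarith)]
    exact hx
  have hcont : ∀ g : ℝ → ℝ, Continuous g → (∀ t ∈ Icc (0 : ℝ) 1, 1 < |g t|) →
      ContinuousOn (fun t => φ ((g t : ℝ) : ℂ)) (Icc 0 1) := by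
    intro g hg hg1
    refine h.holo.continuousOn.comp (Complex.continuous_ofReal.comp hg).continuousOn fun t ht => ?_
    show 1 < ‖((g t : ℝ) : ℂ)‖
    rw [Complex.norm_real, Real.norm_eq_abs]
    exact hg1 t ht
  refine ⟨fun i => ?_, ?_, ?_, ?_, ?_⟩
  · fin_cases i
    · show ContinuousOn (fun t : ℝ => φ ((ρ + t * (x - ρ) : ℝ) : ℂ)) (Icc 0 1)
      refine hcont (fun t => ρ + t * (x - ρ)) (by fun_prop) fun t ht => ?_
      have h2 : x ≤ ρ + t * (x - ρ) := by nlinarith [ht.1, ht.2]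
      exact lt_of_lt_of_le hx (h2.trans (le_abs_self _))
    · exact hγ
    · show ContinuousOn (fun t : ℝ => φ ((-(x + t * (ρ - x)) : ℝ) : ℂ)) (Icc 0 1)
      refine hcont (fun t => -(x + t * (ρ - x))) (by fun_prop) fun t ht => ?_
      have h2 : x ≤ x + t * (ρ - x) := by nlinarith [ht.1, ht.2]
      rw [abs_neg]
      exact lt_of_lt_of_le hx (h2.trans (le_abs_self _))
    · exact ha
  · show φ ((ρ + 1 * (x - ρ) : ℝ) : ℂ) = γ 0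
    rw [h0]
    congr 2
    ring
  · show γ 1 = φ ((-(x + 0 * (ρ - x)) : ℝ) : ℂ)
    rw [h1, ← bo4_neg h hxn]
    congr 1
    push_cast
    ring
  · show φ ((-(x + 1 * (ρ - x)) : ℝ) : ℂ) = a 0
    rw [a0]
    congr 1
    push_cast
    ring
  · show a 1 = φ ((ρ + 0 * (x - ρ) : ℝ) : ℂ)
    rw [a1]
    congr 2
    ring

/-- The images of the loops avoid a set `O` outside the real rays, the path and the arc. -/
theorem s2_avoid {φ : ℂ → ℂ} {x ρ : ℝ} (hx : 1 < x) (hρ : x < ρ) {γ a : ℝ → ℂ} {O : Set ℂ}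
    (hO1 : ∀ z ∈ O, z ∉ Rl φ) (hO2 : ∀ t ∈ Icc (0 : ℝ) 1, γ t ∉ O) (hO3 : ∀ t ∈ Icc (0 : ℝ) 1, a t ∉ O) :
    ∀ i, ∀ t ∈ Icc (0 : ℝ) 1, s2_p φ x ρ γ a i t ∉ O := by
  have hR : ∀ y : ℝ, 1 < |y| → φ ((y : ℝ) : ℂ) ∉ O := by
    intro y hy hm
    refine hO1 _ hm ⟨(y : ℂ), ⟨?_, Complex.ofReal_im _⟩, rfl⟩
    rw [Complex.norm_real, Real.norm_eq_abs]
    exact hy
  intro i t ht
  fin_cases i
  · show φ ((ρ + t * (x - ρ) : ℝ) : ℂ) ∉ O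
    refine hR _ ?_
    have h2 : x ≤ ρ + t * (x - ρ) := by nlinarith [ht.1, ht.2]
    exact lt_of_lt_of_le hx (h2.trans (le_abs_self _))
  · exact hO2 t ht
  · show φ ((-(x + t * (ρ - x)) : ℝ) : ℂ) ∉ O
    refine hR _ ?_
    have h2 : x ≤ x + t * (ρ - x) := by nlinarith [ht.1, ht.2]
    rw [abs_neg]
    exact lt_of_lt_of_le hx (h2.trans (le_abs_self _))
  · exact hO3 t ht

theorem s2_T (φ : ℂ → ℂ) (x ρ : ℝ) (γ a a' : ℝ → ℂ) (z : ℂ) :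
    T (s2_p φ x ρ γ a) z - T (s2_p φ x ρ γ a') z = inc (fun t => a t - z) - inc (fun t => a' t - z) := by
  unfold T
  rw [Fin.sum_univ_four, Fin.sum_univ_four]
  show inc (fun t => φ ((ρ + t * (x - ρ) : ℝ) : ℂ) - z) + inc (fun t => γ t - z) +
    inc (fun t => φ ((-(x + t * (ρ - x)) : ℝ) : ℂ) - z) + inc (fun t => a t - z) -
    (inc (fun t => φ ((ρ + t * (x - ρ) : ℝ) : ℂ) - z) + inc (fun t => γ t - z) +
    inc (fun t => φ ((-(x + t * (ρ - x)) : ℝ) : ℂ) - z) + inc (fun t => a' t - z)) = _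
  ring

/-- A compact set disjoint from a closed set has a thickening disjoint from it. -/
theorem s2_sep {L O : Set ℂ} (hL : IsCompact L) (hO : IsClosed O) (hd : ∀ z ∈ O, z ∉ L) :
    ∃ ε : ℝ, 0 < ε ∧ ∀ z ∈ thickening ε L, z ∉ O := by
  have h1 : L ⊆ Oᶜ := fun z hz hzO => hd z hzO hz
  obtain ⟨ε, hε, h2⟩ := hL.exists_thickening_subset_open hO.isOpen_compl h1
  exact ⟨ε, hε, fun z hz => h2 hz⟩

/-- The separation lemma. PROOF. Let `δ` be `1 / 2` of the number of `s1_ball`, so that `ball y (2 δ)` does not meet `L ∪ Rl φ`. Choose `w₊`, `w₋` with `1 < ‖w‖`, `0 < w₊.im`, `w₋.im < 0`,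
`φ w₊, φ w₋ ∈ ball y δ` (`mem_closure_iff`), `O₊`, `O₋` the rays of `s1_ray`. `L` is compact and disjoint from the closed sets `O₊`, `O₋`: there is `ε ≤ δ` such that
`thickening ε L` does not meet `O₊ ∪ O₋`; it does not meet `ball y δ` either. Let `1 < x`, `‖φ x - β‖ < ε` (`hβ`), `γ` a path in `thickening ε L` from `φ x` to `-φ x = φ (-x)` (`s1_path`, `bo4_neg`). Let `ρ > x` be so
large that `w3_circle` holds for `z = φ w₋` and `φ w ∉ ball y δ` for `‖w‖ = ρ` (`bo1_b`).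
The loops `p`: `p 0 t = φ (ρ + t (x - ρ))`, `p 1 = γ`, `p 2 t = φ (-(x + t (ρ - x)))`, `p 3 = loArc φ ρ`, and `p'`: the same with `p' 3 = upArc φ ρ`. `p 0`, `p 2` are in `Rl φ`.
`T p (φ w₊) = 0`: `w2_escape` for `O₊ ⊆ Up φ` (disjoint from `Rl φ`, from the thickening and from `loArc`: `s1_disj`, `loArc_mem`). `T p' (φ w₋) = 0` in the same way with `O₋`.
`T p (φ w₊) = T p (φ w₋)`: `w2_conn` for `ball y δ`. `T p (φ w₋) - T p' (φ w₋) = 2 π i` (`w3_circle`, `Fin.sum_univ_four`). So `0 = 2 π i`. -/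
theorem s2 {c : ℂ} {φ : ℂ → ℂ} (h : Bot c φ) {β : ℂ}
    (hβ : Tendsto (fun r : ℝ => φ (r : ℂ)) (𝓝[>] 1) (𝓝 β)) {L : Set ℂ} (hL : IsCompact L)
    (hLc : IsPreconnected L) (hLK : L ⊆ K c) (h1 : β ∈ L) (h2 : -β ∈ L) {y : ℂ} (hyK : y ∈ K c) (hyL : y ∉ L)
    (hu : y ∈ closure (Up φ)) (hl : y ∈ closure (Lo φ)) : False := by
  obtain ⟨δ₂, hδ₂, hball⟩ := s1_ball h hβ hL.isClosed h1 h2 hyK hyL
  set δ : ℝ := δ₂ / 2 with hδd
  have hδ : 0 < δ := by positivity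
  obtain ⟨zu, hzu, hyu⟩ := Metric.mem_closure_iff.1 hu δ hδ
  obtain ⟨zl, hzl, hyl⟩ := Metric.mem_closure_iff.1 hl δ hδ
  obtain ⟨wu, ⟨hwu1, hwu2⟩, rfl⟩ := hzu
  obtain ⟨wl, ⟨hwl1, hwl2⟩, rfl⟩ := hzl
  have hbu : φ wu ∈ ball y δ := by rw [mem_ball, dist_comm]; exact hyu
  have hbl : φ wl ∈ ball y δ := by rw [mem_ball, dist_comm]; exact hyl
  obtain ⟨Ou, hOuc, hOup, hOum, hOuR, hOuK, hOuU, -⟩ := s1_ray h hwu1
  obtain ⟨Ol, hOlc, hOlp, hOlm, hOlR, hOlK, -, hOlL⟩ := s1_ray h hwl1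
  have hOuU' := hOuU hwu2
  have hOlL' := hOlL hwl2
  obtain ⟨ε₁, hε₁, hs1⟩ := s2_sep hL hOuc fun z hz hzL => hOuK z hz (hLK hzL)
  obtain ⟨ε₂, hε₂, hs2⟩ := s2_sep hL hOlc fun z hz hzL => hOlK z hz (hLK hzL)
  set ε : ℝ := min δ (min ε₁ ε₂) with hεd
  have hε : 0 < ε := lt_min hδ (lt_min hε₁ hε₂)
  have hεδ : ε ≤ δ := min_le_left _ _
  have hε1 : ε ≤ ε₁ := (min_le_right _ _).trans (min_le_left _ _)
  have hε2 : ε ≤ ε₂ := (min_le_right _ _).trans (min_le_right _ _)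
  have ht1 : ∀ z ∈ thickening ε L, z ∉ Ou := fun z hz => hs1 z (thickening_mono hε1 L hz)
  have ht2 : ∀ z ∈ thickening ε L, z ∉ Ol := fun z hz => hs2 z (thickening_mono hε2 L hz)
  have ht3 : ∀ z ∈ thickening ε L, z ∉ ball y δ := by
    intro z hz hzb
    obtain ⟨x, hx, hzx⟩ := mem_thickening_iff.1 hz
    refine (hball x ?_).1 hx
    rw [mem_ball] at hzb ⊢
    have h3 := dist_triangle x z y
    rw [dist_comm x z] at h3
    have h4 : δ₂ = δ + δ := by rw [hδd]; ring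
    linarith
  -- the point `x`
  obtain ⟨x, hx1, hxβ⟩ : ∃ x : ℝ, 1 < x ∧ dist (φ (x : ℂ)) β < ε := by
    have h3 := (Metric.tendsto_nhds.1 hβ) ε hε
    obtain ⟨x, h4, h5⟩ := (h3.and self_mem_nhdsWithin).exists
    exact ⟨x, h5, h4⟩
  have hp : φ (x : ℂ) ∈ thickening ε L := mem_thickening_iff.2 ⟨β, h1, hxβ⟩
  have hq : -φ (x : ℂ) ∈ thickening ε L := by
    refine mem_thickening_iff.2 ⟨-β, h2, ?_⟩
    rw [dist_neg_neg]
    exact hxβ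
  obtain ⟨γ, hγc, hγ0, hγ1, hγt⟩ := s1_path hLc hε hp hq
  obtain ⟨ρ₀, hρ₀⟩ := w3_circle h (φ wl)
  obtain ⟨ρ₁, hρ₁, hρ₁'⟩ := bo1_b h.toIsRiemannMap (‖y‖ + δ)
  set ρ : ℝ := max (max ρ₀ ρ₁) x + 1 with hρd
  have hρ0 : ρ₀ < ρ := lt_of_le_of_lt ((le_max_left ρ₀ ρ₁).trans (le_max_left _ x)) (lt_add_one _)
  have hρ1 : ρ₁ < ρ := lt_of_le_of_lt ((le_max_right ρ₀ ρ₁).trans (le_max_left _ x)) (lt_add_one _)
  have hρx : x < ρ := lt_of_le_of_lt (le_max_right _ x) (lt_add_one _)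
  have hρ1' : 1 < ρ := hx1.trans hρx
  have hcirc := hρ₀ ρ hρ0
  have hfar : ∀ w : ℂ, ‖w‖ = ρ → φ w ∉ ball y δ := by
    intro w hw hwb
    have h3 := hρ₁' w (by rw [hw]; exact hρ1)
    rw [mem_ball, dist_eq_norm] at hwb
    have h4 : ‖φ w‖ ≤ ‖φ w - y‖ + ‖y‖ := by
      have := norm_add_le (φ w - y) y
      rwa [sub_add_cancel] at this
    linarith
  have hloop := s2_loop h hx1 hρx hγc (loArc_cont h hρ1') hγ0 hγ1 (loArc_zero φ ρ) (loArc_one φ ρ)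
  have hloop' := s2_loop h hx1 hρx hγc (upArc_cont h hρ1') hγ0 hγ1 (upArc_zero φ ρ) (upArc_one φ ρ)
  -- the upper half is not in the real rays
  have hUR : ∀ z ∈ Ou, z ∉ Rl φ := by
    intro z hz hzR
    obtain ⟨w, ⟨hw1, hw2⟩, rfl⟩ := hOuU' hz
    have := (s1_disj h hw1 hw1).2.2.1 hzR
    linarith
  have hLR : ∀ z ∈ Ol, z ∉ Rl φ := by
    intro z hz hzR
    obtain ⟨w, ⟨hw1, hw2⟩, rfl⟩ := hOlL' hz
    have := (s1_disj h hw1 hw1).2.2.1 hzR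
    linarith
  have hT1 : T (s2_p φ x ρ γ (loArc φ ρ)) (φ wu) = 0 := by
    refine w2_escape hloop hOup hOuR (s2_avoid hx1 hρx hUR (fun t ht => ht1 _ (hγt t ht)) fun t ht => ?_) hOum
    intro hm
    obtain ⟨w, hw1, hw2, hw3⟩ := loArc_mem φ hρ1' ht
    rw [hw3] at hm
    have hw1' : 1 < ‖w‖ := by rw [hw1]; exact hρ1'
    have := (s1_disj h hw1' hw1').1 (hOuU' hm)
    linarith
  have hT2 : T (s2_p φ x ρ γ (upArc φ ρ)) (φ wl) = 0 := by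
    refine w2_escape hloop' hOlp hOlR (s2_avoid hx1 hρx hLR (fun t ht => ht2 _ (hγt t ht)) fun t ht => ?_) hOlm
    intro hm
    obtain ⟨w, hw1, hw2, hw3⟩ := upArc_mem φ hρ1' ht
    rw [hw3] at hm
    have hw1' : 1 < ‖w‖ := by rw [hw1]; exact hρ1'
    have := (s1_disj h hw1' hw1').2.1 (hOlL' hm)
    linarith
  have hT3 : T (s2_p φ x ρ γ (loArc φ ρ)) (φ wu) = T (s2_p φ x ρ γ (loArc φ ρ)) (φ wl) := by
    refine w2_conn hloop (convex_ball y δ).isPreconnected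
      (s2_avoid hx1 hρx (fun z hz => (hball z (ball_subset_ball (by linarith) hz)).2)
        (fun t ht => ht3 _ (hγt t ht)) fun t ht => ?_) hbu hbl
    obtain ⟨w, hw1, -, hw3⟩ := loArc_mem φ hρ1' ht
    rw [hw3]
    exact hfar w hw1
  have hT4 := s2_T φ x ρ γ (loArc φ ρ) (upArc φ ρ) (φ wl)
  rw [hcirc, hT2, ← hT3, hT1, sub_zero] at hT4
  exact Complex.two_pi_I_ne_zero hT4.symm

end H66S
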