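import Pool.Agent.Lib.H66S.A4
import Pool.Agent.Lib.H66S.R1
import Pool.Agent.Lib.H66S.S2
import Pool.Agent.Lib.H66S.DC1
import Pool.Agent.Lib.H66S.BO5

/-!
# H66S: the main theorem
-/

set_option autoImplicit false

namespace H66S

open Set Filter Topology Metric

/-- The point `e`: it is not in the closures of both halves. -/
theorem f1_point {c : ℂ} {H : Set ℂ} {ζ z₁ : ℂ} {φ : ℂ → ℂ} (hH : Hyp c H ζ) (h1 : f c z₁ = z₁)
    (hz : z₁ ∈ interior (K c)) (h : Bot c φ) :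
    ∃ e ∈ J c, ¬ (e ∈ closure (Up φ) ∧ e ∈ closure (Lo φ)) := by
  obtain ⟨L, e, hL, hLc, hLK, hb, hb', heJ, heL⟩ := a4_cut h.toIsRiemannMap hH h1 hz
  refine ⟨e, heJ, fun hh => ?_⟩
  exact s2 h (r1_land h h1 hz) hL hLc hLK hb hb' (k2_sub c heJ) heL hh.1 hh.2

theorem f1_up {c : ℂ} {H : Set ℂ} {ζ z₁ : ℂ} {φ : ℂ → ℂ} (hH : Hyp c H ζ) (h1 : f c z₁ = z₁)
    (hz : z₁ ∈ interior (K c)) (h : Bot c φ) : ¬ J c ⊆ closure (Up φ) := by
  intro hs
  obtain ⟨e, heJ, he⟩ := f1_point hH h1 hz h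
  refine he ⟨hs heJ, ?_⟩
  have := bo4_up h (hs (k2_neg heJ))
  rwa [neg_neg] at this

theorem f1_lo {c : ℂ} {H : Set ℂ} {ζ z₁ : ℂ} {φ : ℂ → ℂ} (hH : Hyp c H ζ) (h1 : f c z₁ = z₁)
    (hz : z₁ ∈ interior (K c)) (h : Bot c φ) : ¬ J c ⊆ closure (Lo φ) := by
  intro hs
  obtain ⟨e, heJ, he⟩ := f1_point hH h1 hz h
  refine he ⟨?_, hs heJ⟩
  have := bo4_lo h (hs (k2_neg heJ))
  rwa [neg_neg] at this

/-- `J c` is not a point. -/
theorem f1_single {c : ℂ} {H : Set ℂ} {ζ : ℂ} (hH : Hyp c H ζ) (b : ℂ) : J c ≠ {b} := by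
  intro h
  have h1 : (0 : ℂ) ∈ ({b} : Set ℂ) := h ▸ hH.J0
  have h2 : -ζ ∈ ({b} : Set ℂ) := h ▸ a1_zJ hH
  rw [mem_singleton_iff] at h1 h2
  exact a1_zeta hH (by rw [← neg_eq_zero, h2, ← h1])

theorem f1_bot {c : ℂ} {H : Set ℂ} {ζ z₁ : ℂ} {φ : ℂ → ℂ} (hH : Hyp c H ζ) (h1 : f c z₁ = z₁)
    (hz : z₁ ∈ interior (K c)) (h : Bot c φ) {t : ℂ} (ht : ‖t‖ = 1) : P φ t ≠ J c := by
  intro he
  rcases lt_trichotomy t.im 0 with hi | hi | hi
  · exact f1_lo hH h1 hz h (he ▸ bo4_P_lo ht hi)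
  · have hr : t = 1 ∨ t = -1 := by
      have h2 : ‖t‖ ^ 2 = t.re * t.re + t.im * t.im := by
        rw [← Complex.normSq_eq_norm_sq, Complex.normSq_apply]
      rw [ht, hi] at h2
      have h3 : (t.re - 1) * (t.re + 1) = 0 := by linarith
      rcases mul_eq_zero.1 h3 with h4 | h4
      · left
        exact Complex.ext (by simp; linarith) (by simp [hi])
      · right
        exact Complex.ext (by simp; linarith) (by simp [hi])
    have hl := r1_land h h1 hz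
    rcases hr with rfl | rfl
    · have : Tendsto (fun r : ℝ => φ (r * 1)) (𝓝[>] 1) (𝓝 (1 - z₁)) := by
        simpa using hl
      exact f1_single hH _ (he ▸ bo4_P_lim this)
    · have : Tendsto (fun r : ℝ => φ (r * -1)) (𝓝[>] 1) (𝓝 (-(1 - z₁))) := by
        refine hl.neg.congr' ?_
        filter_upwards [self_mem_nhdsWithin] with r hr
        have h5 : 1 < ‖(r : ℂ)‖ := by
          rw [Complex.norm_real, Real.norm_eq_abs]
          exact lt_of_lt_of_le hr (le_abs_self r)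
        rw [mul_neg, mul_one, bo4_neg h h5]
      exact f1_single hH _ (he ▸ bo4_P_lim this)
  · exact f1_up hH h1 hz h (he ▸ bo4_P_up ht hi)

/-- Main theorem. -/
theorem f1_main {c : ℂ} {H : Set ℂ} {z₁ : ℂ} (hJ : (0 : ℂ) ∈ J c) (h1 : f c z₁ = z₁)
    (hz : z₁ ∈ interior (K c)) (hHc : IsCompact H) (hHp : IsPreconnected H) (hHm : MapsTo (f c) H H)
    (hHi : InjOn (f c) H) (h0 : (0 : ℂ) ∈ f c '' H) {φ : ℂ → ℂ} (h : IsRiemannMap c φ) :
    (∀ t : ℂ, ‖t‖ = 1 → P φ t ⊂ J c) ∧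
    ∃ A B : Set ℂ, (IsCompact A ∧ IsConnected A ∧ A ⊂ J c) ∧ (IsCompact B ∧ IsConnected B ∧ B ⊂ J c) ∧
      A ∪ B = J c := by
  obtain ⟨ζ, hζ, hf⟩ := h0
  have hH : Hyp c H ζ := ⟨hJ, hHc, hHp, hHm, hHi, hζ, hf⟩
  obtain ⟨b, φ', hb, h', hP⟩ := bo4_exists h (k2_sub c hJ)
  refine ⟨fun t ht => ?_, J c ∩ closure (Up φ'), J c ∩ closure (Lo φ'), ?_, ?_, ?_⟩
  · refine (bo5 h ht).ssubset_of_ne ?_
    rw [hP t]
    exact f1_bot hH h1 hz h' (by rw [norm_mul, hb, ht, one_mul])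
  · refine ⟨(k2_compact c).inter_right isClosed_closure, ⟨?_, dc1_up h'⟩, ?_⟩
    · rcases bo4_cover h' hJ with h2 | h2
      · exact ⟨0, hJ, h2⟩
      · have h3 := bo4_lo h' h2
        rw [neg_zero] at h3
        exact ⟨0, hJ, h3⟩
    · refine inter_subset_left.ssubset_of_ne fun he => f1_up hH h1 hz h' ?_
      exact inter_eq_left.1 he
  · refine ⟨(k2_compact c).inter_right isClosed_closure, ⟨?_, dc1_lo h'⟩, ?_⟩
    · rcases bo4_cover h' hJ with h2 | h2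
      · have h3 := bo4_up h' h2
        rw [neg_zero] at h3
        exact ⟨0, hJ, h3⟩
      · exact ⟨0, hJ, h2⟩
    · refine inter_subset_left.ssubset_of_ne fun he => f1_lo hH h1 hz h' ?_
      exact inter_eq_left.1 he
  · rw [← inter_union_distrib_left]
    exact inter_eq_left.2 fun z hz' => bo4_cover h' hz'

end H66S
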