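import Pool.Agent.Lib.H66S.D0

/-!
# H66S, K1 (M, many small): the filled Julia set

`esc c = ‖c‖ + 2`.  All the proofs are elementary, from `k1_grow` and `k1_iter`.
-/

set_option autoImplicit false

namespace H66S

open Set Filter Topology Metric

theorem k1_grow {c z : ℂ} (h : esc c ≤ ‖z‖) : 2 * ‖z‖ ≤ ‖f c z‖ := by
  unfold esc at h
  unfold f
  have h1 : ‖z ^ 2‖ - ‖c‖ ≤ ‖z ^ 2 + c‖ := by
    have := norm_sub_le_norm_add (z ^ 2) c
    exact this
  rw [norm_pow] at h1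
  have h2 := norm_nonneg c
  nlinarith [mul_nonneg (norm_nonneg z) h2]

theorem k1_iter {c z : ℂ} (h : esc c ≤ ‖z‖) (n : ℕ) : 2 ^ n * ‖z‖ ≤ ‖(f c)^[n] z‖ := by
  induction n generalizing z with
  | zero => simp
  | succ n ih =>
    rw [Function.iterate_succ_apply]
    have h1 := k1_grow h
    have h2 := norm_nonneg z
    have h3 : esc c ≤ ‖f c z‖ := by linarith
    have h4 := ih h3
    have h5 : (0 : ℝ) < 2 ^ n := by positivity
    calc 2 ^ (n + 1) * ‖z‖ = 2 ^ n * (2 * ‖z‖) := by ring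
      _ ≤ 2 ^ n * ‖f c z‖ := mul_le_mul_of_nonneg_left h1 h5.le
      _ ≤ _ := h4

theorem k1_esc_two (c : ℂ) : 2 ≤ esc c := by
  unfold esc
  linarith [norm_nonneg c]

theorem k1_pow {c z : ℂ} {N : ℕ} (h : esc c ≤ ‖(f c)^[N] z‖) (m : ℕ) :
    2 ^ m ≤ ‖(f c)^[m + N] z‖ := by
  rw [Function.iterate_add_apply]
  have h1 := k1_iter h m
  have h2 := k1_esc_two c
  have h3 : (0 : ℝ) < 2 ^ m := by positivity
  nlinarith

theorem k1_mem {c z : ℂ} : z ∈ K c ↔ ∀ n : ℕ, ‖(f c)^[n] z‖ ≤ esc c := by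
  constructor
  · rintro ⟨M, hM⟩ n
    by_contra hn
    push Not at hn
    obtain ⟨m, hm⟩ := pow_unbounded_of_one_lt M (by norm_num : (1 : ℝ) < 2)
    have h1 := k1_pow hn.le m
    have h2 := hM (m + n)
    linarith
  · intro h
    exact ⟨esc c, h⟩

theorem k1_compact (c : ℂ) : IsCompact (K c) := by
  have h1 : K c = ⋂ n : ℕ, {z | ‖(f c)^[n] z‖ ≤ esc c} := by
    ext z
    rw [k1_mem, mem_iInter]
    rfl
  have h2 : IsClosed (K c) := by
    rw [h1]
    exact isClosed_iInter fun n => isClosed_le ((f_cont c).iterate n).norm continuous_const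
  refine (isCompact_closedBall (0 : ℂ) (esc c)).of_isClosed_subset h2 (fun z hz => ?_)
  rw [mem_closedBall_zero_iff]
  exact k1_mem.1 hz 0

theorem k1_closed (c : ℂ) : IsClosed (K c) := (k1_compact c).isClosed

theorem k1_norm {c z : ℂ} (h : z ∈ K c) : ‖z‖ ≤ esc c := k1_mem.1 h 0

theorem k1_f {c z : ℂ} : f c z ∈ K c ↔ z ∈ K c := by
  constructor
  · rintro ⟨M, hM⟩
    refine ⟨max M ‖z‖, fun n => ?_⟩
    cases n with
    | zero => exact le_max_right _ _
    | succ n => exact (hM n).trans (le_max_left _ _)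
  · rintro ⟨M, hM⟩
    exact ⟨M, fun n => hM (n + 1)⟩

theorem k1_fn {c z : ℂ} (n : ℕ) : (f c)^[n] z ∈ K c ↔ z ∈ K c := by
  induction n with
  | zero => rfl
  | succ n ih => rw [Function.iterate_succ_apply', k1_f, ih]

theorem k1_neg {c z : ℂ} : -z ∈ K c ↔ z ∈ K c := by
  rw [← k1_f, f_neg, k1_f]

theorem k1_out {c z : ℂ} (h : z ∉ K c) : ∃ N : ℕ, esc c < ‖(f c)^[N] z‖ := by
  rw [k1_mem] at h
  push Not at h
  exact h

theorem k1_escape {c z : ℂ} (h : z ∉ K c) : Tendsto (fun n : ℕ => ‖(f c)^[n] z‖) atTop atTop := by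
  obtain ⟨N, hN⟩ := k1_out h
  rw [← tendsto_add_atTop_iff_nat N]
  exact tendsto_atTop_mono (k1_pow hN.le)
    (tendsto_pow_atTop_atTop_of_one_lt (by norm_num : (1 : ℝ) < 2))

theorem k1_loc {c z : ℂ} (h : z ∉ K c) (B : ℝ) :
    ∃ V ∈ 𝓝 z, ∀ᶠ n : ℕ in atTop, ∀ x ∈ V, B < ‖(f c)^[n] x‖ := by
  obtain ⟨N, hN⟩ := k1_out h
  refine ⟨{x | esc c < ‖(f c)^[N] x‖}, ?_, ?_⟩
  · exact (isOpen_lt continuous_const ((f_cont c).iterate N).norm).mem_nhds hN
  · obtain ⟨m, hm⟩ := pow_unbounded_of_one_lt B (by norm_num : (1 : ℝ) < 2)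
    filter_upwards [eventually_ge_atTop (m + N)] with n hn x hx
    have h1 := k1_pow (le_of_lt hx) (n - N)
    rw [Nat.sub_add_cancel (by omega)] at h1
    have h2 : (2 : ℝ) ^ m ≤ 2 ^ (n - N) := pow_le_pow_right₀ (by norm_num) (by omega)
    linarith

theorem k1_bound {c z : ℂ} {n : ℕ} {B : ℝ} (h : ‖(f c)^[n] z‖ ≤ B) : ‖z‖ ≤ max (esc c) B := by
  by_contra hc
  push Not at hc
  have h1 := (le_max_left (esc c) B).trans_lt hc
  have h2 := (le_max_right (esc c) B).trans_lt hc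
  have h3 := k1_iter h1.le n
  have h4 : (1 : ℝ) ≤ 2 ^ n := one_le_pow₀ (by norm_num)
  have h5 := norm_nonneg z
  nlinarith

/-- a preimage close to `z` of a point close to `f c z` -/
theorem k1_root {c z w : ℂ} {ε : ℝ} (hε : 0 < ε) (h : ‖w - f c z‖ < ε ^ 2) :
    ∃ u : ℂ, f c u = w ∧ ‖u - z‖ < ε := by
  obtain ⟨u, hu⟩ := IsAlgClosed.exists_pow_nat_eq (w - c) (by norm_num : 0 < 2)
  have h1 : (u - z) * (u + z) = w - f c z := by
    unfold f
    linear_combination hu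
  have hw : f c u = w := by
    unfold f
    rw [hu]
    ring
  by_cases h2 : ‖u - z‖ < ε
  · exact ⟨u, hw, h2⟩
  · refine ⟨-u, by rw [f_neg]; exact hw, ?_⟩
    push Not at h2
    have h3 : ‖-u - z‖ = ‖u + z‖ := by
      rw [← norm_neg]
      congr 1
      ring
    rw [h3]
    by_contra h4
    push Not at h4
    rw [← h1, norm_mul] at h
    nlinarith

end H66S
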