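import Pool.Agent.Lib.H66S.K1

/-!
# H66S, K2 (S/M, many small): the Julia set
-/

set_option autoImplicit false

namespace H66S

open Set Filter Topology Metric

theorem k2_sub (c : ℂ) : J c ⊆ K c := (k1_closed c).frontier_subset

theorem k2_compact (c : ℂ) : IsCompact (J c) :=
  (k1_compact c).of_isClosed_subset isClosed_frontier (k2_sub c)

/-- PROOF. `J c = K c ∩ closure (K c)ᶜ`. -/
theorem k2_mem {c z : ℂ} : z ∈ J c ↔ z ∈ K c ∧ ∀ ε : ℝ, 0 < ε → ∃ u : ℂ, u ∉ K c ∧ ‖u - z‖ < ε := by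
  unfold J
  rw [frontier_eq_closure_inter_closure, (k1_closed c).closure_eq, mem_inter_iff,
    Metric.mem_closure_iff]
  refine and_congr_right fun _ => forall₂_congr fun ε _ => exists_congr fun u => ?_
  rw [dist_comm, dist_eq_norm]
  rfl

theorem k2_pre {c z : ℂ} (h : f c z ∈ J c) : z ∈ J c := by
  rw [k2_mem] at h ⊢
  refine ⟨k1_f.1 h.1, fun ε hε => ?_⟩
  obtain ⟨w, hw, hd⟩ := h.2 (ε ^ 2) (by positivity)
  obtain ⟨u, hu, hd'⟩ := k1_root hε hd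
  refine ⟨u, fun hk => hw ?_, hd'⟩
  rw [← hu]
  exact k1_f.2 hk

/-- PROOF. `k2_mem` and the continuity of `f c`. -/
theorem k2_f {c z : ℂ} (h : z ∈ J c) : f c z ∈ J c := by
  rw [k2_mem] at h ⊢
  refine ⟨k1_f.2 h.1, fun ε hε => ?_⟩
  obtain ⟨δ, hδ, h1⟩ := Metric.continuousAt_iff.1 (f_cont c).continuousAt ε hε
  obtain ⟨u, hu, hd⟩ := h.2 δ hδ
  rw [← dist_eq_norm] at hd
  refine ⟨f c u, fun hk => hu (k1_f.1 hk), ?_⟩
  rw [← dist_eq_norm]
  exact h1 hd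

theorem k2_neg {c z : ℂ} (h : z ∈ J c) : -z ∈ J c := by
  refine k2_pre ?_
  rw [f_neg]
  exact k2_f h

/-- PROOF. If `c = 0`, the unit ball is in `K 0` (`‖z ^ (2 ^ n)‖ ≤ 1`), so `0` is in the interior. -/
theorem k2_ne {c : ℂ} (h : (0 : ℂ) ∈ J c) : c ≠ 0 := by
  rintro rfl
  obtain ⟨u, hu, hd⟩ := (k2_mem.1 h).2 1 one_pos
  rw [sub_zero] at hd
  refine hu ⟨1, fun n => ?_⟩
  induction n with
  | zero => exact hd.le
  | succ n ih =>
    rw [Function.iterate_succ_apply', f, add_zero, norm_pow]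
    exact pow_le_one₀ (norm_nonneg _) ih

/-- PROOF. `k2_mem`. -/
theorem k2_lim {c y : ℂ} (hy : y ∈ K c) (h : y ∈ closure (K c)ᶜ) : y ∈ J c := by
  unfold J
  rw [frontier_eq_closure_inter_closure]
  exact ⟨subset_closure hy, h⟩

end H66S
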