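import Pool.Agent.Lib.H66S.K1

/-!
# H66S, LG1 (S/M, many small): continuous logarithms
-/

set_option autoImplicit false

namespace H66S

open Set Filter Topology Metric

/-- `u` has a continuous logarithm on `Q` -/
def HasLog (Q : Set ℂ) (u : ℂ → ℂ) : Prop := ∃ l : ℂ → ℂ, ContinuousOn l Q ∧ ∀ z ∈ Q, Complex.exp (l z) = u z

theorem lg1_near {Q : Set ℂ} {u v : ℂ → ℂ} (h : HasLog Q u) (hv : ContinuousOn v Q)
    (hd : ∀ z ∈ Q, ‖v z - u z‖ < ‖u z‖) : HasLog Q v := by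
  obtain ⟨l, hl, he⟩ := h
  have hu : ContinuousOn u Q := (Complex.continuous_exp.comp_continuousOn hl).congr
    fun z hz => (he z hz).symm
  have hu0 : ∀ z ∈ Q, u z ≠ 0 := fun z hz => by
    rw [← he z hz]
    exact Complex.exp_ne_zero _
  have hs : ∀ z ∈ Q, v z / u z ∈ Complex.slitPlane := by
    intro z hz
    have h1 : v z / u z = 1 + (v z - u z) / u z := by
      have := hu0 z hz
      field_simp
      ring
    rw [h1]
    refine Complex.mem_slitPlane_of_norm_lt_one ?_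
    rw [norm_div, div_lt_one (norm_pos_iff.2 (hu0 z hz))]
    exact hd z hz
  refine ⟨fun z => l z + Complex.log (v z / u z), hl.add ?_, fun z hz => ?_⟩
  · exact ContinuousOn.clog (hv.div hu hu0) hs
  · have h1 := hu0 z hz
    simp only
    rw [Complex.exp_add, he z hz, Complex.exp_log (Complex.slitPlane_ne_zero (hs z hz))]
    field_simp

theorem lg1_far {Q : Set ℂ} {G : ℂ → ℂ} {a : ℂ} (hG : ContinuousOn G Q) (h : ∀ z ∈ Q, ‖G z‖ < ‖a‖) :
    HasLog Q (fun z => G z - a) := by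
  by_cases ha : a = 0
  · refine ⟨fun _ => 0, continuousOn_const, fun z hz => ?_⟩
    have h1 := h z hz
    rw [ha, norm_zero] at h1
    exact absurd h1 (not_lt.2 (norm_nonneg _))
  · refine lg1_near (u := fun _ => -a) ⟨fun _ => Complex.log (-a), continuousOn_const, fun z _ =>
      Complex.exp_log (neg_ne_zero.2 ha)⟩ (hG.sub continuousOn_const) (fun z hz => ?_)
    simp only [sub_neg_eq_add, sub_add_cancel, norm_neg]
    exact h z hz

theorem lg1_sqrt {c : ℂ} {Q : Set ℂ} {G : ℂ → ℂ} (h : HasLog Q (fun z => G z - c)) {x y : ℂ} (hx : x ∈ Q)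
    (hy : f c y = G x) : ∃ G' : ℂ → ℂ, ContinuousOn G' Q ∧ (∀ z ∈ Q, f c (G' z) = G z) ∧ G' x = y := by
  obtain ⟨l, hl, he⟩ := h
  have hc : ContinuousOn (fun z => Complex.exp (l z / 2)) Q :=
    Complex.continuous_exp.comp_continuousOn (hl.div_const 2)
  have hf : ∀ z ∈ Q, f c (Complex.exp (l z / 2)) = G z := by
    intro z hz
    have h1 := he z hz
    unfold f
    rw [sq, ← Complex.exp_add, add_halves, h1]
    ring
  have h1 : f c (Complex.exp (l x / 2)) = f c y := by rw [hf x hx, hy]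
  rcases f_eq_iff.1 h1 with h2 | h2
  · exact ⟨_, hc, hf, h2⟩
  · refine ⟨fun z => -Complex.exp (l z / 2), hc.neg, fun z hz => ?_, ?_⟩
    · rw [f_neg]
      exact hf z hz
    · simp only
      rw [h2, neg_neg]

theorem lg1_chain {Y : Set ℂ} (hY : IsPreconnected Y) {δ : ℝ} (hδ : 0 < δ) {p : ℂ → Prop}
    (hp : ∀ a ∈ Y, ∀ b ∈ Y, ‖b - a‖ < δ → p a → p b) {a₀ : ℂ} (ha : a₀ ∈ Y) (h0 : p a₀) :
    ∀ a ∈ Y, p a := by
  by_contra hc
  push Not at hc
  obtain ⟨a, haY, hpa⟩ := hc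
  have hself : ∀ x : ℂ, x ∈ ball x (δ / 2) := fun x => mem_ball_self (by positivity)
  obtain ⟨y, -, hy1, hy2⟩ := hY {x | ∃ b ∈ Y, p b ∧ x ∈ ball b (δ / 2)}
    {x | ∃ b ∈ Y, ¬ p b ∧ x ∈ ball b (δ / 2)} (by
      have : {x | ∃ b ∈ Y, p b ∧ x ∈ ball b (δ / 2)} = ⋃ b ∈ Y, ⋃ _ : p b, ball b (δ / 2) := by
        ext x
        simp only [Set.mem_ofPred_eq, mem_iUnion, exists_prop]
      rw [this]
      exact isOpen_biUnion fun b _ => isOpen_iUnion fun _ => isOpen_ball)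
    (by
      have : {x | ∃ b ∈ Y, ¬ p b ∧ x ∈ ball b (δ / 2)} =
          ⋃ b ∈ Y, ⋃ _ : ¬ p b, ball b (δ / 2) := by
        ext x
        simp only [Set.mem_ofPred_eq, mem_iUnion, exists_prop]
      rw [this]
      exact isOpen_biUnion fun b _ => isOpen_iUnion fun _ => isOpen_ball)
    (fun x hx => by
      by_cases h : p x
      · exact Or.inl ⟨x, hx, h, hself x⟩
      · exact Or.inr ⟨x, hx, h, hself x⟩)
    ⟨a₀, ha, a₀, ha, h0, hself _⟩ ⟨a, haY, a, haY, hpa, hself _⟩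
  obtain ⟨b, hb, hpb, hyb⟩ := hy1
  obtain ⟨b', hb', hpb', hyb'⟩ := hy2
  refine hpb' (hp b hb b' hb' ?_ hpb)
  rw [mem_ball] at hyb hyb'
  rw [← dist_eq_norm]
  have h1 := dist_triangle_left b' b y
  linarith

theorem lg1_root (c : ℂ) (k : ℕ) {ε : ℝ} (hε : 0 < ε) : ∃ δ : ℝ, 0 < δ ∧ ∀ a b x : ℂ, ‖b - a‖ < δ →
    (f c)^[k] x = a → ∃ y : ℂ, (f c)^[k] y = b ∧ ‖y - x‖ < ε := by
  induction k generalizing ε with
  | zero =>
    refine ⟨ε, hε, fun a b x h hx => ⟨b, rfl, ?_⟩⟩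
    have hx' : x = a := hx
    rw [hx']
    exact h
  | succ k ih =>
    obtain ⟨δ, hδ, h⟩ := ih (ε := ε ^ 2) (by positivity)
    refine ⟨δ, hδ, fun a b x hd hx => ?_⟩
    rw [Function.iterate_succ_apply] at hx
    obtain ⟨y', hy', hd'⟩ := h a b (f c x) hd hx
    obtain ⟨u, hu, hd''⟩ := k1_root hε hd'
    refine ⟨u, ?_, hd''⟩
    rw [Function.iterate_succ_apply, hu, hy']

theorem lg1_big (c : ℂ) (k : ℕ) (R : ℝ) : ∃ R' : ℝ, ∀ x : ℂ, R' < ‖(f c)^[k] x‖ → R < ‖x‖ := by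
  obtain ⟨C, hC⟩ := (isCompact_closedBall (0 : ℂ) R).exists_bound_of_continuousOn
    ((f_cont c).iterate k).continuousOn
  refine ⟨C, fun x hx => ?_⟩
  by_contra hR
  push Not at hR
  have := hC x (by rwa [mem_closedBall_zero_iff])
  linarith

end H66S
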