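import Pool.Agent.Lib.H66S.W3

/-!
# H66S, S1 (M): the separation lemma, preparations
-/

set_option autoImplicit false

namespace H66S

open Set Filter Topology Metric

variable {c : ℂ} {φ : ℂ → ℂ}

/-- The outward ray of `φ w`. PROOF. `O = φ '' {z | ∃ s : ℝ, 1 ≤ s ∧ z = s * w}`: as in `bo1_ray` (`bo1_closed` with `ρ = ‖w‖`), and `(s w).im = s w.im`. -/
theorem s1_ray (h : Bot c φ) {w : ℂ} (hw : 1 < ‖w‖) :
    ∃ O : Set ℂ, IsClosed O ∧ IsPreconnected O ∧ φ w ∈ O ∧ (∀ R : ℝ, ∃ z ∈ O, R < ‖z‖) ∧ (∀ z ∈ O, z ∉ K c) ∧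
      (0 < w.im → O ⊆ Up φ) ∧ (w.im < 0 → O ⊆ Lo φ) := by
  have hw0 : w ≠ 0 := by
    rintro rfl
    rw [norm_zero] at hw
    linarith
  have hn : ∀ s : ℝ, 1 ≤ s → ‖(s : ℂ) * w‖ = s * ‖w‖ := fun s hs => by
    rw [norm_mul, Complex.norm_real, Real.norm_eq_abs, abs_of_nonneg (by linarith)]
  have hn1 : ∀ s : ℝ, 1 ≤ s → ‖w‖ ≤ ‖(s : ℂ) * w‖ := fun s hs => by
    rw [hn s hs]
    nlinarith
  have him : ∀ s : ℝ, ((s : ℂ) * w).im = s * w.im := fun s => by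
    rw [Complex.mul_im, Complex.ofReal_re, Complex.ofReal_im, zero_mul, add_zero]
  have hT : IsClosed {z : ℂ | (z / w).im = 0 ∧ 1 ≤ (z / w).re} :=
    (isClosed_eq (Complex.continuous_im.comp (continuous_id.div_const w)) continuous_const).inter
      (isClosed_le continuous_const (Complex.continuous_re.comp (continuous_id.div_const w)))
  have hTe : ∀ z : ℂ, z ∈ {z : ℂ | (z / w).im = 0 ∧ 1 ≤ (z / w).re} → ∃ s : ℝ, 1 ≤ s ∧ z = (s : ℂ) * w := by
    rintro z ⟨h1, h2⟩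
    refine ⟨(z / w).re, h2, ?_⟩
    have h3 : (((z / w).re : ℝ) : ℂ) = z / w := Complex.ext (Complex.ofReal_re _) (by rw [Complex.ofReal_im, h1])
    rw [h3, div_mul_cancel₀ _ hw0]
  have himg : (fun s : ℝ => φ ((s : ℂ) * w)) '' Ici 1 = φ '' {z : ℂ | (z / w).im = 0 ∧ 1 ≤ (z / w).re} := by
    ext y
    constructor
    · rintro ⟨s, hs, rfl⟩
      refine ⟨(s : ℂ) * w, ⟨?_, ?_⟩, rfl⟩
      · rw [mul_div_cancel_right₀ _ hw0, Complex.ofReal_im]
      · rw [mul_div_cancel_right₀ _ hw0, Complex.ofReal_re]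
        exact hs
    · rintro ⟨z, hz, rfl⟩
      obtain ⟨s, hs, rfl⟩ := hTe z hz
      exact ⟨s, hs, rfl⟩
  refine ⟨(fun s : ℝ => φ ((s : ℂ) * w)) '' Ici 1, ?_, ?_, ⟨1, mem_Ici.2 le_rfl, by simp⟩, ?_, ?_, ?_, ?_⟩
  · rw [himg]
    refine bo1_closed h.toIsRiemannMap hw hT fun z hz => ?_
    obtain ⟨s, hs, rfl⟩ := hTe z hz
    exact hn1 s hs
  · refine isPreconnected_Ici.image _ ?_
    refine h.holo.continuousOn.comp (Continuous.continuousOn (by fun_prop)) fun s hs => ?_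
    exact lt_of_lt_of_le hw (hn1 s hs)
  · intro R
    obtain ⟨ρ, hρ, hR⟩ := bo1_b h.toIsRiemannMap R
    refine ⟨_, ⟨ρ + 1, mem_Ici.2 (by linarith), rfl⟩, hR _ ?_⟩
    rw [hn _ (by linarith)]
    nlinarith
  · rintro _ ⟨s, hs, rfl⟩
    exact bo1_out h.toIsRiemannMap (lt_of_lt_of_le hw (hn1 s hs))
  · rintro hi _ ⟨s, hs, rfl⟩
    refine ⟨_, ⟨lt_of_lt_of_le hw (hn1 s hs), ?_⟩, rfl⟩
    rw [him]
    have : (1 : ℝ) ≤ s := hs
    positivity
  · rintro hi _ ⟨s, hs, rfl⟩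
    refine ⟨_, ⟨lt_of_lt_of_le hw (hn1 s hs), ?_⟩, rfl⟩
    rw [him]
    have : (1 : ℝ) ≤ s := hs
    nlinarith

/-- PROOF. Injectivity of `φ` (`bo1_inj`). -/
theorem s1_disj (h : Bot c φ) {w w' : ℂ} (hw : 1 < ‖w‖) (hw' : 1 < ‖w'‖) :
    (φ w ∈ Up φ → 0 < w.im) ∧ (φ w ∈ Lo φ → w.im < 0) ∧ (φ w ∈ Rl φ → w.im = 0) ∧ (φ w = φ w' → w = w') := by
  refine ⟨?_, ?_, ?_, fun e => bo1_inj h.toIsRiemannMap hw hw' e⟩
  · rintro ⟨w0, ⟨h1, h2⟩, h3⟩
    rwa [bo1_inj h.toIsRiemannMap h1 hw h3] at h2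
  · rintro ⟨w0, ⟨h1, h2⟩, h3⟩
    rwa [bo1_inj h.toIsRiemannMap h1 hw h3] at h2
  · rintro ⟨w0, ⟨h1, h2⟩, h3⟩
    rwa [bo1_inj h.toIsRiemannMap h1 hw h3] at h2

/-- PROOF. Otherwise `y` is the limit of a sequence in `L ∪ Rl φ` (first countability); `L` is closed, so `y ∈ closure (Rl φ)`: `φ (w_i) → y` with `w_i` real; `‖w_i‖ → 1` (`bo1_lim`); infinitely many
`w_i` are positive (then `φ (w_i) → β` along them, `y = β ∈ L`), or infinitely many are negative (then `φ (w_i) = -φ (-w_i) → -β`, `y = -β ∈ L`). -/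
theorem s1_ball (h : Bot c φ) {β : ℂ} (hβ : Tendsto (fun r : ℝ => φ (r : ℂ)) (𝓝[>] 1) (𝓝 β)) {L : Set ℂ}
    (hL : IsClosed L) (h1 : β ∈ L) (h2 : -β ∈ L) {y : ℂ} (hyK : y ∈ K c) (hyL : y ∉ L) :
    ∃ δ : ℝ, 0 < δ ∧ ∀ z ∈ ball y δ, z ∉ L ∧ z ∉ Rl φ := by
  by_contra hcon
  push Not at hcon
  have hycl : y ∈ closure (L ∪ Rl φ) := by
    rw [Metric.mem_closure_iff]
    intro ε hε
    obtain ⟨z, hz, h3⟩ := hcon ε hε
    refine ⟨z, ?_, by rw [dist_comm]; exact hz⟩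
    by_cases hzL : z ∈ L
    · exact Or.inl hzL
    · exact Or.inr (h3 hzL)
  rw [closure_union, hL.closure_eq] at hycl
  rcases hycl with h3 | h3
  · exact hyL h3
  obtain ⟨u, hu, hul⟩ := mem_closure_iff_seq_limit.1 h3
  choose w hw hwu using hu
  have hw1 : ∀ i, 1 < ‖w i‖ := fun i => (hw i).1
  have hul' : Tendsto (fun i => φ (w i)) atTop (𝓝 y) := by
    simp only [hwu]
    exact hul
  have hnorm := bo1_lim h.toIsRiemannMap hw1 hyK hul'
  have hnw : Tendsto (fun i => ‖w i‖) atTop (𝓝[>] 1) :=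
    tendsto_nhdsWithin_iff.2 ⟨hnorm, Eventually.of_forall fun i => hw1 i⟩
  have hβ' : Tendsto (fun i => φ ((‖w i‖ : ℝ) : ℂ)) atTop (𝓝 β) := hβ.comp hnw
  have hprod : ∀ i, (φ (w i) - φ ((‖w i‖ : ℝ) : ℂ)) * (φ (w i) + φ ((‖w i‖ : ℝ) : ℂ)) = 0 := by
    intro i
    have hre : ((w i).re : ℂ) = w i := Complex.ext (Complex.ofReal_re _) (by rw [Complex.ofReal_im, (hw i).2])
    have habs : ‖w i‖ = |(w i).re| := by
      rw [← Real.norm_eq_abs, ← Complex.norm_real, hre]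
    rcases le_total 0 (w i).re with h4 | h4
    · rw [habs, abs_of_nonneg h4, hre, sub_self, zero_mul]
    · have h5 : ((‖w i‖ : ℝ) : ℂ) = -(w i) := by
        rw [habs, abs_of_nonpos h4, Complex.ofReal_neg, hre]
      rw [h5, bo4_neg h (hw1 i), add_neg_cancel, mul_zero]
  have hlim : (y - β) * (y + β) = 0 := by
    refine tendsto_nhds_unique ((hul'.sub hβ').mul (hul'.add hβ')) ?_
    simp only [hprod]
    exact tendsto_const_nhds
  rcases mul_eq_zero.1 hlim with h4 | h4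
  · exact hyL (by rw [sub_eq_zero.1 h4]; exact h1)
  · exact hyL (by rw [eq_neg_of_add_eq_zero_left h4]; exact h2)

theorem s1_thick {L : Set ℂ} (hLc : IsPreconnected L) {ε : ℝ} (hε : 0 < ε) :
    IsPreconnected (thickening ε L) := by
  refine isPreconnected_of_forall_pair fun a ha b hb => ?_
  rw [mem_thickening_iff] at ha hb
  obtain ⟨x, hx, hax⟩ := ha
  obtain ⟨x', hx', hbx⟩ := hb
  have hL : L ⊆ thickening ε L := self_subset_thickening hε L
  refine ⟨ball x ε ∪ L ∪ ball x' ε, ?_, Or.inl (Or.inl hax), Or.inr hbx, ?_⟩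
  · refine union_subset (union_subset ?_ hL) ?_
    · exact ball_subset_thickening hx ε
    · exact ball_subset_thickening hx' ε
  · refine IsPreconnected.union x' (Or.inr hx') (mem_ball_self hε) ?_ (convex_ball x' ε).isPreconnected
    exact IsPreconnected.union x (mem_ball_self hε) hx (convex_ball x ε).isPreconnected hLc

/-- PROOF. `thickening ε L` is open and connected (union of the balls `ball x ε`, `x ∈ L`), so it is path connected (`IsOpen.isConnected_iff_isPathConnected`); the path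
extended to `ℝ` (`Path.extend`). -/
theorem s1_path {L : Set ℂ} (hLc : IsPreconnected L) {ε : ℝ} (hε : 0 < ε) {p q : ℂ}
    (hp : p ∈ thickening ε L) (hq : q ∈ thickening ε L) :
    ∃ γ : ℝ → ℂ, ContinuousOn γ (Icc 0 1) ∧ γ 0 = p ∧ γ 1 = q ∧ ∀ t ∈ Icc (0 : ℝ) 1, γ t ∈ thickening ε L := by
  have hc : IsConnected (thickening ε L) := ⟨⟨p, hp⟩, s1_thick hLc hε⟩
  have hpc : IsPathConnected (thickening ε L) := (isOpen_thickening.isConnected_iff_isPathConnected).1 hc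
  obtain ⟨γ, hγ⟩ := hpc.joinedIn p hp q hq
  refine ⟨γ.extend, γ.continuous_extend.continuousOn, γ.extend_zero, γ.extend_one, fun t ht => ?_⟩
  rw [γ.extend_apply ht]
  exact hγ _

end H66S
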