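import Pool.Agent.Lib.H66S.D0

/-!
# H66S, W1 (M, several small): increments of continuous logarithms along paths
-/

set_option autoImplicit false

namespace H66S

open Set Filter Topology Metric

/-- `v` is the increment of a continuous logarithm of `u` on `[0, 1]` -/
def Inc (u : ℝ → ℂ) (v : ℂ) : Prop :=
  ∃ l : ℝ → ℂ, ContinuousOn l (Icc 0 1) ∧ (∀ t ∈ Icc (0 : ℝ) 1, Complex.exp (l t) = u t) ∧ v = l 1 - l 0

/-- PROOF. Path lifting for the covering map `Complex.exp` (`Complex.isCoveringMap_exp` in `Mathlib/Analysis/Complex/CoveringMap.lean`,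
`IsCoveringMap.liftPath`, on `unitInterval`; extend by `Set.projIcc` / `IccExtend`). Or directly: `u` is uniformly continuous and `‖u‖ ≥ m > 0`; with
`l (t) = l (j / n) + log (u t / u (j / n))` on `[j / n, (j + 1) / n]`. -/
theorem w1_exists {u : ℝ → ℂ} (hu : ContinuousOn u (Icc 0 1)) (h0 : ∀ t ∈ Icc (0 : ℝ) 1, u t ≠ 0) :
    ∃ v, Inc u v := by
  have hsc : IsSimplyConnected (univ : Set ℝ) := by
    have : ContractibleSpace (univ : Set ℝ) := (Homeomorph.Set.univ ℝ).contractibleSpace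
    exact (inferInstance : SimplyConnectedSpace (univ : Set ℝ))
  have hpc : Continuous fun t : ℝ => ((projIcc (0 : ℝ) 1 zero_le_one t : Icc (0 : ℝ) 1) : ℝ) :=
    continuous_subtype_val.comp continuous_projIcc
  have hg : Continuous fun t : ℝ => u (projIcc (0 : ℝ) 1 zero_le_one t : Icc (0 : ℝ) 1) :=
    hu.comp_continuous hpc fun t => (projIcc (0 : ℝ) 1 zero_le_one t).2
  obtain ⟨l, hl, he⟩ := Complex.exists_continuousOn_eqOn_exp_comp hsc isOpen_univ hg.continuousOn (by
    rintro ⟨t, -, ht⟩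
    exact h0 _ (projIcc (0 : ℝ) 1 zero_le_one t).2 ht)
  refine ⟨l 1 - l 0, l, hl.mono (subset_univ _), fun t ht => ?_, rfl⟩
  have h1 := he (mem_univ t)
  rw [Function.comp_apply] at h1
  rw [h1]
  show u (projIcc (0 : ℝ) 1 zero_le_one t : Icc (0 : ℝ) 1) = u t
  rw [projIcc_of_mem zero_le_one ht]

/-- PROOF. The difference `l - l'` is continuous with values in `2 π i ℤ` on the connected set `[0, 1]`, so it is constant (`Complex.exp_eq_exp_iff_exists_int`;
`IsPreconnected.constant` for the integer-valued function, or: `(l - l') / (2 π i)` is a continuous real function with integer values). -/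
theorem w1_unique {u : ℝ → ℂ} {v v' : ℂ} (h : Inc u v) (h' : Inc u v') : v = v' := by
  obtain ⟨l, hl, he, rfl⟩ := h
  obtain ⟨l', hl', he', rfl⟩ := h'
  have hd : IsDiscrete ((AddSubgroup.zmultiples (2 * Real.pi * Complex.I) : AddSubgroup ℂ) : Set ℂ) := by
    rw [isDiscrete_iff_discreteTopology]
    exact NormedSpace.discreteTopology_zmultiples _
  have hm : MapsTo (fun t => l t - l' t) (Icc (0 : ℝ) 1)
      ((AddSubgroup.zmultiples (2 * Real.pi * Complex.I) : AddSubgroup ℂ) : Set ℂ) := by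
    intro t ht
    have h1 : Complex.exp (l t) = Complex.exp (l' t) := (he t ht).trans (he' t ht).symm
    obtain ⟨n, hn⟩ := Complex.exp_eq_exp_iff_exists_int.1 h1
    refine ⟨n, ?_⟩
    simp only [zsmul_eq_mul]
    rw [hn]
    ring
  have h1 := (isPreconnected_Icc (a := (0 : ℝ)) (b := 1)).constant_of_mapsTo hd (hl.sub hl') hm
    (right_mem_Icc.2 zero_le_one) (left_mem_Icc.2 zero_le_one)
  have h2 : l 1 - l' 1 = l 0 - l' 0 := h1
  linear_combination h2

/-- PROOF. `u' t / u t ∈ ball 1 1 ⊆ Complex.slitPlane`: add `Complex.log (u' t / u t)` to the logarithm. -/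
theorem w1_near {u u' : ℝ → ℂ} {v : ℂ} (h : Inc u v) (hu' : ContinuousOn u' (Icc 0 1))
    (hd : ∀ t ∈ Icc (0 : ℝ) 1, ‖u' t - u t‖ < ‖u t‖) :
    Inc u' (v + (Complex.log (u' 1 / u 1) - Complex.log (u' 0 / u 0))) := by
  obtain ⟨l, hl, he, rfl⟩ := h
  have hne : ∀ t ∈ Icc (0 : ℝ) 1, u t ≠ 0 := fun t ht => by
    rw [← he t ht]
    exact Complex.exp_ne_zero _
  have hu : ContinuousOn u (Icc 0 1) :=
    (Complex.continuous_exp.comp_continuousOn hl).congr fun t ht => (he t ht).symm
  have hs : ∀ t ∈ Icc (0 : ℝ) 1, u' t / u t ∈ Complex.slitPlane := by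
    intro t ht
    have h1 : u' t / u t = 1 + (u' t - u t) / u t := by
      have := hne t ht
      field_simp
      ring
    rw [h1]
    refine Complex.mem_slitPlane_of_norm_lt_one ?_
    rw [norm_div, div_lt_one (norm_pos_iff.2 (hne t ht))]
    exact hd t ht
  refine ⟨fun t => l t + Complex.log (u' t / u t), ?_, fun t ht => ?_, by ring⟩
  · exact hl.add ((hu'.div hu hne).clog hs)
  · have h2 := Complex.slitPlane_ne_zero (hs t ht)
    rw [Complex.exp_add, Complex.exp_log h2, he t ht, mul_div_cancel₀ _ (hne t ht)]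

open scoped Classical in
/-- the increment of the logarithm of `u` along `[0, 1]` -/
noncomputable def inc (u : ℝ → ℂ) : ℂ := if h : ∃ v, Inc u v then h.choose else 0

/-- PROOF. `w1_unique`. -/
theorem inc_eq {u : ℝ → ℂ} {v : ℂ} (h : Inc u v) : inc u = v := by
  unfold inc
  have hex : ∃ v, Inc u v := ⟨v, h⟩
  rw [dif_pos hex]
  exact w1_unique hex.choose_spec h

theorem inc_spec {u : ℝ → ℂ} (hu : ContinuousOn u (Icc 0 1)) (h0 : ∀ t ∈ Icc (0 : ℝ) 1, u t ≠ 0) :
    Inc u (inc u) := by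
  obtain ⟨v, hv⟩ := w1_exists hu h0
  rw [inc_eq hv]
  exact hv

/-- PROOF. `w1_near`, `inc_eq`, `inc_spec`. -/
theorem inc_near {u u' : ℝ → ℂ} (hu : ContinuousOn u (Icc 0 1)) (hu' : ContinuousOn u' (Icc 0 1))
    (hd : ∀ t ∈ Icc (0 : ℝ) 1, ‖u' t - u t‖ < ‖u t‖) :
    inc u' = inc u + (Complex.log (u' 1 / u 1) - Complex.log (u' 0 / u 0)) := by
  have h0 : ∀ t ∈ Icc (0 : ℝ) 1, u t ≠ 0 := fun t ht h1 => by
    have h2 := hd t ht
    rw [h1, norm_zero] at h2
    exact absurd h2 (not_lt.2 (norm_nonneg _))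
  exact inc_eq (w1_near (inc_spec hu h0) hu' hd)

/-- PROOF. The logarithm `log r + i (a + b t)`. -/
theorem inc_arc {r a b : ℝ} (hr : 0 < r) :
    inc (fun t : ℝ => (r : ℂ) * Complex.exp (Complex.I * (a + b * t))) = Complex.I * b := by
  refine inc_eq ⟨fun t => (Real.log r : ℂ) + Complex.I * (a + b * t), ?_, fun t _ => ?_, ?_⟩
  · fun_prop
  · rw [Complex.exp_add, ← Complex.ofReal_exp, Real.exp_log hr]
  · push_cast
    ring

/-- PROOF. The constant logarithm. -/
theorem inc_const {a : ℂ} (ha : a ≠ 0) : inc (fun _ : ℝ => a) = 0 := by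
  refine inc_eq ⟨fun _ => Complex.log a, continuousOn_const, fun t _ => Complex.exp_log ha, ?_⟩
  ring

end H66S
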