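import Pool.Agent.Lib.H66S.W1

/-!
# H66S, W2 (M, several small): the index of a closed curve with four pieces
-/

set_option autoImplicit false

namespace H66S

open Set Filter Topology Metric

/-- a closed curve made of four paths on `[0, 1]` -/
structure Loop (p : Fin 4 → ℝ → ℂ) : Prop where
  cont : ∀ i, ContinuousOn (p i) (Icc 0 1)
  e0 : p 0 1 = p 1 0
  e1 : p 1 1 = p 2 0
  e2 : p 2 1 = p 3 0
  e3 : p 3 1 = p 0 0

/-- `2 π i` times the index of `z` -/
noncomputable def T (p : Fin 4 → ℝ → ℂ) (z : ℂ) : ℂ := ∑ i, inc (fun t => p i t - z)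

/-- PROOF. `inc_near` for `u = p i - z`, `u' = p i - z'` (`u' - u = z - z'`); the logarithms telescope because of the closing conditions
(`Fin.sum_univ_four`; `u' 1 / u 1` for `i` is `u' 0 / u 0` for `i + 1`). -/
theorem w2_loc {p : Fin 4 → ℝ → ℂ} (h : Loop p) {z z' : ℂ}
    (hd : ∀ i, ∀ t ∈ Icc (0 : ℝ) 1, ‖z' - z‖ < ‖p i t - z‖) : T p z' = T p z := by
  unfold T
  have h1 : ∀ i : Fin 4, inc (fun t => p i t - z') = inc (fun t => p i t - z) +
      (Complex.log ((p i 1 - z') / (p i 1 - z)) - Complex.log ((p i 0 - z') / (p i 0 - z))) := by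
    intro i
    refine inc_near ((h.cont i).sub continuousOn_const) ((h.cont i).sub continuousOn_const) ?_
    intro t ht
    have h2 : p i t - z' - (p i t - z) = -(z' - z) := by ring
    rw [h2, norm_neg]
    exact hd i t ht
  rw [Fin.sum_univ_four, Fin.sum_univ_four, h1 0, h1 1, h1 2, h1 3, h.e0, h.e1, h.e2, h.e3]
  ring

/-- PROOF. `T p` is locally constant at each `z ∈ O`: the images `p i '' Icc 0 1` are compact and do not contain `z`, so their distance to `z` is positive; `w2_loc`.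
A locally constant function on a preconnected set is constant (`IsPreconnected.induction₂`-type lemma, or `IsPreconnected` with the sets `{T p z = T p z₀}` and its complement). -/
theorem w2_conn {p : Fin 4 → ℝ → ℂ} (h : Loop p) {O : Set ℂ} (hO : IsPreconnected O)
    (hd : ∀ i, ∀ t ∈ Icc (0 : ℝ) 1, p i t ∉ O) {z z' : ℂ} (hz : z ∈ O) (hz' : z' ∈ O) : T p z = T p z' := by
  refine hO.induction₂ (fun x y => T p x = T p y) (fun x hx => ?_)
    (fun _ _ _ _ _ _ h1 h2 => h1.trans h2) (fun _ _ _ _ h1 => h1.symm) hz hz'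
  have h1 : ∀ i : Fin 4, ∀ᶠ y in 𝓝 x, ∀ t ∈ Icc (0 : ℝ) 1, ‖y - x‖ < ‖p i t - x‖ := by
    intro i
    have hc : IsCompact (p i '' Icc 0 1) := isCompact_Icc.image_of_continuousOn (h.cont i)
    have hx' : x ∈ (p i '' Icc 0 1)ᶜ := by
      rintro ⟨t, ht, rfl⟩
      exact hd i t ht hx
    obtain ⟨r, hr, hrS⟩ := Metric.isOpen_iff.1 hc.isClosed.isOpen_compl x hx'
    filter_upwards [ball_mem_nhds x hr] with y hy t ht
    rw [mem_ball, dist_eq_norm] at hy
    refine lt_of_lt_of_le hy ?_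
    by_contra hcon
    rw [not_le] at hcon
    have h2 : p i t ∈ ball x r := by
      rw [mem_ball, dist_eq_norm]
      exact hcon
    exact hrS h2 (mem_image_of_mem _ ht)
  have h2 : ∀ᶠ y in 𝓝 x, ∀ i : Fin 4, ∀ t ∈ Icc (0 : ℝ) 1, ‖y - x‖ < ‖p i t - x‖ :=
    eventually_all.2 h1
  filter_upwards [mem_nhdsWithin_of_mem_nhds h2] with y hy
  exact (w2_loc h hy).symm

/-- PROOF. `inc_near` with `u = -z` constant (`inc_const`), `u' = p i - z`; the logarithms telescope. -/
theorem w2_far {p : Fin 4 → ℝ → ℂ} (h : Loop p) {z : ℂ} (hd : ∀ i, ∀ t ∈ Icc (0 : ℝ) 1, ‖p i t‖ < ‖z‖) :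
    T p z = 0 := by
  have hz : z ≠ 0 := by
    rintro rfl
    have h2 := hd 0 0 (left_mem_Icc.2 zero_le_one)
    rw [norm_zero] at h2
    exact absurd h2 (not_lt.2 (norm_nonneg _))
  unfold T
  have h1 : ∀ i : Fin 4, inc (fun t => p i t - z) =
      Complex.log ((p i 1 - z) / (-z)) - Complex.log ((p i 0 - z) / (-z)) := by
    intro i
    have h2 := inc_near (u := fun _ => -z) (u' := fun t => p i t - z) continuousOn_const
      ((h.cont i).sub continuousOn_const) (fun t ht => by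
        have h3 : p i t - z - -z = p i t := by ring
        rw [h3, norm_neg]
        exact hd i t ht)
    rw [h2, inc_const (neg_ne_zero.2 hz), zero_add]
  rw [Fin.sum_univ_four, h1 0, h1 1, h1 2, h1 3, h.e0, h.e1, h.e2, h.e3]
  ring

/-- PROOF. The images of the `p i` are bounded by `R`; take `z' ∈ O`, `R < ‖z'‖`: `w2_conn`, `w2_far`. -/
theorem w2_escape {p : Fin 4 → ℝ → ℂ} (h : Loop p) {O : Set ℂ} (hO : IsPreconnected O)
    (hOu : ∀ R : ℝ, ∃ z ∈ O, R < ‖z‖) (hd : ∀ i, ∀ t ∈ Icc (0 : ℝ) 1, p i t ∉ O) {z : ℂ} (hz : z ∈ O) :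
    T p z = 0 := by
  have h1 : ∀ i : Fin 4, ∃ R : ℝ, ∀ t ∈ Icc (0 : ℝ) 1, ‖p i t‖ ≤ R := fun i =>
    isCompact_Icc.exists_bound_of_continuousOn (h.cont i)
  choose R hR using h1
  obtain ⟨z', hz', hn⟩ := hOu (R 0 + R 1 + R 2 + R 3)
  have hR0 : ∀ i, 0 ≤ R i := fun i => (norm_nonneg _).trans (hR i 0 (left_mem_Icc.2 zero_le_one))
  rw [w2_conn h hO hd hz hz']
  refine w2_far h fun i t ht => ?_
  have h2 := hR i t ht
  have h3 : R i ≤ R 0 + R 1 + R 2 + R 3 := by
    have a0 := hR0 0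
    have a1 := hR0 1
    have a2 := hR0 2
    have a3 := hR0 3
    fin_cases i
    · show R 0 ≤ _
      linarith
    · show R 1 ≤ _
      linarith
    · show R 2 ≤ _
      linarith
    · show R 3 ≤ _
      linarith
  linarith

end H66S
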