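import Pool.Agent.Lib.H66S.W2
import Pool.Agent.Lib.H66S.BO4

/-!
# H66S, W3 (S/M): the winding number of the image of a large circle
-/

set_option autoImplicit false

namespace H66S

open Set Filter Topology Metric

/-- the lower arc from `φ (-ρ)` to `φ ρ` -/
noncomputable def loArc (φ : ℂ → ℂ) (ρ t : ℝ) : ℂ :=
  φ ((ρ : ℂ) * Complex.exp (Complex.I * ((Real.pi : ℝ) + (Real.pi : ℝ) * t)))

/-- the upper arc from `φ (-ρ)` to `φ ρ` -/
noncomputable def upArc (φ : ℂ → ℂ) (ρ t : ℝ) : ℂ :=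
  φ ((ρ : ℂ) * Complex.exp (Complex.I * ((Real.pi : ℝ) + ((-Real.pi : ℝ) : ℂ) * t)))

theorem w3_norm {ρ : ℝ} (hρ : 0 < ρ) (x : ℝ) : ‖(ρ : ℂ) * Complex.exp (Complex.I * x)‖ = ρ := by
  rw [norm_mul, Complex.norm_exp_I_mul_ofReal, mul_one, Complex.norm_real, Real.norm_eq_abs,
    abs_of_pos hρ]

theorem w3_im (ρ x : ℝ) : ((ρ : ℂ) * Complex.exp (Complex.I * x)).im = ρ * Real.sin x := by
  rw [mul_comm Complex.I, Complex.mul_im, Complex.ofReal_re, Complex.ofReal_im, zero_mul, add_zero,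
    Complex.exp_ofReal_mul_I_im]

theorem w3_lo (φ : ℂ → ℂ) (ρ t : ℝ) :
    loArc φ ρ t = φ ((ρ : ℂ) * Complex.exp (Complex.I * ((Real.pi + Real.pi * t : ℝ) : ℂ))) := by
  unfold loArc
  push_cast
  rfl

theorem w3_up (φ : ℂ → ℂ) (ρ t : ℝ) :
    upArc φ ρ t = φ ((ρ : ℂ) * Complex.exp (Complex.I * ((Real.pi + -Real.pi * t : ℝ) : ℂ))) := by
  unfold upArc
  push_cast
  rfl

theorem loArc_zero (φ : ℂ → ℂ) (ρ : ℝ) : loArc φ ρ 0 = φ (-ρ) := by
  rw [w3_lo, mul_zero, add_zero, mul_comm Complex.I, Complex.exp_pi_mul_I, mul_neg, mul_one]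

theorem loArc_one (φ : ℂ → ℂ) (ρ : ℝ) : loArc φ ρ 1 = φ ρ := by
  have h : Complex.exp (Complex.I * ((Real.pi + Real.pi * 1 : ℝ) : ℂ)) = 1 := by
    have h1 : Complex.I * ((Real.pi + Real.pi * 1 : ℝ) : ℂ) = 2 * Real.pi * Complex.I := by
      push_cast
      ring
    rw [h1, Complex.exp_two_pi_mul_I]
  rw [w3_lo, h, mul_one]

theorem upArc_zero (φ : ℂ → ℂ) (ρ : ℝ) : upArc φ ρ 0 = φ (-ρ) := by
  rw [w3_up, mul_zero, add_zero, mul_comm Complex.I, Complex.exp_pi_mul_I, mul_neg, mul_one]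

theorem upArc_one (φ : ℂ → ℂ) (ρ : ℝ) : upArc φ ρ 1 = φ ρ := by
  rw [w3_up, mul_one, add_neg_cancel, Complex.ofReal_zero, mul_zero, Complex.exp_zero, mul_one]

theorem loArc_cont {c : ℂ} {φ : ℂ → ℂ} (h : Bot c φ) {ρ : ℝ} (hρ : 1 < ρ) :
    ContinuousOn (loArc φ ρ) (Icc 0 1) := by
  have h1 : ContinuousOn (fun t : ℝ => φ ((ρ : ℂ) * Complex.exp (Complex.I * ((Real.pi + Real.pi * t : ℝ) : ℂ))))
      (Icc 0 1) := by
    refine h.holo.continuousOn.comp (Continuous.continuousOn (by fun_prop)) fun t _ => ?_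
    show 1 < ‖_‖
    rw [w3_norm (by linarith)]
    exact hρ
  exact h1.congr fun t _ => w3_lo φ ρ t

theorem upArc_cont {c : ℂ} {φ : ℂ → ℂ} (h : Bot c φ) {ρ : ℝ} (hρ : 1 < ρ) :
    ContinuousOn (upArc φ ρ) (Icc 0 1) := by
  have h1 : ContinuousOn (fun t : ℝ => φ ((ρ : ℂ) * Complex.exp (Complex.I * ((Real.pi + -Real.pi * t : ℝ) : ℂ))))
      (Icc 0 1) := by
    refine h.holo.continuousOn.comp (Continuous.continuousOn (by fun_prop)) fun t _ => ?_
    show 1 < ‖_‖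
    rw [w3_norm (by linarith)]
    exact hρ
  exact h1.congr fun t _ => w3_up φ ρ t

/-- PROOF. The point is `φ w`, `w = ρ exp (i π (1 + t))`, `‖w‖ = ρ`, `w.im = - ρ sin (π t) ≤ 0`. -/
theorem loArc_mem (φ : ℂ → ℂ) {ρ t : ℝ} (hρ : 1 < ρ) (ht : t ∈ Icc (0 : ℝ) 1) :
    ∃ w : ℂ, ‖w‖ = ρ ∧ w.im ≤ 0 ∧ loArc φ ρ t = φ w := by
  refine ⟨_, w3_norm (by linarith) _, ?_, w3_lo φ ρ t⟩
  rw [w3_im]
  have h1 : Real.sin (Real.pi + Real.pi * t) ≤ 0 := by
    rw [add_comm, Real.sin_add_pi]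
    have := Real.sin_nonneg_of_nonneg_of_le_pi (x := Real.pi * t)
      (mul_nonneg Real.pi_pos.le ht.1) (by nlinarith [Real.pi_pos, ht.2])
    linarith
  nlinarith

theorem upArc_mem (φ : ℂ → ℂ) {ρ t : ℝ} (hρ : 1 < ρ) (ht : t ∈ Icc (0 : ℝ) 1) :
    ∃ w : ℂ, ‖w‖ = ρ ∧ 0 ≤ w.im ∧ upArc φ ρ t = φ w := by
  refine ⟨_, w3_norm (by linarith) _, ?_, w3_up φ ρ t⟩
  rw [w3_im]
  have h1 : 0 ≤ Real.sin (Real.pi + -Real.pi * t) := by
    refine Real.sin_nonneg_of_nonneg_of_le_pi ?_ ?_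
    · nlinarith [Real.pi_pos, ht.2]
    · nlinarith [Real.pi_pos, ht.1]
  nlinarith

/-- PROOF. `(φ w - z) / w → 1` as `w → ∞` (`h.lead`), so there is `ρ₀` with `‖(φ w - z) - w‖ < ‖w‖` for `‖w‖ ≥ ρ₀`. `inc_near` with `u t = ρ exp (i (π ± π t))` (`inc_arc`: `inc u = ± i π`) and
`u' t = (arc) - z`: the end values of `u' / u` are `(φ ρ - z) / ρ` and `(φ (-ρ) - z) / (-ρ)` for both arcs, so the difference of the increments is `i π - (- i π)`. -/
theorem w3_circle {c : ℂ} {φ : ℂ → ℂ} (h : Bot c φ) (z : ℂ) : ∃ ρ₀ : ℝ, ∀ ρ : ℝ, ρ₀ < ρ →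
    inc (fun t => loArc φ ρ t - z) - inc (fun t => upArc φ ρ t - z) = 2 * Real.pi * Complex.I := by
  have h1 : Tendsto (fun w : ℂ => (φ w - z) / w) (Bornology.cobounded ℂ) (𝓝 1) := by
    have h2 : Tendsto (fun w : ℂ => z * w⁻¹) (Bornology.cobounded ℂ) (𝓝 (z * 0)) :=
      tendsto_const_nhds.mul tendsto_inv₀_cobounded
    have h3 := h.lead.sub h2
    rw [mul_zero, sub_zero] at h3
    refine h3.congr fun w => ?_
    rw [sub_div, div_eq_mul_inv z w]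
  have h4 : ∀ᶠ w in Bornology.cobounded ℂ, dist ((φ w - z) / w) 1 < 1 :=
    (Metric.tendsto_nhds.1 h1) 1 one_pos
  obtain ⟨r, -, hr⟩ := hasBasis_cobounded_norm.eventually_iff.1 h4
  have key : ∀ w : ℂ, max r 1 < ‖w‖ → ‖φ w - z - w‖ < ‖w‖ := by
    intro w hw
    have hw0 : 0 < ‖w‖ := lt_trans one_pos ((le_max_right r 1).trans_lt hw)
    have hw1 : w ≠ 0 := norm_pos_iff.1 hw0
    have h5 := hr (show w ∈ {x | r ≤ ‖x‖} from ((le_max_left r 1).trans_lt hw).le)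
    rw [dist_eq_norm] at h5
    have h6 : φ w - z - w = ((φ w - z) / w - 1) * w := by
      field_simp
    rw [h6, norm_mul]
    calc ‖(φ w - z) / w - 1‖ * ‖w‖ < 1 * ‖w‖ := mul_lt_mul_of_pos_right h5 hw0
      _ = ‖w‖ := one_mul _
  refine ⟨max r 1, fun ρ hρ => ?_⟩
  have hρ1 : 1 < ρ := (le_max_right r 1).trans_lt hρ
  have hρ0 : 0 < ρ := by linarith
  have hlo : inc (fun t => loArc φ ρ t - z) = Complex.I * Real.pi +
      (Complex.log ((φ ρ - z) / ρ) - Complex.log ((φ (-ρ) - z) / (-ρ))) := by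
    have h5 := inc_near (u := fun t : ℝ => (ρ : ℂ) * Complex.exp (Complex.I * ((Real.pi : ℝ) + (Real.pi : ℝ) * t)))
      (u' := fun t => loArc φ ρ t - z) (Continuous.continuousOn (by fun_prop))
      ((loArc_cont h hρ1).sub continuousOn_const) (fun t ht => by
        have h6 : (ρ : ℂ) * Complex.exp (Complex.I * ((Real.pi : ℝ) + (Real.pi : ℝ) * t)) =
            (ρ : ℂ) * Complex.exp (Complex.I * ((Real.pi + Real.pi * t : ℝ) : ℂ)) := by
          push_cast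
          rfl
        simp only [h6]
        rw [w3_lo]
        refine key _ ?_
        rw [w3_norm hρ0]
        exact hρ)
    rw [h5, inc_arc hρ0]
    have e1 : Complex.exp (Complex.I * ((Real.pi : ℝ) + (Real.pi : ℝ) * ((1 : ℝ) : ℂ))) = 1 := by
      have h1 : Complex.I * ((Real.pi : ℝ) + (Real.pi : ℝ) * ((1 : ℝ) : ℂ)) = 2 * Real.pi * Complex.I := by
        push_cast
        ring
      rw [h1, Complex.exp_two_pi_mul_I]
    have e2 : Complex.exp (Complex.I * ((Real.pi : ℝ) + (Real.pi : ℝ) * ((0 : ℝ) : ℂ))) = -1 := by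
      rw [Complex.ofReal_zero, mul_zero, add_zero, mul_comm Complex.I, Complex.exp_pi_mul_I]
    simp only [e1, e2, loArc_zero, loArc_one, mul_one, mul_neg]
  have hup : inc (fun t => upArc φ ρ t - z) = Complex.I * ((-Real.pi : ℝ) : ℂ) +
      (Complex.log ((φ ρ - z) / ρ) - Complex.log ((φ (-ρ) - z) / (-ρ))) := by
    have h5 := inc_near (u := fun t : ℝ => (ρ : ℂ) * Complex.exp (Complex.I * ((Real.pi : ℝ) + ((-Real.pi : ℝ) : ℂ) * t)))
      (u' := fun t => upArc φ ρ t - z) (Continuous.continuousOn (by fun_prop))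
      ((upArc_cont h hρ1).sub continuousOn_const) (fun t ht => by
        have h6 : (ρ : ℂ) * Complex.exp (Complex.I * ((Real.pi : ℝ) + ((-Real.pi : ℝ) : ℂ) * t)) =
            (ρ : ℂ) * Complex.exp (Complex.I * ((Real.pi + -Real.pi * t : ℝ) : ℂ)) := by
          push_cast
          rfl
        simp only [h6]
        rw [w3_up]
        refine key _ ?_
        rw [w3_norm hρ0]
        exact hρ)
    rw [h5, inc_arc hρ0]
    have e1 : Complex.exp (Complex.I * ((Real.pi : ℝ) + ((-Real.pi : ℝ) : ℂ) * ((1 : ℝ) : ℂ))) = 1 := by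
      have h1 : Complex.I * ((Real.pi : ℝ) + ((-Real.pi : ℝ) : ℂ) * ((1 : ℝ) : ℂ)) = 0 := by
        push_cast
        ring
      rw [h1, Complex.exp_zero]
    have e2 : Complex.exp (Complex.I * ((Real.pi : ℝ) + ((-Real.pi : ℝ) : ℂ) * ((0 : ℝ) : ℂ))) = -1 := by
      rw [Complex.ofReal_zero, mul_zero, add_zero, mul_comm Complex.I, Complex.exp_pi_mul_I]
    simp only [e1, e2, upArc_zero, upArc_one, mul_one, mul_neg]
  rw [hlo, hup]
  push_cast
  ring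

end H66S
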